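import Pool.Agent.H98.SD.Targets
import Pool.Agent.H45.NF.PA

/-!
# MP_e37c09_lc, SecondDichotomy: lemmas for the rows
-/

open Ordinal Cardinal Order Set
open scoped ZFSet

universe u

namespace HD.SD

open HD.NF (w0)

/-- positivity at a fixed ordinal -/
theorem dx_pos (h : T_DXP.{u}) {P : ZFSet.{u} → (ℕ → Ordinal.{u}) → Prop} (hP : DX P)
    (μ κ : Ordinal.{u}) : DX fun x w => Pos μ κ {b | P x (cns b w)} := by
  refine DX.sub (S := fun m x w => Pos m κ {b | P x (cns b w)}) μ ?_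
  refine DX.sub (S := fun k x w => Pos (w 0) k {b | P x (cns b (fun n => w (n + 1)))}) κ ?_
  have h1 := h (fun x w => P x (cns (w 0) (fun n => w (n + 3)))) ?_ 1 0
  · exact h1
  · refine (hP.ren fun n => if n = 0 then 0 else n + 2).congr fun x w => ?_
    have : cns (w 0) (fun n => w (n + 3)) = fun n => w (if n = 0 then 0 else n + 2) := by
      funext n
      rcases n with _ | n <;> rfl
    rw [this]

/-- order types -/
theorem dx_nth (h : T_DXN.{u}) {P : ZFSet.{u} → (ℕ → Ordinal.{u}) → Prop} (hP : DX P)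
    (i j : ℕ) (σ : ℕ → ℕ) : DX fun x w => nth {b | P x (cns b (fun n => w (σ n)))} (w i) (w j) :=
  ((h P hP).ren fun n => if n = 0 then i else if n = 1 then j else σ (n - 2)).congr
    fun _ _ => Iff.rfl

/-- elimination of `¬ Eqv` -/
theorem not_eqv {κ : Ordinal.{u}} {X Y : Set Ordinal.{u}} :
    ¬ Eqv κ X Y ↔ Pos w0 κ {b | ¬ (b ∈ X ↔ b ∈ Y)} := by
  unfold Eqv
  exact not_not

theorem Eqv.iff' {κ : Ordinal.{u}} {X Y : Set Ordinal.{u}} :
    Eqv κ X Y ↔ ¬ Pos w0 κ {b | ¬ (b ∈ X ↔ b ∈ Y)} := Iff.rfl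

/-- A cardinal is not mapped one-to-one to a smaller ordinal. -/
theorem noinj {C : Cardinal.{u}} {τ : Ordinal.{u}} (hτ : τ < C.ord)
    (a : Ordinal.{u} → Ordinal.{u}) (h1 : ∀ i < C.ord, a i < τ)
    (h2 : ∀ i < C.ord, ∀ k < C.ord, a i = a k → i = k) : False := by
  let F : Iio C.ord → Iio τ := fun i => ⟨a i.1, h1 i.1 i.2⟩
  have hF : Function.Injective F := fun i k h =>
    Subtype.ext (h2 i.1 i.2 k.1 k.2 (congrArg Subtype.val h))
  have h3 := Cardinal.mk_le_of_injective hF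
  rw [Cardinal.mk_Iio_ordinal, Cardinal.mk_Iio_ordinal, Cardinal.card_ord,
    Cardinal.lift_le] at h3
  exact absurd (Cardinal.lt_ord.1 hτ) (not_lt.2 h3)

/-- A set which has not `C` elements does not contain `C` elements. -/
theorem few_noinj {C : Cardinal.{u}} {X : Set Ordinal.{u}} (h : Few C.ord X)
    (m : Ordinal.{u} → Ordinal.{u}) (h1 : ∀ i < C.ord, m i ∈ X)
    (h2 : ∀ i < C.ord, ∀ k < C.ord, m i = m k → i = k) : False := by
  obtain ⟨τ, hτ, e, he⟩ := h
  have h3 : ∀ i, ∃ a, i < C.ord → a < τ ∧ e a = m i := by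
    intro i
    by_cases hi : i < C.ord
    · obtain ⟨a, ha, h⟩ := he (m i) (h1 i hi)
      exact ⟨a, fun _ => ⟨ha, h⟩⟩
    · exact ⟨0, fun h => absurd h hi⟩
  choose a ha using h3
  refine noinj hτ a (fun i hi => (ha i hi).1) fun i hi k hk h => h2 i hi k hk ?_
  rw [← (ha i hi).2, ← (ha k hk).2, h]

/-- The increasing enumeration of a set with fewer than `C` elements. -/
theorem enum {C : Cardinal.{u}} {X : Set Ordinal.{u}} (h : Few C.ord X) :
    ∃ τ < C.ord, (∀ i < τ, ∃ z, nth X i z) ∧ ∀ z ∈ X, ∃ i < τ, nth X i z := by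
  obtain ⟨v1, v2, v3, -⟩ := All.vh X
  have h0 : ∃ a, a < C.ord ∧ ¬ ∃ z, nth X a z := by
    by_contra hc
    push Not at hc
    have h1 : ∀ i, ∃ z, i < C.ord → nth X i z := by
      intro i
      by_cases hi : i < C.ord
      · obtain ⟨z, hz⟩ := hc i hi
        exact ⟨z, fun _ => hz⟩
      · exact ⟨0, fun h => absurd h hi⟩
    choose m hm using h1
    refine few_noinj h m (fun i hi => (hm i hi).1) fun i hi k hk he => ?_
    rcases lt_trichotomy i k with hik | hik | hik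
    · exact absurd ((v2 _ _ _ _ (hm i hi) (hm k hk)).1 hik) (by rw [he]; exact lt_irrefl _)
    · exact hik
    · exact absurd ((v2 _ _ _ _ (hm k hk) (hm i hi)).1 hik) (by rw [he]; exact lt_irrefl _)
  have hne : ({a | ¬ ∃ z, nth X a z} : Set Ordinal.{u}).Nonempty := ⟨_, h0.choose_spec.2⟩
  have hmem : ¬ ∃ z, nth X (sInf {a | ¬ ∃ z, nth X a z}) z := csInf_mem hne
  refine ⟨sInf {a | ¬ ∃ z, nth X a z},
    lt_of_le_of_lt (csInf_le' h0.choose_spec.2) h0.choose_spec.1, fun i hi => ?_,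
    fun z hz => ?_⟩
  · by_contra hc
    exact absurd (csInf_le' (s := {a | ¬ ∃ z, nth X a z}) hc) (not_le.2 hi)
  · obtain ⟨a, -, ha⟩ := v1 z hz
    refine ⟨a, ?_, ha⟩
    by_contra hc
    rcases (not_lt.1 hc).lt_or_eq with h1 | h1
    · obtain ⟨y, -, hy⟩ := v3 a z ha _ h1
      exact hmem ⟨y, hy⟩
    · rw [h1] at hmem
      exact hmem ⟨z, ha⟩

/-- uniqueness of the `i`-th element -/
theorem nth_val {X : Set Ordinal.{u}} {i z y : Ordinal.{u}} (h : nth X i z) (h' : nth X i y) :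
    z = y := by
  obtain ⟨-, v2, -, -⟩ := All.vh X
  rcases lt_trichotomy z y with hzy | hzy | hzy
  · exact absurd ((v2 _ _ _ _ h h').2 hzy) (lt_irrefl _)
  · exact hzy
  · exact absurd ((v2 _ _ _ _ h' h).2 hzy) (lt_irrefl _)

/-- uniqueness of the index -/
theorem nth_idx {X : Set Ordinal.{u}} {i k z : Ordinal.{u}} (h : nth X i z) (h' : nth X k z) :
    i = k := by
  obtain ⟨-, v2, -, -⟩ := All.vh X
  rcases lt_trichotomy i k with hzy | hzy | hzy
  · exact absurd ((v2 _ _ _ _ h h').1 hzy) (lt_irrefl _)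
  · exact hzy
  · exact absurd ((v2 _ _ _ _ h' h).1 hzy) (lt_irrefl _)

theorem cof_succ {L : Cardinal.{u}} (h : ℵ₀ < L) : (succ L).ord.cof = succ L :=
  (Cardinal.isRegular_succ h.le).cof_ord

theorem cof_succ_lt {L : Cardinal.{u}} (h : ℵ₀ < L) : ℵ₀ < (succ L).ord.cof := by
  rw [cof_succ h]
  exact h.trans (lt_succ L)

/-- the union of at most `L` null sets is null -/
theorem union_null {L : Cardinal.{u}} (h : ℵ₀ < L) {τ : Ordinal.{u}} (hτ : τ ≤ L.ord)
    (X : Ordinal.{u} → Set Ordinal.{u}) (hX : ∀ i < τ, ¬ Pos w0 (succ L).ord (X i)) :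
    ¬ Pos w0 (succ L).ord {b | ∃ i < τ, b ∈ X i} := by
  refine All.va w0 _ (cof_succ_lt h) τ ?_ X hX
  rw [cof_succ h]
  have h1 : τ.card ≤ L := by
    have := Ordinal.card_le_card hτ
    rwa [Cardinal.card_ord] at this
  exact h1.trans_lt (lt_succ L)

theorem Pos.mono' {μ κ : Ordinal.{u}} {X Y : Set Ordinal.{u}} (h : Pos μ κ X)
    (h' : ∀ b < κ, b ∈ X → b ∈ Y) : Pos μ κ Y := by
  intro C hC
  obtain ⟨b, h1, h2, h3, h4⟩ := h C hC
  exact ⟨b, h1, h2, h' b h1 h3, h4⟩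

/-- the bound for the number of the classes is less than `L` -/
theorem pow_lt {L M : Cardinal.{u}} (h : ∀ c < L, (2 : Cardinal.{u}) ^ c < L) (hM : M < L) :
    (succ ((2 : Cardinal.{u}) ^ M)).ord < L.ord :=
  Cardinal.ord_lt_ord.2 ((succ_le_of_lt (Cardinal.cantor _)).trans_lt (h _ (h _ hM)))

end HD.SD
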