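import Pool.Agent.H98.SD.TargetsH

/-!
# MP_e37c09_lc: subsets of a strong limit cardinal of cofinality ω. Targets for all regular
cardinals `K > L` in place of the successor of `L`
-/

open Ordinal Cardinal Order Set
open scoped ZFSet

universe u v

namespace HD.SD

open HD.NF (w0)
open HD.HV (NMeas)

/-! ## Statement-level definitions -/

/-- Simultaneous reflection: for each countable family of sets which are stationary in the points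
of cofinality `μ` of `K` there is an ordinal below `K` of uncountable cofinality less than `L` at
which all sets of the family are stationary (in the points of cofinality `μ`). -/
def RflK (μ : Ordinal.{u}) (K L : Cardinal.{u}) : Prop := ∀ X : Ordinal.{u} → Set Ordinal.{u},
  (∀ i < w0, Pos μ K.ord (X i)) →
    ∃ β < K.ord, ℵ₀ < β.cof ∧ β.cof < L ∧ ∀ i < w0, Pos μ β (X i)

/-- The sets `T i`, `i < τ`, where `τ < L`, of ordinals below `K` are disjoint, they are stationary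
in the points of cofinality `μ`, they contain almost all of these points, they are definable from
ordinals and one element of the class `A`, the sets in `NC A` which contain almost all points of
cofinality `μ` of `T i` are a normal measure of `NC A` on `K`, and each function from `K` to the
power set of `L` which is definable from ordinals and an element of `A` is constant on almost all
of `T i`. -/
structure MsrK (A : ZFSet.{u} → Prop) (μ : Ordinal.{u}) (K L : Cardinal.{u}) (τ : Ordinal.{u})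
    (T : Ordinal.{u} → Set Ordinal.{u}) : Prop where
  lt : τ < L.ord
  pos : ∀ i < τ, Pos μ K.ord (T i)
  dis : ∀ i < τ, ∀ k < τ, ∀ b, b ∈ T i → b ∈ T k → i = k
  cov : ¬ Pos μ K.ord {b | ∀ i < τ, b ∉ T i}
  df : ∃ x, A x ∧ ∀ i < τ, NF.ODp x (os K.ord (T i))
  nrm : ∀ i < τ, NMeas (NC A) K.ord (UC A μ K.ord (T i))
  fn : ∀ i < τ, ∀ y F : ZFSet.{u}, A y → NF.ODp y F →
    ZFSet.IsFunc K.ord.toZFSet (ZFSet.powerset L.ord.toZFSet) F →
      ∃ z, ¬ Pos μ K.ord {b | b ∈ T i ∧ ZFSet.pair b.toZFSet z ∉ F}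

/-! ## Auxiliary definitions -/

/-- `X` is not split by a set which is definable from ordinals and `y`. -/
def IndK (en : Ordinal.{u} → ZFSet.{u}) (μ : Ordinal.{u}) (K : Cardinal.{u}) (y : ZFSet.{u})
    (X : Set Ordinal.{u}) : Prop :=
  ∀ c, ¬ Pos μ K.ord {b | b ∈ X ∧ b ∈ Sc en y c} ∨ ¬ Pos μ K.ord {b | b ∈ X ∧ b ∉ Sc en y c}

/-- `P` and `x` give for each `m < L` a family of `m` disjoint positive sets. -/
def FmsK (μ : Ordinal.{u}) (K L : Cardinal.{u}) (P : ZFSet.{u} → (ℕ → Ordinal.{u}) → Prop)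
    (x : ZFSet.{u}) : Prop :=
  ∀ m < L.ord, (∀ i < m, Pos μ K.ord (fam P x (fun _ => m) i)) ∧
    ∀ b i i', b ∈ fam P x (fun _ => m) i → b ∈ fam P x (fun _ => m) i' → i = i'

/-! ## Targets (each is the target of TargetsM / TargetsE with `K` in place of `succ L`) -/

/-- TYK (TYE). -/
def T_TYK : Prop := ∀ en t L, Stg.{u} en t L → ∀ K : Cardinal.{u}, K.IsRegular → L < K →
  ∀ D x, Cde D L x → ∀ M : Cardinal.{u}, ℵ₀ ≤ M →
  M < L → ∀ μ, ¬ SplM en μ K.ord x M.ord → ∀ P, DX P → ∀ w : ℕ → Ordinal.{u},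
    ∀ τ < L.ord, ∃ S, DX S ∧ ∃ w' : ℕ → Ordinal.{u}, Few M.ord {ξ | S x (cns ξ w')} ∧
      (∀ ξ, S x (cns ξ w') → ξ < L.ord ∧ Pos μ K.ord (pc (fam P x w) τ (D x ξ))) ∧
      (∀ ξ ξ' b, S x (cns ξ w') → S x (cns ξ' w') → b ∈ pc (fam P x w) τ (D x ξ) →
        b ∈ pc (fam P x w) τ (D x ξ') → ξ = ξ') ∧
      ¬ Pos μ K.ord {b | ∀ ξ, S x (cns ξ w') → b ∉ pc (fam P x w) τ (D x ξ)}

/-- CNK (CNE). -/
def T_CNK : Prop := ∀ en t L, Stg.{u} en t L → ∀ K : Cardinal.{u}, K.IsRegular → L < K →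
  ∀ D x, Cde D L x → ∀ M : Cardinal.{u}, ℵ₀ ≤ M →
  M < L → ∀ μ, ¬ SplM en μ K.ord x M.ord →
    Few (succ ((2 : Cardinal.{u}) ^ M)).ord {c | ∀ c' < c, ¬ EqvM μ K.ord (Sc en x c) (Sc en x c')}

/-- ALK (ALM). -/
def T_ALK : Prop := ∀ en t L, Stg.{u} en t L → ∀ K : Cardinal.{u}, K.IsRegular → L < K →
  ∀ M : Cardinal.{u}, ℵ₀ ≤ M → M < L → ∀ μ,
  (∀ x, x ⊆ L.ord.toZFSet → ¬ SplM en μ K.ord x M.ord) →
    ∃ x, Cdd t L x ∧ ∀ y, y ⊆ L.ord.toZFSet → ∀ c, ∃ c', EqvM μ K.ord (Sc en y c) (Sc en x c')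

/-- ATK (ATT, ATE). -/
def T_ATK : Prop := ∀ en t L, Stg.{u} en t L → ∀ K : Cardinal.{u}, K.IsRegular → L < K →
  ∀ M : Cardinal.{u}, ℵ₀ ≤ M → M < L →
  ∀ μ D x, Cde D L x → ¬ SplM en μ K.ord x M.ord →
    ∃ τ < L.ord, ∃ T : Ordinal.{u} → Set Ordinal.{u},
      (∀ i < τ, Pos μ K.ord (T i)) ∧
      (∀ i < τ, ∀ k < τ, ∀ b, b ∈ T i → b ∈ T k → i = k) ∧
      ¬ Pos μ K.ord {b | ∀ i < τ, b ∉ T i} ∧
      (∀ i < τ, NF.ODp x (os K.ord (T i))) ∧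
      ∀ y, (∀ c, ∃ c', EqvM μ K.ord (Sc en y c) (Sc en x c')) → ∀ i < τ, IndK en μ K y (T i)

/-- SEK (SEM). -/
def T_SEK : Prop := ∀ en : Ordinal.{u} → ZFSet.{u}, EN en → ∀ K : Cardinal.{u}, K.IsRegular →
  ℵ₀ < K → ∀ μ y X, IndK en μ K y X → ∀ A : ZFSet.{u}, NF.ODp y A →
    ¬ Pos μ K.ord {b | b ∈ X ∧ b.toZFSet ∈ A} ∨ ¬ Pos μ K.ord {b | b ∈ X ∧ b.toZFSet ∉ A}

/-- PFK (PFM). -/
def T_PFK : Prop := ∀ en : Ordinal.{u} → ZFSet.{u}, EN en → ∀ K L : Cardinal.{u}, K.IsRegular →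
  ℵ₀ < L → L < K → ∀ μ y X, IndK en μ K y X → ∀ F : ZFSet.{u}, NF.ODp y F →
    ZFSet.IsFunc K.ord.toZFSet (ZFSet.powerset L.ord.toZFSet) F →
      ∃ z, ¬ Pos μ K.ord {b | b ∈ X ∧ ZFSet.pair b.toZFSet z ∉ F}

/-- MEK (MEC, without the hypothesis on regressive functions). -/
def T_MEK : Prop := ∀ A : ZFSet.{u} → Prop, Gp A → ∀ K : Cardinal.{u}, K.IsRegular → ℵ₀ < K →
  ∀ (μ : Ordinal.{u}) (S : Set Ordinal.{u}), (∃ x, A x ∧ NF.ODp x (os K.ord S)) →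
    Pos μ K.ord S →
    (∀ y B : ZFSet.{u}, A y → NF.ODp y B → ¬ Pos μ K.ord {b | b ∈ S ∧ b.toZFSet ∈ B} ∨
      ¬ Pos μ K.ord {b | b ∈ S ∧ b.toZFSet ∉ B}) →
      NMeas (NC A) K.ord (UC A μ K.ord S)

/-- UNK (UNN). -/
def T_UNK : Prop := ∀ en t L, Stg.{u} en t L → ∀ μ κ,
  (∀ x, Cdd t L x → ∃ m < L.ord, ¬ SplM en μ κ x m) →
    ∃ M : Cardinal.{u}, ℵ₀ ≤ M ∧ M < L ∧ ∀ x, x ⊆ L.ord.toZFSet → ¬ SplM en μ κ x M.ord

/-- UFK (UFM). -/
def T_UFK : Prop := ∀ en : Ordinal.{u} → ZFSet.{u}, EN en → ∀ (μ : Ordinal.{u})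
  (K L : Cardinal.{u}) (x : ZFSet.{u}), (∀ m < L.ord, SplM en μ K.ord x m) →
    ∃ P, DX P ∧ FmsK μ K L P x

/-- CVK (CVM). -/
def T_CVK : Prop := ∀ L : Cardinal.{u}, SLC ω L → ∀ K μ, RflK μ K L → ∀ x, Cof L x →
  ∀ P, DX P → FmsK μ K L P x → Cvr L.ord L x

/-- RFK (RFM). -/
def T_RFK : Prop := ∀ δ : Ordinal.{u}, Extendible δ → ∀ L : Cardinal.{u}, SLC δ L →
  ∀ M : Cardinal.{u}, M.IsRegular → M.ord < δ → ∀ K : Cardinal.{u}, K.IsRegular → L < K →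
    RflK M.ord K L

/-! ## The theorem -/

/-- The theorem for all regular `K > L`. -/
def T_MAIN8 : Prop :=
  (∀ L : Cardinal.{u}, SLC ω L → ∀ M : Cardinal.{u}, M.IsRegular → M < L →
    ∀ K : Cardinal.{u}, K.IsRegular → L < K → RflK M.ord K L →
      (WOP L ∨ ∃ τ T, MsrK (fun y => y ⊆ L.ord.toZFSet) M.ord K L τ T) ∧
      ∀ x, Bde L x → (∀ z, z ⊆ L.ord.toZFSet → NF.ODp x z) ∨
        ∃ τ T, MsrK (fun y => y = x) M.ord K L τ T) ∧
  (∀ L : Cardinal.{u}, SLC ω L → ∀ μ, RflM μ L → RflK μ (succ L) L) ∧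
  ∀ δ : Ordinal.{u}, Extendible δ → ∀ L : Cardinal.{u}, SLC δ L →
    SLC ω L ∧ ∀ M : Cardinal.{u}, M.IsRegular → M.ord < δ → M < L ∧
      ∀ K : Cardinal.{u}, K.IsRegular → L < K → RflK M.ord K L

end HD.SD
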