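import Pool.Agent.H98.SD.TargetsR

/-!
# MP_e37c09_lc: subsets of a strong limit cardinal of cofinality ω. Targets of the general form:
an arbitrary regular cardinal `μ` in place of `ω` for the cofinality of the points, and an
arbitrary class of parameters
-/

open Ordinal Cardinal Order Set
open scoped ZFSet

universe u v

namespace HD.SD

open HD.NF (w0)
open HD.HV (NMeas)

/-! ## Statement-level definitions -/

/-- Simultaneous reflection at the successor of `L`: for each countable family of sets which are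
stationary in the points of cofinality `μ` there is an ordinal of uncountable cofinality below the
successor of `L` at which all sets of the family are stationary (in the points of
cofinality `μ`). -/
def RflM (μ : Ordinal.{u}) (L : Cardinal.{u}) : Prop := ∀ X : Ordinal.{u} → Set Ordinal.{u},
  (∀ i < w0, Pos μ (succ L).ord (X i)) →
    ∃ β < (succ L).ord, ℵ₀ < β.cof ∧ ∀ i < w0, Pos μ β (X i)

/-- `z` is definable from ordinals and an element of the class `A`. -/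
def PC (A : ZFSet.{u} → Prop) (z : ZFSet.{u}) : Prop := ∃ y, A y ∧ NF.ODp y z

/-- `z` is hereditarily definable from ordinals and an element of the class `A`. If `A` is the
class of the subsets of `L`, this is HOD(P(L)). If `x` is the only element of `A`, this is HOD with
the parameter `x`. -/
def NC (A : ZFSet.{u} → Prop) (z : ZFSet.{u}) : Prop := z.Hereditarily (PC A)

/-- the set of all subsets of `κ` in `NC A` which contain almost all points of cofinality `μ`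
of `S` -/
noncomputable def UC (A : ZFSet.{u} → Prop) (μ κ : Ordinal.{u}) (S : Set Ordinal.{u}) :
    ZFSet.{u} :=
  ZFSet.sep (fun z => NC A z ∧ ¬ Pos μ κ {a | a ∈ S ∧ a.toZFSet ∉ z}) (ZFSet.powerset κ.toZFSet)

/-- The sets `T i`, `i < τ`, where `τ < L`, of ordinals below the successor `κ` of `L`, are
disjoint, they are stationary in the points of cofinality `μ`, they contain almost all of these
points, they are definable from ordinals and one element of the class `A`, the sets in `NC A` which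
contain almost all points of cofinality `μ` of `T i` are a normal measure of `NC A` on `κ`, and
each function from `κ` to the power set of `L` which is definable from ordinals and an element of
`A` is constant on almost all of `T i`. -/
structure MsrM (A : ZFSet.{u} → Prop) (μ : Ordinal.{u}) (L : Cardinal.{u}) (τ : Ordinal.{u})
    (T : Ordinal.{u} → Set Ordinal.{u}) : Prop where
  lt : τ < L.ord
  pos : ∀ i < τ, Pos μ (succ L).ord (T i)
  dis : ∀ i < τ, ∀ k < τ, ∀ b, b ∈ T i → b ∈ T k → i = k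
  cov : ¬ Pos μ (succ L).ord {b | ∀ i < τ, b ∉ T i}
  df : ∃ x, A x ∧ ∀ i < τ, NF.ODp x (os (succ L).ord (T i))
  nrm : ∀ i < τ, NMeas (NC A) (succ L).ord (UC A μ (succ L).ord (T i))
  fn : ∀ i < τ, ∀ y F : ZFSet.{u}, A y → NF.ODp y F →
    ZFSet.IsFunc (succ L).ord.toZFSet (ZFSet.powerset L.ord.toZFSet) F →
      ∃ z, ¬ Pos μ (succ L).ord {b | b ∈ T i ∧ ZFSet.pair b.toZFSet z ∉ F}

/-- `x` is a subset of `L`, all bounded subsets of `L` are in HOD with the parameter `x`, and `L`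
is singular in this model. -/
structure Bdx (L : Cardinal.{u}) (x : ZFSet.{u}) : Prop where
  sub : x ⊆ L.ord.toZFSet
  bd : ∀ m < L.ord, ∀ z, z ⊆ m.toZFSet → NF.ODp x z
  sg : ∃ D, NF.ODp x D ∧ D ⊆ L.ord.toZFSet ∧
    (∀ m < L.ord, ∃ a : Ordinal.{u}, m < a ∧ a.toZFSet ∈ D) ∧
    ∃ τ < L.ord, ∃ g : Ordinal.{u} → Ordinal.{u}, ∀ a : Ordinal.{u}, a.toZFSet ∈ D →
      ∃ i < τ, g i = a

/-! ## Auxiliary definitions -/

/-- `x` splits: there are `m` disjoint sets which are `μ`-positive at `κ`, and the family is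
definable from ordinals and `x`. -/
def SplM (en : Ordinal.{u} → ZFSet.{u}) (μ κ : Ordinal.{u}) (x : ZFSet.{u}) (m : Ordinal.{u}) :
    Prop :=
  ∃ c, (∀ i < m, Pos μ κ (Sc2 en x c i)) ∧
    ∀ b i i', b ∈ Sc2 en x c i → b ∈ Sc2 en x c i' → i = i'

/-- the sets `X` and `Y` are equal up to a null set -/
def EqvM (μ κ : Ordinal.{u}) (X Y : Set Ordinal.{u}) : Prop :=
  ¬ Pos μ κ {b | ¬ (b ∈ X ↔ b ∈ Y)}

/-- `X` is not split by a set which is definable from ordinals and `y`. -/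
def IndM (en : Ordinal.{u} → ZFSet.{u}) (μ : Ordinal.{u}) (L : Cardinal.{u}) (y : ZFSet.{u})
    (X : Set Ordinal.{u}) : Prop :=
  ∀ c, ¬ Pos μ (succ L).ord {b | b ∈ X ∧ b ∈ Sc en y c} ∨
    ¬ Pos μ (succ L).ord {b | b ∈ X ∧ b ∉ Sc en y c}

/-- `P` and `x` give for each `m < L` a family of `m` disjoint positive sets. -/
def FmsM (μ : Ordinal.{u}) (L : Cardinal.{u}) (P : ZFSet.{u} → (ℕ → Ordinal.{u}) → Prop)
    (x : ZFSet.{u}) : Prop :=
  ∀ m < L.ord, (∀ i < m, Pos μ (succ L).ord (fam P x (fun _ => m) i)) ∧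
    ∀ b i i', b ∈ fam P x (fun _ => m) i → b ∈ fam P x (fun _ => m) i' → i = i'

/-- The class `A` is definable from ordinals and each of its elements. -/
def Gp (A : ZFSet.{u} → Prop) : Prop := ∃ Q : (ℕ → ZFSet.{u}) → Prop, DZ Q ∧
  ∀ x, A x → ∀ y, (A y ↔ Q (cons y fun _ => x))

/-! ## Second case -/

/-- TRM. Change of the parameter. -/
def T_TRM : Prop := ∀ en : Ordinal.{u} → ZFSet.{u}, EN en → ∀ x x' : ZFSet.{u}, NF.ODp x' x →
  ∀ μ κ m, SplM en μ κ x m → SplM en μ κ x' m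

/-- FEM. Disjoint positive sets. -/
def T_FEM : Prop := ∀ en : Ordinal.{u} → ZFSet.{u}, EN en → ∀ (μ κ : Ordinal.{u}) (x : ZFSet.{u})
  (m : Ordinal.{u}), ¬ SplM en μ κ x m → ∀ P S, DX P → DX S → ∀ w : ℕ → Ordinal.{u},
    (∀ ξ, S x (cns ξ w) → Pos μ κ (fam P x w ξ)) →
    (∀ ξ ξ' b, S x (cns ξ w) → S x (cns ξ' w) → b ∈ fam P x w ξ → b ∈ fam P x w ξ' → ξ = ξ') →
      Few m {ξ | S x (cns ξ w)}

/-- TYM. The positive types of a short sequence. -/
def T_TYM : Prop := ∀ en t L, Stg.{u} en t L → ∀ x, Cdd t L x → ∀ M : Cardinal.{u}, ℵ₀ ≤ M →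
  M < L → ∀ μ, ¬ SplM en μ (succ L).ord x M.ord → ∀ P, DX P → ∀ w : ℕ → Ordinal.{u},
    ∀ τ < L.ord, ∃ S, DX S ∧ ∃ w' : ℕ → Ordinal.{u}, Few M.ord {ξ | S x (cns ξ w')} ∧
      (∀ ξ, S x (cns ξ w') → ξ < L.ord ∧ Pos μ (succ L).ord (pc (fam P x w) τ (dec t x ξ))) ∧
      (∀ ξ ξ' b, S x (cns ξ w') → S x (cns ξ' w') → b ∈ pc (fam P x w) τ (dec t x ξ) →
        b ∈ pc (fam P x w) τ (dec t x ξ') → ξ = ξ') ∧
      ¬ Pos μ (succ L).ord {b | ∀ ξ, S x (cns ξ w') → b ∉ pc (fam P x w) τ (dec t x ξ)}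

/-- EQM. Equality up to a null set is an equivalence. -/
def T_EQM : Prop := ∀ μ κ : Ordinal.{u}, ℵ₀ < κ.cof → (∀ X, EqvM μ κ X X) ∧
  (∀ X Y, EqvM μ κ X Y → EqvM μ κ Y X) ∧
  (∀ X Y Z, EqvM μ κ X Y → EqvM μ κ Y Z → EqvM μ κ X Z) ∧
  ∀ X Y, (∀ b < κ, (b ∈ X ↔ b ∈ Y)) → EqvM μ κ X Y

/-- CNM. The number of the classes for one parameter. -/
def T_CNM : Prop := ∀ en t L, Stg.{u} en t L → ∀ x, Cdd t L x → ∀ M : Cardinal.{u}, ℵ₀ ≤ M →
  M < L → ∀ μ, ¬ SplM en μ (succ L).ord x M.ord →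
    Few (succ ((2 : Cardinal.{u}) ^ M)).ord
      {c | ∀ c' < c, ¬ EqvM μ (succ L).ord (Sc en x c) (Sc en x c')}

/-- ALM. All classes occur for one parameter. -/
def T_ALM : Prop := ∀ en t L, Stg.{u} en t L → ∀ M : Cardinal.{u}, ℵ₀ ≤ M → M < L → ∀ μ,
  (∀ x, x ⊆ L.ord.toZFSet → ¬ SplM en μ (succ L).ord x M.ord) →
    ∃ x, Cdd t L x ∧ ∀ y, y ⊆ L.ord.toZFSet → ∀ c, ∃ c',
      EqvM μ (succ L).ord (Sc en y c) (Sc en x c')

/-- ATT. The atoms. -/
def T_ATT : Prop := ∀ en t L, Stg.{u} en t L → ∀ M : Cardinal.{u}, ℵ₀ ≤ M → M < L →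
  ∀ μ x, Cdd t L x → ¬ SplM en μ (succ L).ord x M.ord →
    ∃ τ < L.ord, ∃ T : Ordinal.{u} → Set Ordinal.{u},
      (∀ i < τ, Pos μ (succ L).ord (T i)) ∧
      (∀ i < τ, ∀ k < τ, ∀ b, b ∈ T i → b ∈ T k → i = k) ∧
      ¬ Pos μ (succ L).ord {b | ∀ i < τ, b ∉ T i} ∧
      (∀ i < τ, NF.ODp x (os (succ L).ord (T i))) ∧
      ∀ y, (∀ c, ∃ c', EqvM μ (succ L).ord (Sc en y c) (Sc en x c')) →
        ∀ i < τ, IndM en μ L y (T i)

/-- SEM. -/
def T_SEM : Prop := ∀ en : Ordinal.{u} → ZFSet.{u}, EN en → ∀ L : Cardinal.{u}, ℵ₀ < L →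
  ∀ μ y X, IndM en μ L y X → ∀ A : ZFSet.{u}, NF.ODp y A →
    ¬ Pos μ (succ L).ord {b | b ∈ X ∧ b.toZFSet ∈ A} ∨
      ¬ Pos μ (succ L).ord {b | b ∈ X ∧ b.toZFSet ∉ A}

/-- PFM. Functions with values in the power set of `L`. -/
def T_PFM : Prop := ∀ en : Ordinal.{u} → ZFSet.{u}, EN en → ∀ L : Cardinal.{u}, ℵ₀ < L →
  ∀ μ y X, IndM en μ L y X → ∀ F : ZFSet.{u}, NF.ODp y F →
    ZFSet.IsFunc (succ L).ord.toZFSet (ZFSet.powerset L.ord.toZFSet) F →
      ∃ z, ¬ Pos μ (succ L).ord {b | b ∈ X ∧ ZFSet.pair b.toZFSet z ∉ F}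

/-- REM. Regressive functions. -/
def T_REM : Prop := ∀ en : Ordinal.{u} → ZFSet.{u}, EN en → ∀ L : Cardinal.{u}, ℵ₀ < L →
  ∀ μ y X, Pos μ (succ L).ord X → IndM en μ L y X → ∀ F : ZFSet.{u},
    NF.ODp y F → ZFSet.IsFunc (succ L).ord.toZFSet (succ L).ord.toZFSet F →
      (∀ a b : Ordinal.{u}, ZFSet.pair a.toZFSet b.toZFSet ∈ F → 0 < a → b < a) →
        ∃ c : Ordinal.{u}, ¬ Pos μ (succ L).ord {b | b ∈ X ∧
          ZFSet.pair b.toZFSet c.toZFSet ∉ F}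

/-- MEC. The measures. -/
def T_MEC : Prop := ∀ A : ZFSet.{u} → Prop, Gp A → ∀ L : Cardinal.{u}, ℵ₀ < L →
  ∀ (μ : Ordinal.{u}) (S : Set Ordinal.{u}), (∃ x, A x ∧ NF.ODp x (os (succ L).ord S)) →
    Pos μ (succ L).ord S →
    (∀ y B : ZFSet.{u}, A y → NF.ODp y B → ¬ Pos μ (succ L).ord {b | b ∈ S ∧ b.toZFSet ∈ B} ∨
      ¬ Pos μ (succ L).ord {b | b ∈ S ∧ b.toZFSet ∉ B}) →
    (∀ y F : ZFSet.{u}, A y → NF.ODp y F →
      ZFSet.IsFunc (succ L).ord.toZFSet (succ L).ord.toZFSet F →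
        (∀ a b : Ordinal.{u}, ZFSet.pair a.toZFSet b.toZFSet ∈ F → 0 < a → b < a) →
          ∃ c : Ordinal.{u}, ¬ Pos μ (succ L).ord {b | b ∈ S ∧
            ZFSet.pair b.toZFSet c.toZFSet ∉ F}) →
      NMeas (NC A) (succ L).ord (UC A μ (succ L).ord S)

/-- NIM. The measures exclude injections. -/
def T_NIM : Prop := ∀ L : Cardinal.{u}, ℵ₀ < L → ∀ M : Cardinal.{u}, M.IsRegular → M < L →
  ∀ A τ T, MsrM A M.ord L τ T → ∀ y F : ZFSet.{u}, A y → NF.ODp y F →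
    ZFSet.IsFunc (succ L).ord.toZFSet (ZFSet.powerset L.ord.toZFSet) F →
      ∃ (a b : Ordinal.{u}) (z : ZFSet.{u}), a < b ∧ b < (succ L).ord ∧
        ZFSet.pair a.toZFSet z ∈ F ∧ ZFSet.pair b.toZFSet z ∈ F

/-- WIM. In the first case there is an injection which is definable from the same parameter. -/
def T_WIM : Prop := ∀ L : Cardinal.{u}, ℵ₀ < L → ∀ x, x ⊆ L.ord.toZFSet →
  (∀ z, z ⊆ L.ord.toZFSet → NF.ODp x z) → ∃ F, NF.ODp x F ∧
    ZFSet.IsFunc (succ L).ord.toZFSet (ZFSet.powerset L.ord.toZFSet) F ∧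
      ∀ (a b : Ordinal.{u}) (z : ZFSet.{u}), a < b → b < (succ L).ord →
        ZFSet.pair a.toZFSet z ∈ F → ZFSet.pair b.toZFSet z ∉ F

/-- UNN. One `M` for all parameters. -/
def T_UNN : Prop := ∀ en t L, Stg.{u} en t L → ∀ μ,
  (∀ x, Cdd t L x → ∃ m < L.ord, ¬ SplM en μ (succ L).ord x m) →
    ∃ M : Cardinal.{u}, ℵ₀ ≤ M ∧ M < L ∧
      ∀ x, x ⊆ L.ord.toZFSet → ¬ SplM en μ (succ L).ord x M.ord

/-! ## First case -/

/-- UFM. The least codes. -/
def T_UFM : Prop := ∀ en : Ordinal.{u} → ZFSet.{u}, EN en → ∀ (μ : Ordinal.{u})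
  (L : Cardinal.{u}) (x : ZFSet.{u}), (∀ m < L.ord, SplM en μ (succ L).ord x m) →
    ∃ P, DX P ∧ FmsM μ L P x

/-- FWM. The number of disjoint positive sets. -/
def T_FWM : Prop := ∀ μ β : Ordinal.{u}, ℵ₀ < β.cof → ∀ X : Ordinal.{u} → Set Ordinal.{u},
  (∀ i i' b, b ∈ X i → b ∈ X i' → i = i') → Few (succ β.cof).ord {i | Pos μ β (X i)}

/-- CVM. Covering. -/
def T_CVM : Prop := ∀ L : Cardinal.{u}, SLC ω L → ∀ μ, RflM μ L → ∀ x, Cof L x → ∀ P, DX P →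
  FmsM μ L P x → Cvr L.ord L x

/-- RFM. Extendible cardinals give simultaneous reflection. -/
def T_RFM : Prop := ∀ δ : Ordinal.{u}, Extendible δ → ∀ L : Cardinal.{u}, SLC δ L →
  ∀ M : Cardinal.{u}, M.IsRegular → M.ord < δ → RflM M.ord L

/-- BDX. A good code which is equivalent to `x`. -/
def T_BDX : Prop := ∀ en t L, Stg.{u} en t L → L.ord.cof = ℵ₀ → ∀ x, Bdx L x →
  ∃ x', Cdd t L x' ∧ Cof L x' ∧ NF.ODp x x' ∧ NF.ODp x' x

/-! ## The theorem -/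

/-- The theorem. -/
def T_MAIN3 : Prop :=
  (∀ L : Cardinal.{u}, SLC ω L → ∀ M : Cardinal.{u}, M.IsRegular → M < L → RflM M.ord L →
    (WOP L ∨ ∃ τ T, MsrM (fun y => y ⊆ L.ord.toZFSet) M.ord L τ T) ∧
    (WOP L ↔ ¬ NoInj L) ∧
    ∀ x, Bdx L x → ((∀ z, z ⊆ L.ord.toZFSet → NF.ODp x z) ↔
      ¬ ∃ τ T, MsrM (fun y => y = x) M.ord L τ T)) ∧
  ∀ δ : Ordinal.{u}, Extendible δ → ∀ L : Cardinal.{u}, SLC δ L →
    SLC ω L ∧ (∀ M : Cardinal.{u}, M.IsRegular → M.ord < δ → M < L ∧ RflM M.ord L) ∧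
      (CaseA δ → WOP L)

end HD.SD
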