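import Pool.Agent.H98.SD.EBX
import Pool.Agent.H17.HD.HB

/-!
# SecondDichotomy (MP_e37c09_lc): the atoms for an arbitrary set `x`
-/

open Ordinal Cardinal Order Set
open scoped ZFSet

universe u

namespace HD.SD

/-- TRE. The atoms for an arbitrary set `x`. -/
def T_TRE : Prop := ∀ en : Ordinal.{u} → ZFSet.{u}, EN en → ∀ L : Cardinal.{u}, ℵ₀ < L →
  (∀ c < L, (2 : Cardinal.{u}) ^ c < L) → ∀ K : Cardinal.{u}, K.IsRegular → L < K →
  ∀ μ x, ¬ SplM en μ K.ord x L.ord →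
    ∃ τ < L.ord, ∃ T : Ordinal.{u} → Set Ordinal.{u},
      (∀ i < τ, Pos μ K.ord (T i)) ∧
      (∀ i < τ, ∀ k < τ, ∀ b, b ∈ T i → b ∈ T k → i = k) ∧
      ¬ Pos μ K.ord {b | ∀ i < τ, b ∉ T i} ∧
      (∀ i < τ, NF.ODp x (os K.ord (T i))) ∧ ∀ i < τ, IndK en μ K x (T i)

end HD.SD

namespace Pool.Agent.H98.SD.T

open _root_.HD _root_.HD.SD
open _root_.HD.NF (w0)

/-- the ordinals which are on the same side as `a` of all sets with codes in `A` -/
def Dx (en : Ordinal.{u} → ZFSet.{u}) (p : ZFSet.{u}) (A : Set Ordinal.{u}) (a : Ordinal.{u}) :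
    Set Ordinal.{u} := {b | ∀ y, y ∈ A → (b ∈ Sc en p y ↔ a ∈ Sc en p y)}

/-- the recursion -/
def Ph (en : Ordinal.{u} → ZFSet.{u}) (μ κ Θ : Ordinal.{u}) (p : ZFSet.{u})
    (y : Ordinal.{u}) (A : Set Ordinal.{u}) (w : ℕ → Ordinal.{u}) : Prop :=
  y < Θ ∧ Pos μ κ {b | b ∈ Dx en p A (w 0) ∧ b ∈ Sc en p y} ∧
    Pos μ κ {b | b ∈ Dx en p A (w 0) ∧ b ∉ Sc en p y}

/-- the codes for `a` -/
def Jx (en : Ordinal.{u} → ZFSet.{u}) (μ κ Θ : Ordinal.{u}) (p : ZFSet.{u}) (a : Ordinal.{u}) :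
    Set Ordinal.{u} := {y | recJ (Ph en μ κ Θ p) (fun _ => a) y}

/-- the class of `a` -/
def Cx (en : Ordinal.{u} → ZFSet.{u}) (μ κ Θ : Ordinal.{u}) (p : ZFSet.{u}) (a : Ordinal.{u}) :
    Set Ordinal.{u} := Dx en p (Jx en μ κ Θ p a) a

theorem ph_dx (hDXS : T_DXS.{u}) (hDXP : T_DXP.{u}) {en : Ordinal.{u} → ZFSet.{u}} (hen : EN en)
    (μ κ Θ : Ordinal.{u}) :
    DX fun p w => Ph en μ κ Θ p (w 0) (Sc en p (w 1) ∩ Iio (w 0)) (fun n => w (n + 2)) := by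
  have h0 := (hDXS en hen).1
  have hD : DX fun p w => w 0 ∈ Dx en p (Sc en p (w 2) ∩ Iio (w 1)) (w 3) := by
    refine DX.all (S := fun y p w => y ∈ Sc en p (w 2) ∩ Iio (w 1) →
      (w 0 ∈ Sc en p y ↔ w 3 ∈ Sc en p y)) ?_
    exact (DX.and (h0.ren fun n => if n = 0 then 0 else 3) (DX.o (DO.lt 0 2))).imp
      ((h0.ren fun n => if n = 0 then 1 else 0).iff (h0.ren fun n => if n = 0 then 4 else 0))
  refine DX.and (DX.o (DO.ltc 0 Θ)) (DX.and ?_ ?_)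
  · exact dx_pos hDXP (P := fun p w => w 0 ∈ Dx en p (Sc en p (w 2) ∩ Iio (w 1)) (w 3) ∧
      w 0 ∈ Sc en p (w 1)) (hD.and h0) μ κ
  · exact dx_pos hDXP (P := fun p w => w 0 ∈ Dx en p (Sc en p (w 2) ∩ Iio (w 1)) (w 3) ∧
      w 0 ∉ Sc en p (w 1)) (hD.and h0.not) μ κ

theorem theta' {en : Ordinal.{u} → ZFSet.{u}} (p : ZFSet.{u})
    (hE : ∀ c β : Ordinal.{u}, ∃ c', Sc en p c' = Sc en p c ∩ Iio β) (κ : Ordinal.{u}) :
    ∃ Θ, ∀ c, ∃ c' < Θ, Sc en p c' = Sc en p c ∩ Iio κ := by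
  classical
  let F : Set (Iio κ) → Ordinal.{u} := fun S =>
    if h : ∃ c, Sc en p c = Subtype.val '' S then Classical.choose h else 0
  have hb : BddAbove (Set.range F) := Ordinal.bddAbove_of_small
  refine ⟨succ (⨆ S, F S), fun c => ?_⟩
  have hS : ∃ c', Sc en p c' = Subtype.val '' (Subtype.val ⁻¹' (Sc en p c) : Set (Iio κ)) := by
    obtain ⟨c', hc⟩ := hE c κ
    refine ⟨c', ?_⟩
    rw [hc, Subtype.image_preimage_coe, inter_comm]
  refine ⟨F (Subtype.val ⁻¹' (Sc en p c)), Order.lt_succ_of_le (le_ciSup hb _), ?_⟩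
  have : F (Subtype.val ⁻¹' (Sc en p c)) = Classical.choose hS := dif_pos hS
  rw [this, Classical.choose_spec hS, Subtype.image_preimage_coe, inter_comm]

theorem pf_TRE (hDXS : T_DXS.{u}) (hDXP : T_DXP.{u}) (hDXN : T_DXN.{u}) (hCOM : T_COM.{u})
    (hODY : T_ODY.{u}) (hFEM : T_FEM.{u}) : T_TRE.{u} := by
  intro en hen L hL hlim K hK hLK μ x hns
  have h0 := (hDXS en hen).1
  have hE : ∀ c β : Ordinal.{u}, ∃ c', Sc en x c' = Sc en x c ∩ Iio β := fun c β => by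
    obtain ⟨c', h⟩ := com1 hCOM hen x (P := fun x w => w 0 ∈ Sc en x (w 1)) h0 (fun _ => c) β
    exact ⟨c', h⟩
  obtain ⟨Θ, hΘ⟩ := theta' x hE K.ord
  have hrec := ebx hDXS hCOM hen (Ph en μ K.ord Θ) (ph_dx hDXS hDXP hen μ K.ord Θ)
  have hJdx : DX fun p w => w 0 ∈ Jx en μ K.ord Θ p (w 1) :=
    (hrec.ren fun n => if n = 0 then 0 else 1).congr fun _ _ => Iff.rfl
  have hCdx : DX fun p w => w 0 ∈ Cx en μ K.ord Θ p (w 1) := by
    refine DX.all (S := fun y p w => y ∈ Jx en μ K.ord Θ p (w 1) →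
      (w 0 ∈ Sc en p y ↔ w 1 ∈ Sc en p y)) ?_
    exact (hJdx.ren fun n => if n = 0 then 0 else 2).imp
      ((h0.ren fun n => if n = 0 then 1 else 0).iff (h0.ren fun n => if n = 0 then 2 else 0))
  let J : Ordinal.{u} → Set Ordinal.{u} := fun a => Jx en μ K.ord Θ x a
  let C : Ordinal.{u} → Set Ordinal.{u} := fun a => Cx en μ K.ord Θ x a
  have hJ : ∀ a y, y ∈ J a ↔ Ph en μ K.ord Θ x y {z | z < y ∧ z ∈ J a} (fun _ => a) :=
    fun a y => recJ_iff _ _ y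
  -- `J a` is small
  have hfew : ∀ a, Few L.ord (J a) := by
    intro a
    refine hFEM en hen μ K.ord x L.ord hns
      (fun p w => (∀ y, (y < w 1 ∧ y ∈ Jx en μ K.ord Θ p (w 2)) →
        (w 0 ∈ Sc en p y ↔ w 2 ∈ Sc en p y)) ∧ ¬ (w 0 ∈ Sc en p (w 1) ↔ w 2 ∈ Sc en p (w 1)))
      (fun p w => w 0 ∈ Jx en μ K.ord Θ p (w 1)) ?_ hJdx (fun _ => a) ?_ ?_
    · refine DX.and ?_ (DX.not (h0.iff (h0.ren fun n => if n = 0 then 2 else 1)))
      refine DX.all (S := fun y p w => (y < w 1 ∧ y ∈ Jx en μ K.ord Θ p (w 2)) →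
        (w 0 ∈ Sc en p y ↔ w 2 ∈ Sc en p y)) ?_
      exact (DX.and (DX.o (DO.lt 0 2)) (hJdx.ren fun n => if n = 0 then 0 else 3)).imp
        ((h0.ren fun n => if n = 0 then 1 else 0).iff (h0.ren fun n => if n = 0 then 3 else 0))
    · intro y hy
      obtain ⟨-, h1, h2⟩ := (hJ a y).1 hy
      by_cases ha : a ∈ Sc en x y
      · exact Pos.mono' h2 fun b _ hb => ⟨hb.1, fun h => hb.2 (h.2 ha)⟩
      · exact Pos.mono' h1 fun b _ hb => ⟨hb.1, fun h => ha (h.1 hb.2)⟩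
    · intro y z b hy hz hby hbz
      rcases lt_trichotomy y z with h | h | h
      · exact absurd (hbz.1 y ⟨h, hy⟩) hby.2
      · exact h
      · exact absurd (hby.1 z ⟨h, hz⟩) hbz.2
  -- the classes are not split
  have hat : ∀ a, IndK en μ K x (C a) := by
    intro a c
    by_contra hc
    rw [not_or, not_not, not_not] at hc
    obtain ⟨hc1, hc2⟩ := hc
    obtain ⟨c', hc', hEc⟩ := hΘ c
    have hE' : ∀ b < K.ord, (b ∈ Sc en x c' ↔ b ∈ Sc en x c) := by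
      intro b hb
      rw [hEc]
      exact ⟨fun h => h.1, fun h => ⟨h, hb⟩⟩
    have hsub : ∀ b, b ∈ C a → b ∈ Dx en x {y | y < c' ∧ y ∈ J a} a :=
      fun b hb y hy => hb y hy.2
    have hxJ : c' ∈ J a := by
      rw [hJ]
      refine ⟨hc', Pos.mono' hc1 fun b hb h => ?_, Pos.mono' hc2 fun b hb h => ?_⟩
      · exact ⟨hsub b h.1, (hE' b hb).2 h.2⟩
      · exact ⟨hsub b h.1, fun h' => h.2 ((hE' b hb).1 h')⟩
    by_cases ha : a ∈ Sc en x c'
    · obtain ⟨b, hb, -, hb2, -⟩ := hc2 univ (Pool.Agent.H17.HD.HB.clb_univ hK.1)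
      exact hb2.2 ((hE' b hb).1 ((hb2.1 c' hxJ).2 ha))
    · obtain ⟨b, hb, -, hb2, -⟩ := hc1 univ (Pool.Agent.H17.HD.HB.clb_univ hK.1)
      exact ha ((hb2.1 c' hxJ).1 ((hE' b hb).2 hb2.2))
  -- equal classes
  have same : ∀ a b, (∀ y, (∀ z < y, (z ∈ J a ↔ z ∈ J b)) → y ∈ J a → y ∈ J b →
      (a ∈ Sc en x y ↔ b ∈ Sc en x y)) →
      ∀ y, (y ∈ J a ↔ y ∈ J b) ∧ (y ∈ J a → (a ∈ Sc en x y ↔ b ∈ Sc en x y)) := by
    intro a b H y
    induction y using WellFoundedLT.induction with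
    | ind y ih =>
      have hAB : ∀ z < y, (z ∈ J a ↔ z ∈ J b) := fun z hz => (ih z hz).1
      have hDD : Dx en x {z | z < y ∧ z ∈ J a} a = Dx en x {z | z < y ∧ z ∈ J b} b := by
        ext c
        refine forall_congr' fun z => ?_
        constructor
        · intro h hz
          rw [h ⟨hz.1, (ih z hz.1).1.2 hz.2⟩]
          exact (ih z hz.1).2 ((ih z hz.1).1.2 hz.2)
        · intro h hz
          rw [h ⟨hz.1, (ih z hz.1).1.1 hz.2⟩]
          exact ((ih z hz.1).2 hz.2).symm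
      have hmem : y ∈ J a ↔ y ∈ J b := by
        rw [hJ, hJ]
        unfold Ph
        rw [hDD]
      exact ⟨hmem, fun hy => H y hAB hy (hmem.1 hy)⟩
  have hself : ∀ a, a ∈ C a := fun a y _ => Iff.rfl
  have hCeq : ∀ a b, b ∈ C a → C a = C b := by
    intro a b hb
    have hcls := same a b fun y _ hy _ => (hb y hy).symm
    ext c
    refine forall_congr' fun y => ?_
    obtain ⟨h1, h2⟩ := hcls y
    constructor
    · intro h hy
      rw [h (h1.2 hy)]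
      exact h2 (h1.2 hy)
    · intro h hy
      rw [h (h1.1 hy)]
      exact (h2 hy).symm
  -- the leaders
  let S : ZFSet.{u} → (ℕ → Ordinal.{u}) → Prop := fun p w =>
    Pos μ K.ord {b | b ∈ Cx en μ K.ord Θ p (w 0)} ∧ ∀ b < w 0, b ∉ Cx en μ K.ord Θ p (w 0)
  have hSdx : DX S := by
    refine DX.and ?_ ?_
    · exact dx_pos hDXP (P := fun p w => w 0 ∈ Cx en μ K.ord Θ p (w 1)) hCdx μ K.ord
    · exact DX.allLt (S := fun b p w => b ∉ Cx en μ K.ord Θ p (w 0)) 0 hCdx.not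
  have hSeq : ∀ ξ ξ' b, S x (cns ξ fun _ => 0) → S x (cns ξ' fun _ => 0) → b ∈ C ξ → b ∈ C ξ' →
      ξ = ξ' := by
    intro ξ ξ' b h1 h2 hb hb'
    have e : C ξ = C ξ' := (hCeq ξ b hb).trans (hCeq ξ' b hb').symm
    rcases lt_trichotomy ξ ξ' with h | h | h
    · exact absurd (e ▸ hself ξ : ξ ∈ C ξ') (h2.2 ξ h)
    · exact h
    · exact absurd (e ▸ hself ξ' : ξ' ∈ C ξ) (h1.2 ξ' h)
  have hfewS : Few L.ord {ξ | S x (cns ξ fun _ => 0)} := by
    refine hFEM en hen μ K.ord x L.ord hns (fun p w => w 0 ∈ Cx en μ K.ord Θ p (w 1)) S hCdx hSdx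
      (fun _ => 0) (fun ξ h => h.1) fun ξ ξ' b h1 h2 hb hb' => hSeq ξ ξ' b h1 h2 hb hb'
  obtain ⟨τ₀, hτ₀, e1, e2⟩ := enum hfewS
  refine ⟨τ₀, hτ₀, fun i => {b | ∃ ξ, nth {ξ | S x (cns ξ fun _ => 0)} i ξ ∧ b ∈ C ξ},
    fun i hi => ?_, fun i _ k _ b hb hb' => ?_, fun hp => ?_, fun i _ => ?_, fun i hi c => ?_⟩
  · obtain ⟨ξ, hξ⟩ := e1 i hi
    exact Pos.mono' hξ.1.1 fun b _ hb => ⟨ξ, hξ, hb⟩
  · obtain ⟨ξ, h4, h5⟩ := hb
    obtain ⟨ξ', h6, h7⟩ := hb'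
    obtain rfl := hSeq ξ ξ' b h4.1 h6.1 h5 h7
    exact nth_idx h4 h6
  · -- the classes which are null
    have hp' : Pos μ K.ord {b | ¬ Pos μ K.ord (C b)} := by
      refine Pos.mono' hp fun b _ hb hpos => ?_
      have hne : (C b).Nonempty := ⟨b, hself b⟩
      have hm : sInf (C b) ∈ C b := csInf_mem hne
      have e := hCeq b _ hm
      have hS : S x (cns (sInf (C b)) fun _ => 0) := by
        refine ⟨?_, fun d hd hdC => ?_⟩
        · have : Pos μ K.ord (C (sInf (C b))) := e ▸ hpos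
          exact this
        · have h1 : d ∈ C (sInf (C b)) := hdC
          rw [← e] at h1
          exact absurd (csInf_le' h1) (not_le.2 hd)
      obtain ⟨i, hi, hn⟩ := e2 _ hS
      exact hb i hi ⟨_, hn, e ▸ hself b⟩
    -- the index sets
    have hidx := fun a => Pool.Agent.H17.HD.XK.idx All.vh (hfew a)
    choose τ hτ hi1 hi2 using hidx
    let P : Ordinal.{u} → Set L.ord.ToType := fun b =>
      {i | ∃ y, nth (J b) (ToType.mk.symm i).1 y ∧ b ∈ Sc en x y}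
    have hPb : ∀ b, Bounded (· < ·) (P b) := by
      intro b
      refine ⟨ToType.mk ⟨τ b, hτ b⟩, fun i hi => ?_⟩
      obtain ⟨y, hy, -⟩ := hi
      have h1 := hi2 b _ _ hy
      have h2 : ToType.mk.symm i < (⟨τ b, hτ b⟩ : Iio L.ord) := h1
      have h3 := ToType.mk.lt_iff_lt.2 h2
      rwa [OrderIso.apply_symm_apply] at h3
    have hP : ∀ a b i, i < L.ord → P a = P b →
        ((∃ y, nth (J a) i y ∧ a ∈ Sc en x y) ↔ ∃ y, nth (J b) i y ∧ b ∈ Sc en x y) := by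
      intro a b i hi hab
      have h1 : (ToType.mk ⟨i, hi⟩ ∈ P a) ↔ (ToType.mk ⟨i, hi⟩ ∈ P b) := by rw [hab]
      simpa [P] using h1
    have hsame : ∀ a b, P a = P b → ∀ y, (y ∈ J a ↔ y ∈ J b) ∧
        (y ∈ J a → (a ∈ Sc en x y ↔ b ∈ Sc en x y)) := by
      intro a b hab
      refine same a b fun y hAB hya hyb => ?_
      obtain ⟨i, -, hi⟩ := (All.vh (J a)).1 y hya
      have hib : nth (J b) i y := Pool.Agent.H17.HD.HB.nth_congr hAB hyb hi
      have hiD : i < L.ord := (hi2 a _ _ hi).trans (hτ a)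
      have key := hP a b i hiD hab
      constructor
      · intro h
        obtain ⟨z, hz, hbz⟩ := key.1 ⟨y, hi, h⟩
        rwa [nth_val hib hz]
      · intro h
        obtain ⟨z, hz, haz⟩ := key.2 ⟨y, hib, h⟩
        rwa [nth_val hi hz]
    have hcard : #{s : Set L.ord.ToType // Bounded (· < ·) s} = #L.ord.ToType := by
      refine Cardinal.mk_bounded_subset ?_ ?_
      · rw [Cardinal.mk_ord_toType]
        exact fun c hc => hlim c hc
      · rw [Cardinal.mk_ord_toType, Ordinal.type_toType]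
    obtain ⟨e⟩ := Cardinal.eq.1 hcard
    have hKcof : K.ord.cof = K := hK.cof_ord
    refine All.va μ K.ord (by rw [hKcof]; exact hL.trans hLK) L.ord
      (by rw [hKcof, Cardinal.card_ord]; exact hLK)
      (fun i => {b | ¬ Pos μ K.ord (C b) ∧ (ToType.mk.symm (e ⟨P b, hPb b⟩)).1 = i})
      (fun i _ hpos => ?_) ?_
    · obtain ⟨a, -, -, ha, -⟩ := hpos univ (Pool.Agent.H17.HD.HB.clb_univ hK.1)
      refine ha.1 (Pos.mono' hpos fun b _ hb => ?_)
      have h1 : (ToType.mk.symm (e ⟨P a, hPb a⟩)).1 = (ToType.mk.symm (e ⟨P b, hPb b⟩)).1 :=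
        ha.2.trans hb.2.symm
      have h2 := e.injective (ToType.mk.symm.injective (Subtype.ext h1))
      have h3 : P a = P b := congrArg Subtype.val h2
      exact fun y hy => ((hsame a b h3 y).2 hy).symm
    · exact Pos.mono' hp' fun b _ hb => ⟨_, (ToType.mk.symm (e ⟨P b, hPb b⟩)).2, hb, rfl⟩
  · have hd : DX.{u} fun p w => ∃ ξ, nth {ξ | S p (cns ξ (fun n => w (n + 2)))} (w 1) ξ ∧
        w 0 ∈ Cx en μ K.ord Θ p ξ := by
      refine DX.ex (S := fun ξ p w => nth {ξ | S p (cns ξ (fun n => w (n + 2)))} (w 1) ξ ∧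
        w 0 ∈ Cx en μ K.ord Θ p ξ) (DX.and ?_ ?_)
      · exact dx_nth hDXN hSdx 2 0 (fun n => n + 3)
      · exact hCdx.ren fun n => if n = 0 then 1 else 0
    exact hODY _ hd x K.ord (cns i fun _ => 0)
  · obtain ⟨ξ, hξ⟩ := e1 i hi
    rcases hat ξ c with h | h
    · refine Or.inl fun hp => h (Pos.mono' hp fun b _ hb => ?_)
      obtain ⟨⟨ξ', h4, h5⟩, h6⟩ := hb
      obtain rfl := nth_val hξ h4
      exact ⟨h5, h6⟩
    · refine Or.inr fun hp => h (Pos.mono' hp fun b _ hb => ?_)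
      obtain ⟨⟨ξ', h4, h5⟩, h6⟩ := hb
      obtain rfl := nth_val hξ h4
      exact ⟨h5, h6⟩

end Pool.Agent.H98.SD.T
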