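import Pool.Agent.H98.SD.Suc3
import Pool.Agent.H98.SD.TRE
import Pool.Agent.H59.SD.Merge

/-!
# MP_e37c09_lc, SecondDichotomy: the final statement for arbitrary sets `x`
-/

open Ordinal Cardinal Order Set
open scoped ZFSet

universe u

namespace HD.SD

open HD.NF (w0)
open HD.HV (NMeas)

/-! ## Statement-level definitions -/

/-- All bounded subsets of `L` are definable from ordinals and `x`. -/
def Bds (L : Cardinal.{u}) (x : ZFSet.{u}) : Prop :=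
  ∀ m < L.ord, ∀ z, z ⊆ m.toZFSet → NF.ODp x z

/-- Each countable subset of `L` is contained in a subset of `L` which has fewer than `L` elements
and is definable from ordinals and `x`. -/
def CvX (L : Cardinal.{u}) (x : ZFSet.{u}) : Prop :=
  ∀ y : ℕ → Ordinal.{u}, (∀ n, y n < L.ord) →
    ∃ D, NF.ODp x D ∧ D ⊆ L.ord.toZFSet ∧ (∀ n, (y n).toZFSet ∈ D) ∧
      ∃ τ < L.ord, ∃ g : Ordinal.{u} → Ordinal.{u}, ∀ a : Ordinal.{u}, a.toZFSet ∈ D →
        ∃ i < τ, g i = a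

theorem cvx_of (hFWM : T_FWM.{u}) (hDXP : T_DXP.{u}) (hODY : T_ODY.{u}) {L : Cardinal.{u}}
    {M : Cardinal.{u}} {K : Cardinal.{u}} (hR : RflK M.ord K L)
    {P : ZFSet.{u} → (ℕ → Ordinal.{u}) → Prop} (hP : DX P) {x : ZFSet.{u}} {ξ : Ordinal.{u}}
    (h1 : ∀ a < L.ord, Pos M.ord K.ord (fam P x (fun _ => ξ) a))
    (h2 : ∀ b i i', b ∈ fam P x (fun _ => ξ) i → b ∈ fam P x (fun _ => ξ) i' → i = i') :
    CvX L x := by
  intro y y1
  have hX : ∀ i < w0, Pos M.ord K.ord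
      {b | ∀ n : ℕ, (n : Ordinal.{u}) = i → b ∈ fam P x (fun _ => ξ) (y n)} := by
    intro i hi
    have hi' : i < (ω : Ordinal.{u}) := hi.trans_eq Cardinal.ord_aleph0
    obtain ⟨n, rfl⟩ := Ordinal.lt_omega0.1 hi'
    refine Pos.mono' (h1 _ (y1 n)) fun b _ hb n' hn' => ?_
    have : n' = n := by exact_mod_cast hn'
    rw [this]
    exact hb
  obtain ⟨β, hβ, hβ0, hβL, hpos⟩ := hR _ hX
  have hposn : ∀ n : ℕ, Pos M.ord β (fam P x (fun _ => ξ) (y n)) := fun n => by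
    have hn : (n : Ordinal.{u}) < w0 := (Ordinal.natCast_lt_omega0 n).trans_eq
      Cardinal.ord_aleph0.symm
    exact Pos.mono' (hpos _ hn) fun b _ hb => hb n rfl
  have hd : DX.{u} fun x w => Pos M.ord β {b | P x (cns b (cns (w 0) fun _ => ξ))} := by
    have h3 : DX.{u} fun x w => P x (cns (w 0) (cns (w 1) fun _ => ξ)) := by
      refine (DX.sub (S := fun z x w => P x (cns (w 0) (cns (w 1) fun _ => z))) ξ ?_)
      refine (hP.ren fun n => if n = 0 then 1 else if n = 1 then 2 else 0).congr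
        fun x w => ?_
      have : cns (w (0 + 1)) (cns (w (1 + 1)) fun _ => w 0) =
          fun n => w (if n = 0 then 1 else if n = 1 then 2 else 0) := by
        funext n
        rcases n with _ | _ | n <;> rfl
      rw [← this]
    exact dx_pos hDXP h3 M.ord β
  refine ⟨os L.ord {a | Pos M.ord β (fam P x (fun _ => ξ) a)}, ?_, fun z hz => ?_,
    fun n => ?_, ?_⟩
  · exact hODY _ hd x L.ord (fun _ => ξ)
  · obtain ⟨a, ha, -, rfl⟩ := mem_os.1 hz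
    exact toZFSet_mem_toZFSet_iff.2 ha
  · exact ord_mem_os.2 ⟨y1 n, hposn n⟩
  · obtain ⟨τ, hτ, e, he⟩ := hFWM M.ord β hβ0 (fam P x fun _ => ξ) fun i i' b => h2 b i i'
    refine ⟨τ, hτ.trans_le (Cardinal.ord_le_ord.2 (succ_le_of_lt hβL)), e, fun a ha => ?_⟩
    exact he a (ord_mem_os.1 ha).2

/-- LOC. The dichotomy for an arbitrary set `x`. -/
def T_LOC : Prop := ∀ L : Cardinal.{u}, SLC ω L → ∀ M : Cardinal.{u}, M.IsRegular → M < L →
  ∀ K : Cardinal.{u}, K.IsRegular → L < K → RflK M.ord K L → ∀ x,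
    (CvX L x ∨ ∃ τ T, MsrK (fun y => y = x) M.ord K L τ T) ∧
    (Bds L x → (∀ z, z ⊆ L.ord.toZFSet → NF.ODp x z) ∨
      ∃ τ T, MsrK (fun y => y = x) M.ord K L τ T)

theorem loc (r : R5.{u}) (r' : RK.{u}) (hTRE : T_TRE.{u}) (hDXS : T_DXS.{u}) (hFWM : T_FWM.{u})
    (hDXP : T_DXP.{u}) (hODY : T_ODY.{u}) : T_LOC.{u} := by
  intro L h M hMr hML K hK hLK hR x
  obtain ⟨en, hen⟩ := All.en.{u}
  obtain ⟨t, p1, p2, p3⟩ := All.pr.{u}
  have ht : PF t := ⟨p1, p2, p3⟩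
  have hL := slc_unc h
  by_cases hs : SplM en M.ord K.ord x L.ord
  · obtain ⟨c, h1, h2⟩ := id hs
    have h0 : DX.{u} fun x w => w 0 ∈ Sc2 en x (w 2) (w 1) :=
      (hDXS en hen).2.ren fun n => if n = 0 then 0 else if n = 1 then 2 else 1
    refine ⟨Or.inl (cvx_of hFWM hDXP hODY hR h0 (ξ := c) h1 h2), fun hx => Or.inl ?_⟩
    have hB : Bde L x := ⟨hx, sgg hFWM hDXP hODY h hR h0 (ξ := c) h1 h2⟩
    obtain ⟨⟨D, hD⟩, hc⟩ := r.BDE en t L (stg hen ht h) h.cof x hB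
    obtain ⟨P', hP', hF⟩ := r'.UFK en hen M.ord K L x fun m hm => hs.mono hm.le
    exact r.CLE en t L (stg hen ht h) h.cof D x hD (r'.CVK L h K M.ord hR x hc P' hP' hF)
  · obtain ⟨τ, hτ, T, t1, t2, t3, t4, t5⟩ := hTRE en hen L hL h.lim K hK hLK M.ord x hs
    have hm := msrK_of_ind r' hen hK hL hLK (fun y => y = x) (gp_eq x) (x₀ := x) rfl hτ t1 t2 t3
      t4 fun y hy i hi => by
        have hy' : y = x := hy
        rw [hy']
        exact t5 i hi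
    exact ⟨Or.inr hm, fun _ => Or.inr hm⟩

/-- The theorem. -/
def T_FIN3 : Prop :=
  (∀ L : Cardinal.{u}, SLC ω L → ∀ M : Cardinal.{u}, M.IsRegular → M < L →
    ∀ K : Cardinal.{u}, K.IsRegular → L < K → RflK M.ord K L →
      (WOP L ∨ ∃ τ T, MsrK (fun y => y ⊆ L.ord.toZFSet) M.ord K L τ T) ∧
      ∀ x, (CvX L x ∨ ∃ τ T, MsrK (fun y => y = x) M.ord K L τ T) ∧
        (Bds L x → (∀ z, z ⊆ L.ord.toZFSet → NF.ODp x z) ∨
          ∃ τ T, MsrK (fun y => y = x) M.ord K L τ T)) ∧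
  (∀ L : Cardinal.{u}, SLC ω L → ∀ M : Cardinal.{u}, M.IsRegular → M < L →
    RflK M.ord (succ L) L →
      (WOP L ↔ ¬ ∃ U, CM (NC fun y => y ⊆ L.ord.toZFSet) (succ L).ord U) ∧
      (WOP L ↔ ¬ NoInj L) ∧
      ∀ x, Bds L x →
        ((∀ z, z ⊆ L.ord.toZFSet → NF.ODp x z) ↔ SuX L x) ∧
        ((∀ z, z ⊆ L.ord.toZFSet → NF.ODp x z) ↔
          ¬ ∃ U, CM (NC fun y => y = x) (succ L).ord U)) ∧
  ∀ δ : Ordinal.{u}, Extendible δ → ∀ L : Cardinal.{u}, SLC δ L →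
    SLC ω L ∧
    (∀ M : Cardinal.{u}, M.IsRegular → M.ord < δ → M < L ∧
      ∀ K : Cardinal.{u}, K.IsRegular → L < K → RflK M.ord K L) ∧
    (WOP L ↔ ¬ ∀ K : Cardinal.{u}, K.IsRegular → L < K →
      ∃ U, NMeas (NC fun y => y ⊆ L.ord.toZFSet) K.ord U) ∧
    (∀ x, Bds L x →
      ((∀ z, z ⊆ L.ord.toZFSet → NF.ODp x z) ↔ ∃ G, L ≤ G ∧ SuX G x) ∧
      ((∀ z, z ⊆ L.ord.toZFSet → NF.ODp x z) ↔
        ¬ ∀ K : Cardinal.{u}, K.IsRegular → L < K → ∃ U, NMeas (NC fun y => y = x) K.ord U)) ∧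
    (CaseA δ → WOP L ∧ ∀ x, Bds L x → ∀ z, z ⊆ L.ord.toZFSet → NF.ODp x z)

theorem fin3 (h : T_FIN.{u}) (hLOC : T_LOC.{u}) (hSUC : T_SUC.{u}) (hSU3 : T_SU3.{u})
    (hNMX : T_NMX.{u}) : T_FIN3.{u} := by
  obtain ⟨a1, a2, a3⟩ := h
  have b2 : ∀ L : Cardinal.{u}, SLC ω L → ∀ M : Cardinal.{u}, M.IsRegular → M < L →
      RflK M.ord (succ L) L → ∀ x, Bds L x →
        ((∀ z, z ⊆ L.ord.toZFSet → NF.ODp x z) ↔
          ¬ ∃ U, CM (NC fun y => y = x) (succ L).ord U) := by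
    intro L h M hMr hML hR x hx
    have hL := slc_unc h
    have hS : (succ L).IsRegular := Cardinal.isRegular_succ hL.le
    constructor
    · intro hz
      refine hNMX L hL _ x rfl (fun y hy => ?_) hz
      have hy' : y = x := hy
      rw [hy']
      exact Pool.Agent.H45.NF.ODp.of_dz (Q := fun v => v 0 = v 1) (DZ.eq 0 1) fun _ => Iff.rfl
    · intro hn
      refine ((hLOC L h M hMr hML (succ L) hS (lt_succ L) hR x).2 hx).resolve_right fun hm => ?_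
      obtain ⟨U, hU⟩ := nmeas_of_msrK hMr hML hS (lt_succ L) hm
      exact hn ⟨U, cm_of_nmeas hU⟩
  refine ⟨fun L h M hMr hML K hK hLK hR => ⟨(a1 L h M hMr hML K hK hLK hR).1, fun x =>
    hLOC L h M hMr hML K hK hLK hR x⟩, fun L h M hMr hML hR => ?_, fun δ hδ L h => ?_⟩
  · obtain ⟨c1, c2, -⟩ := a2 L h M hMr hML hR
    exact ⟨c1, c2, fun x hx => ⟨hSUC L h M hMr hML hR x hx, b2 L h M hMr hML hR x hx⟩⟩
  · obtain ⟨e1, e2, e3, -, e5⟩ := a3 δ hδ L h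
    have hω : (ℵ₀ : Cardinal.{u}).ord < δ := by
      obtain ⟨η, -, θ, j, hE⟩ := All.xa δ hδ 0
      obtain ⟨D, hD, -, -, hD0⟩ := All.xb δ η θ j hE
      rw [hD, Cardinal.ord_lt_ord]
      exact hD0
    obtain ⟨hωL, hR⟩ := e2 ℵ₀ Cardinal.isRegular_aleph0 hω
    have hS : (succ L).IsRegular := Cardinal.isRegular_succ hωL.le
    refine ⟨e1, e2, e3, fun x hx => ⟨hSU3 δ hδ L h x hx, fun hz hK => ?_, fun hn => ?_⟩, e5⟩
    · obtain ⟨U, hU⟩ := hK (succ L) hS (lt_succ L)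
      exact ((b2 L e1 ℵ₀ Cardinal.isRegular_aleph0 hωL (hR (succ L) hS (lt_succ L)) x hx).1 hz)
        ⟨U, cm_of_nmeas hU⟩
    · by_contra hz
      refine hn fun K hKr hLK => ?_
      exact nmeas_of_msrK Cardinal.isRegular_aleph0 hωL hKr hLK
        (((hLOC L e1 ℵ₀ Cardinal.isRegular_aleph0 hωL K hKr hLK (hR K hKr hLK) x).2
          hx).resolve_left hz)

end HD.SD
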