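import Pool.Agent.H98.SD.TargetsM

/-!
# MP_e37c09_lc: subsets of a strong limit cardinal of cofinality ω. Targets of the local form for
an arbitrary set as parameter
-/

open Ordinal Cardinal Order Set
open scoped ZFSet

universe u v

namespace HD.SD

open HD.NF (w0)
open HD.HV (NMeas)

/-! ## Statement-level definition -/

/-- All bounded subsets of `L` are in HOD with the parameter `x`, and `L` is singular in this
model. Here `x` is an arbitrary set. -/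
structure Bde (L : Cardinal.{u}) (x : ZFSet.{u}) : Prop where
  bd : ∀ m < L.ord, ∀ z, z ⊆ m.toZFSet → NF.ODp x z
  sg : ∃ D, NF.ODp x D ∧ D ⊆ L.ord.toZFSet ∧
    (∀ m < L.ord, ∃ a : Ordinal.{u}, m < a ∧ a.toZFSet ∈ D) ∧
    ∃ τ < L.ord, ∃ g : Ordinal.{u} → Ordinal.{u}, ∀ a : Ordinal.{u}, a.toZFSet ∈ D →
      ∃ i < τ, g i = a

/-! ## Auxiliary definition -/

/-- `D x` is a definable enumeration in which each bounded subset of `L` is listed. -/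
structure Cde (D : ZFSet.{u} → Ordinal.{u} → Set Ordinal.{u}) (L : Cardinal.{u}) (x : ZFSet.{u}) :
    Prop where
  dx : DX fun x w => w 0 ∈ D x (w 1)
  all : ∀ m < L.ord, ∀ s : Set Ordinal.{u}, ∃ ξ < L.ord, ∀ a < m, (a ∈ D x ξ ↔ a ∈ s)

/-! ## Targets -/

/-- TYE. The positive types of a short sequence. -/
def T_TYE : Prop := ∀ en t L, Stg.{u} en t L → ∀ D x, Cde D L x → ∀ M : Cardinal.{u}, ℵ₀ ≤ M →
  M < L → ∀ μ, ¬ SplM en μ (succ L).ord x M.ord → ∀ P, DX P → ∀ w : ℕ → Ordinal.{u},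
    ∀ τ < L.ord, ∃ S, DX S ∧ ∃ w' : ℕ → Ordinal.{u}, Few M.ord {ξ | S x (cns ξ w')} ∧
      (∀ ξ, S x (cns ξ w') → ξ < L.ord ∧ Pos μ (succ L).ord (pc (fam P x w) τ (D x ξ))) ∧
      (∀ ξ ξ' b, S x (cns ξ w') → S x (cns ξ' w') → b ∈ pc (fam P x w) τ (D x ξ) →
        b ∈ pc (fam P x w) τ (D x ξ') → ξ = ξ') ∧
      ¬ Pos μ (succ L).ord {b | ∀ ξ, S x (cns ξ w') → b ∉ pc (fam P x w) τ (D x ξ)}

/-- CNE. The number of the classes for one parameter. -/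
def T_CNE : Prop := ∀ en t L, Stg.{u} en t L → ∀ D x, Cde D L x → ∀ M : Cardinal.{u}, ℵ₀ ≤ M →
  M < L → ∀ μ, ¬ SplM en μ (succ L).ord x M.ord →
    Few (succ ((2 : Cardinal.{u}) ^ M)).ord
      {c | ∀ c' < c, ¬ EqvM μ (succ L).ord (Sc en x c) (Sc en x c')}

/-- ATE. The atoms. -/
def T_ATE : Prop := ∀ en t L, Stg.{u} en t L → ∀ M : Cardinal.{u}, ℵ₀ ≤ M → M < L →
  ∀ μ D x, Cde D L x → ¬ SplM en μ (succ L).ord x M.ord →
    ∃ τ < L.ord, ∃ T : Ordinal.{u} → Set Ordinal.{u},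
      (∀ i < τ, Pos μ (succ L).ord (T i)) ∧
      (∀ i < τ, ∀ k < τ, ∀ b, b ∈ T i → b ∈ T k → i = k) ∧
      ¬ Pos μ (succ L).ord {b | ∀ i < τ, b ∉ T i} ∧
      (∀ i < τ, NF.ODp x (os (succ L).ord (T i))) ∧ ∀ i < τ, IndM en μ L x (T i)

/-- CLE. Conclusion of the first case. -/
def T_CLE : Prop := ∀ en t L, Stg.{u} en t L → L.ord.cof = ℵ₀ → ∀ D x, Cde D L x →
  Cvr L.ord L x → ∀ z, z ⊆ L.ord.toZFSet → NF.ODp x z

/-- BDE. An enumeration, and a countable cofinal subset. -/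
def T_BDE : Prop := ∀ en t L, Stg.{u} en t L → L.ord.cof = ℵ₀ → ∀ x, Bde L x →
  (∃ D, Cde D L x) ∧ Cof L x

/-- WIE. In the first case there is an injection which is definable from the same parameter. -/
def T_WIE : Prop := ∀ L : Cardinal.{u}, ℵ₀ < L → ∀ x,
  (∀ z, z ⊆ L.ord.toZFSet → NF.ODp x z) → ∃ F, NF.ODp x F ∧
    ZFSet.IsFunc (succ L).ord.toZFSet (ZFSet.powerset L.ord.toZFSet) F ∧
      ∀ (a b : Ordinal.{u}) (z : ZFSet.{u}), a < b → b < (succ L).ord →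
        ZFSet.pair a.toZFSet z ∈ F → ZFSet.pair b.toZFSet z ∉ F

/-- The theorem. -/
def T_MAIN5 : Prop :=
  (∀ L : Cardinal.{u}, SLC ω L → ∀ M : Cardinal.{u}, M.IsRegular → M < L → RflM M.ord L →
    (WOP L ↔ ¬ ∃ τ T, MsrM (fun y => y ⊆ L.ord.toZFSet) M.ord L τ T) ∧
    (WOP L ↔ ¬ NoInj L) ∧
    ∀ x, Bde L x → ((∀ z, z ⊆ L.ord.toZFSet → NF.ODp x z) ↔
      ¬ ∃ τ T, MsrM (fun y => y = x) M.ord L τ T)) ∧
  ∀ δ : Ordinal.{u}, Extendible δ → ∀ L : Cardinal.{u}, SLC δ L →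
    SLC ω L ∧ (∀ M : Cardinal.{u}, M.IsRegular → M.ord < δ → M < L ∧ RflM M.ord L) ∧
      (CaseA δ → WOP L ∧ ∀ x, (∀ m < L.ord, ∀ z, z ⊆ m.toZFSet → NF.ODp x z) →
        ∀ z, z ⊆ L.ord.toZFSet → NF.ODp x z)

end HD.SD
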