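import Pool.Agent.H98.SD.Lib
import Pool.Agent.H98.SD.TargetsE

/-!
# Row TYE of SecondDichotomy (MP_e37c09_lc): the positive types of a short sequence
-/

open Ordinal Cardinal Order Set
open scoped ZFSet

universe u

namespace Pool.Agent.H98.SD.E

open _root_.HD _root_.HD.SD
open _root_.HD.NF (w0)

theorem union_nullM {L : Cardinal.{u}} (h : ℵ₀ < L) {μ τ : Ordinal.{u}} (hτ : τ ≤ L.ord)
    (X : Ordinal.{u} → Set Ordinal.{u}) (hX : ∀ i < τ, ¬ Pos μ (succ L).ord (X i)) :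
    ¬ Pos μ (succ L).ord {b | ∃ i < τ, b ∈ X i} := by
  refine All.va μ _ (cof_succ_lt h) τ ?_ X hX
  rw [cof_succ h]
  have h1 : τ.card ≤ L := by
    have := Ordinal.card_le_card hτ
    rwa [Cardinal.card_ord] at this
  exact h1.trans_lt (lt_succ L)

theorem not_pos_empty {μ κ : Ordinal.{u}} (h : ℵ₀ < κ.cof) : ¬ Pos μ κ (∅ : Set Ordinal.{u}) := by
  have h1 := All.va μ κ h 0 (by rw [Ordinal.card_zero]; exact Cardinal.aleph0_pos.trans h)
    (fun _ => ∅) (fun i hi => absurd hi not_lt_zero)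
  intro hp
  exact h1 (Pos.mono' hp fun b _ hb => absurd hb (Set.notMem_empty b))

theorem pf_TYE (hDXP : T_DXP.{u}) (hFEM : T_FEM.{u}) : T_TYE.{u} := by
  intro en t L hSt D x hx M hM hML μ hns P hP w τ hτ
  set κ : Ordinal.{u} := (succ L).ord with hκ
  have hd := hx.dx
  -- the pieces
  have dpc : DX.{u} fun x w => w 0 ∈ pc (fam P x (fun n => w (n + 2))) τ (D x (w 1)) := by
    refine DX.allLtc (S := fun i x w => (P x (cns (w 0) (cns i (fun n => w (n + 2)))) ↔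
      i ∈ D x (w 1))) τ (DX.iff ?_ ?_)
    · refine (hP.ren fun n => if n = 0 then 1 else if n = 1 then 0 else n + 1).congr
        fun x w => ?_
      have : cns (w 1) (cns (w 0) fun n => w (n + 2 + 1)) =
          fun n => w (if n = 0 then 1 else if n = 1 then 0 else n + 1) := by
        funext n
        rcases n with _ | _ | n <;> rfl
      rw [← this]
    · exact hd.ren fun n => if n = 0 then 0 else 2
  let S : ZFSet.{u} → (ℕ → Ordinal.{u}) → Prop := fun x w => w 0 < L.ord ∧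
    Pos μ κ (pc (fam P x (fun n => w (n + 1))) τ (D x (w 0))) ∧
    ∀ ξ' < w 0, ¬ ∀ a < τ, (a ∈ D x ξ' ↔ a ∈ D x (w 0))
  have dS : DX S := by
    refine (DX.o (DO.ltc 0 L.ord)).and (DX.and ?_ ?_)
    · exact dx_pos hDXP dpc μ κ
    · refine DX.allLt (S := fun ξ' x w => ¬ ∀ a < τ, (a ∈ D x ξ' ↔ a ∈ D x (w 0))) 0
        (DX.not ?_)
      refine DX.allLtc (S := fun a x w => (a ∈ D x (w 0) ↔ a ∈ D x (w 1))) τ ?_
      exact hd.iff (hd.ren fun n => if n = 0 then 0 else 2)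
  have hdis : ∀ ξ ξ' b, S x (cns ξ w) → S x (cns ξ' w) → b ∈ pc (fam P x w) τ (D x ξ) →
      b ∈ pc (fam P x w) τ (D x ξ') → ξ = ξ' := by
    have key : ∀ ξ ξ' b, S x (cns ξ' w) → b ∈ pc (fam P x w) τ (D x ξ) →
        b ∈ pc (fam P x w) τ (D x ξ') → ¬ ξ < ξ' := fun ξ ξ' b hs h1 h2 hlt =>
      hs.2.2 ξ hlt fun a ha => (h1 a ha).symm.trans (h2 a ha)
    intro ξ ξ' b hs hs' h1 h2
    rcases lt_trichotomy ξ ξ' with h | h | h
    · exact absurd h (key ξ ξ' b hs' h1 h2)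
    · exact h
    · exact absurd h (key ξ' ξ b hs h2 h1)
  have hfew : Few M.ord {ξ | S x (cns ξ w)} :=
    hFEM en hSt.hen μ κ x M.ord hns _ S dpc dS w (fun ξ hs => hs.2.1) hdis
  refine ⟨S, dS, w, hfew, fun ξ hs => ⟨hs.1, hs.2.1⟩, hdis, fun hp => ?_⟩
  -- the null types
  let X : Ordinal.{u} → Set Ordinal.{u} := fun ξ =>
    {b | b ∈ pc (fam P x w) τ (D x ξ) ∧ ¬ Pos μ κ (pc (fam P x w) τ (D x ξ))}
  have hX : ∀ ξ < L.ord, ¬ Pos μ κ (X ξ) := by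
    intro ξ _ hpx
    by_cases hq : Pos μ κ (pc (fam P x w) τ (D x ξ))
    · exact not_pos_empty (cof_succ_lt hSt.unc) (Pos.mono' hpx fun b _ hb => absurd hq hb.2)
    · exact hq (Pos.mono' hpx fun b _ hb => hb.1)
  refine union_nullM hSt.unc le_rfl X hX (Pos.mono' hp fun b _ hb => ?_)
  have hne : ({ξ | ∀ a < τ, (b ∈ fam P x w a ↔ a ∈ D x ξ)} : Set Ordinal.{u}).Nonempty := by
    obtain ⟨ξ, -, hξ⟩ := hx.all τ hτ {a | b ∈ fam P x w a}
    exact ⟨ξ, fun a ha => (hξ a ha).symm⟩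
  set ξ₀ := sInf {ξ | ∀ a < τ, (b ∈ fam P x w a ↔ a ∈ D x ξ)} with hξ₀
  have h0 : ∀ a < τ, (b ∈ fam P x w a ↔ a ∈ D x ξ₀) := csInf_mem hne
  have hL : ξ₀ < L.ord := by
    obtain ⟨ξ, h1, hξ⟩ := hx.all τ hτ {a | b ∈ fam P x w a}
    exact lt_of_le_of_lt (csInf_le' (s := {ξ | ∀ a < τ, (b ∈ fam P x w a ↔ a ∈ D x ξ)})
      fun a ha => (hξ a ha).symm) h1
  refine ⟨ξ₀, hL, h0, fun hq => hb ξ₀ ⟨hL, hq, fun ξ' hξ' hh => ?_⟩ h0⟩
  exact absurd (csInf_le' (s := {ξ | ∀ a < τ, (b ∈ fam P x w a ↔ a ∈ D x ξ)})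
    (fun a ha => (h0 a ha).trans (hh a ha).symm)) (not_le.2 hξ')

end Pool.Agent.H98.SD.E
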