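import Pool.Agent.H98.SD.Lib
import Pool.Agent.H98.SD.TargetsK

/-!
# Row ATK of SecondDichotomy (MP_e37c09_lc): the atoms, general form
-/

open Ordinal Cardinal Order Set
open scoped ZFSet

universe u

namespace Pool.Agent.H98.SD.K

open _root_.HD _root_.HD.SD
open _root_.HD.NF (w0)

/-- `c` is the least code of its class. -/
def JM (en : Ordinal.{u} → ZFSet.{u}) (μ κ : Ordinal.{u}) (x : ZFSet.{u}) (c : Ordinal.{u}) :
    Prop := ∀ c' < c, ¬ EqvM μ κ (Sc en x c) (Sc en x c')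

/-- `b` is in the `i`-th class. -/
def PdM (en : Ordinal.{u} → ZFSet.{u}) (μ κ : Ordinal.{u}) (x : ZFSet.{u}) (b i : Ordinal.{u}) :
    Prop := ∃ c, nth {c | JM en μ κ x c} i c ∧ b ∈ Sc en x c

theorem dx_JM (hDXS : T_DXS.{u}) (hDXP : T_DXP.{u}) {en : Ordinal.{u} → ZFSet.{u}} (hen : EN en)
    (μ κ : Ordinal.{u}) : DX fun x w => JM en μ κ x (w 0) := by
  have h0 := (hDXS en hen).1
  refine (DX.allLt (S := fun c' x w => Pos μ κ {b | ¬ (b ∈ Sc en x (w 0) ↔ b ∈ Sc en x c')})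
    0 ?_).congr fun x w => ?_
  · have h1 : DX.{u} fun x w => ¬ (w 0 ∈ Sc en x (w 2) ↔ w 0 ∈ Sc en x (w 1)) :=
      ((h0.ren fun n => if n = 0 then 0 else 2).iff h0).not
    exact dx_pos hDXP h1 μ κ
  · exact forall₂_congr fun c' _ => Classical.not_not

theorem dx_PdM (hDXS : T_DXS.{u}) (hDXP : T_DXP.{u}) (hDXN : T_DXN.{u})
    {en : Ordinal.{u} → ZFSet.{u}} (hen : EN en) (μ κ : Ordinal.{u}) :
    DX fun x w => PdM en μ κ x (w 0) (w 1) := by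
  have h0 := (hDXS en hen).1
  refine DX.ex (S := fun c x w => nth {c | JM en μ κ x c} (w 1) c ∧ w 0 ∈ Sc en x c)
    (DX.and ?_ ?_)
  · exact dx_nth hDXN (dx_JM hDXS hDXP hen μ κ) 2 0 (fun n => n)
  · exact h0.ren fun n => if n = 0 then 1 else 0

theorem pf_ATK (hDXS : T_DXS.{u}) (hDXP : T_DXP.{u}) (hDXN : T_DXN.{u}) 
    (hODY : T_ODY.{u}) (hEQV : T_EQM.{u}) (hTYP : T_TYK.{u}) (hCNT : T_CNK.{u}) :
    T_ATK.{u} := by
  intro en t L hSt K hK hLK M hM hML μ D x hx hns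
  set κ : Ordinal.{u} := K.ord with hκ
  have hcf : ℵ₀ < K.ord.cof := by rw [hK.cof_ord]; exact hSt.unc.trans hLK
  set ν : Ordinal.{u} := (succ ((2 : Cardinal.{u}) ^ M)).ord with hν
  have hνL : ν < L.ord := pow_lt hSt.lim hML
  have hJ : Few ν {c | JM en μ κ x c} := hCNT en t L hSt K hK hLK D x hx M hM hML μ hns
  have dPd := dx_PdM hDXS hDXP hDXN hSt.hen μ κ
  obtain ⟨S, hS, w', hfew, h1, h2, h3⟩ := hTYP en t L hSt K hK hLK D x hx M hM hML μ hns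
    (fun x w => PdM en μ κ x (w 0) (w 1)) dPd (fun _ => 0) ν hνL
  have hfam : (fam (fun x w => PdM en μ κ x (w 0) (w 1)) x (fun _ => 0)) =
      fun i => {b | PdM en μ κ x b i} := rfl
  rw [hfam] at h1 h2 h3
  obtain ⟨τ, hτ, e1, e2⟩ := enum hfew
  refine ⟨τ, hτ.trans (Cardinal.ord_lt_ord.2 hML), fun i => {b | ∃ ξ,
    nth {ξ | S x (cns ξ w')} i ξ ∧ b ∈ pc (fun i => {b | PdM en μ κ x b i}) ν (D x ξ)},
    fun i hi => ?_, fun i _ k _ b hb hb' => ?_, fun hp => ?_, fun i _ => ?_, fun y hall i _ => ?_⟩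
  · obtain ⟨ξ, hξ⟩ := e1 i hi
    exact Pos.mono' (h1 ξ hξ.1).2 fun b _ hb => ⟨ξ, hξ, hb⟩
  · obtain ⟨ξ, h4, h5⟩ := hb
    obtain ⟨ξ', h6, h7⟩ := hb'
    obtain rfl := h2 ξ ξ' b h4.1 h6.1 h5 h7
    exact nth_idx h4 h6
  · refine h3 (Pos.mono' hp fun b _ hb ξ hξ hb' => ?_)
    obtain ⟨i, hi, h4⟩ := e2 ξ hξ
    exact hb i hi ⟨ξ, h4, hb'⟩
  · have hd : DX.{u} fun x w => ∃ ξ, nth {ξ | S x (cns ξ (fun n => w (n + 2)))} (w 1) ξ ∧
        ∀ k < ν, (PdM en μ κ x (w 0) k ↔ k ∈ D x ξ) := by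
      refine DX.ex (S := fun ξ x w => nth {ξ | S x (cns ξ (fun n => w (n + 2)))} (w 1) ξ ∧
        ∀ k < ν, (PdM en μ κ x (w 0) k ↔ k ∈ D x ξ)) (DX.and ?_ ?_)
      · exact dx_nth hDXN hS 2 0 (fun n => n + 3)
      · refine DX.allLtc (S := fun k x w => (PdM en μ κ x (w 1) k ↔ k ∈ D x (w 0))) ν ?_
        exact (dPd.ren fun n => if n = 0 then 2 else 0).iff hx.dx
    exact hODY _ hd x κ (cns i w')
  · intro c
    obtain ⟨c', hc'⟩ := hall c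
    obtain ⟨q1, q2, q3, -⟩ := hEQV μ κ hcf
    -- the least code
    have hne : ({c'' | EqvM μ κ (Sc en x c'') (Sc en x c')} : Set Ordinal.{u}).Nonempty :=
      ⟨c', q1 _⟩
    set c₀ := sInf {c'' | EqvM μ κ (Sc en x c'') (Sc en x c')} with hc₀
    have hm : EqvM μ κ (Sc en x c₀) (Sc en x c') := csInf_mem hne
    have hJ₀ : JM en μ κ x c₀ := fun d hd he =>
      absurd (csInf_le' (s := {c'' | EqvM μ κ (Sc en x c'') (Sc en x c')})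
        (q3 _ _ _ (q2 _ _ he) hm)) (not_le.2 hd)
    have hy0 : EqvM μ κ (Sc en y c) (Sc en x c₀) := q3 _ _ _ hc' (q2 _ _ hm)
    obtain ⟨τ', hτ', f1, f2⟩ := enum hJ
    obtain ⟨i0, hi0, hi1⟩ := f2 c₀ hJ₀
    have hi0ν : i0 < ν := hi0.trans hτ'
    by_cases hT : ∃ ξ, nth {ξ | S x (cns ξ w')} i ξ ∧ i0 ∈ D x ξ
    · obtain ⟨ξ, hξ1, hξ2⟩ := hT
      refine Or.inr fun hp => hy0 (Pos.mono' hp fun b _ hb hb' => ?_)
      obtain ⟨⟨ξ', h4, h5⟩, h6⟩ := hb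
      obtain rfl := nth_val hξ1 h4
      obtain ⟨c1, h7, h8⟩ := (h5 i0 hi0ν).2 hξ2
      obtain rfl := nth_val hi1 h7
      exact h6 (hb'.2 h8)
    · refine Or.inl fun hp => hy0 (Pos.mono' hp fun b _ hb hb' => ?_)
      obtain ⟨⟨ξ', h4, h5⟩, h6⟩ := hb
      exact hT ⟨ξ', h4, (h5 i0 hi0ν).1 ⟨c₀, hi1, hb'.1 h6⟩⟩

end Pool.Agent.H98.SD.K
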