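import Pool.Agent.H98.SD.TargetsK

/-!
# MP_e37c09_lc: subsets of a strong limit cardinal of cofinality ω. If the successor of `L` is
correct then `L` is singular
-/

open Ordinal Cardinal Order Set
open scoped ZFSet

universe u v

namespace HD.SD

open HD.NF (w0)

/-- ULX. The matrix of Ulam with the parameter `x`. -/
def T_ULX : Prop := ∀ en : Ordinal.{u} → ZFSet.{u}, EN en → ∀ L : Cardinal.{u}, ℵ₀ < L →
  ∀ M : Cardinal.{u}, M.IsRegular → M < L → ∀ x, SuX L x → ∃ P, DX P ∧ ∃ ξ : Ordinal.{u},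
    (∀ a < L.ord, Pos M.ord (succ L).ord (fam P x (fun _ => ξ) a)) ∧
    ∀ b i i', b ∈ fam P x (fun _ => ξ) i → b ∈ fam P x (fun _ => ξ) i' → i = i'

/-- SGX. `L` is singular. -/
def T_SGX : Prop := ∀ L : Cardinal.{u}, SLC ω L → ∀ M : Cardinal.{u}, M.IsRegular → M < L →
  RflK M.ord (succ L) L → ∀ x, SuX L x →
    ∃ D, NF.ODp x D ∧ D ⊆ L.ord.toZFSet ∧
      (∀ m < L.ord, ∃ a : Ordinal.{u}, m < a ∧ a.toZFSet ∈ D) ∧
      ∃ τ < L.ord, ∃ g : Ordinal.{u} → Ordinal.{u}, ∀ a : Ordinal.{u}, a.toZFSet ∈ D →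
        ∃ i < τ, g i = a

end HD.SD
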