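import Pool.Agent.H98.SD.Asm3
import Pool.Agent.H98.SD.TargetsU
import Pool.Agent.H45.CF.FO

/-!
# Row SGX of SecondDichotomy (MP_e37c09_lc): if the successor of `L` is correct then `L` is singular
-/

open Ordinal Cardinal Order Set
open scoped ZFSet

universe u

namespace Pool.Agent.H98.SD.U

open _root_.HD _root_.HD.SD
open _root_.HD.NF (w0)

theorem pf_SGX (hULX : T_ULX.{u}) (hFWM : T_FWM.{u}) (hDXP : T_DXP.{u}) (hODY : T_ODY.{u}) :
    T_SGX.{u} := by
  intro L h M hMr hML hR x hs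
  obtain ⟨en, hen⟩ := All.en.{u}
  have hL := slc_unc h
  obtain ⟨P, hP, ξ, h1, h2⟩ := hULX en hen L hL M hMr hML x hs
  obtain ⟨y, y1, y2⟩ := Pool.Agent.H45.CF.cof_seq h.cof
  -- the members with index in the range of `y` reflect
  have hX : ∀ i < w0, Pos M.ord (succ L).ord
      {b | ∀ n : ℕ, (n : Ordinal.{u}) = i → b ∈ fam P x (fun _ => ξ) (y n)} := by
    intro i hi
    have hi' : i < (ω : Ordinal.{u}) := hi.trans_eq Cardinal.ord_aleph0
    obtain ⟨n, rfl⟩ := Ordinal.lt_omega0.1 hi'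
    refine Pos.mono' (h1 _ (y1 n)) fun b _ hb n' hn' => ?_
    have : n' = n := by exact_mod_cast hn'
    rw [this]
    exact hb
  obtain ⟨β, hβ, hβ0, hβL, hpos⟩ := hR _ hX
  have hposn : ∀ n : ℕ, Pos M.ord β (fam P x (fun _ => ξ) (y n)) := fun n => by
    have hn : (n : Ordinal.{u}) < w0 := (Ordinal.natCast_lt_omega0 n).trans_eq
      Cardinal.ord_aleph0.symm
    exact Pos.mono' (hpos _ hn) fun b _ hb => hb n rfl
  -- the set
  have hd : DX.{u} fun x w => Pos M.ord β {b | P x (cns b (cns (w 0) fun _ => ξ))} := by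
    have h3 : DX.{u} fun x w => P x (cns (w 0) (cns (w 1) fun _ => ξ)) := by
      refine (DX.sub (S := fun z x w => P x (cns (w 0) (cns (w 1) fun _ => z))) ξ ?_)
      refine (hP.ren fun n => if n = 0 then 1 else if n = 1 then 2 else 0).congr
        fun x w => ?_
      have : cns (w (0 + 1)) (cns (w (1 + 1)) fun _ => w 0) =
          fun n => w (if n = 0 then 1 else if n = 1 then 2 else 0) := by
        funext n
        rcases n with _ | _ | n <;> rfl
      rw [← this]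
    exact dx_pos hDXP h3 M.ord β
  refine ⟨os L.ord {a | Pos M.ord β (fam P x (fun _ => ξ) a)}, ?_, fun z hz => ?_,
    fun m hm => ?_, ?_⟩
  · exact hODY _ hd x L.ord (fun _ => ξ)
  · obtain ⟨a, ha, -, rfl⟩ := mem_os.1 hz
    exact toZFSet_mem_toZFSet_iff.2 ha
  · obtain ⟨n, hn⟩ := y2 m hm
    exact ⟨y n, hn, ord_mem_os.2 ⟨y1 n, hposn n⟩⟩
  · obtain ⟨τ, hτ, e, he⟩ := hFWM M.ord β hβ0 (fam P x fun _ => ξ) fun i i' b => h2 b i i'
    refine ⟨τ, hτ.trans_le (Cardinal.ord_le_ord.2 (succ_le_of_lt hβL)), e, fun a ha => ?_⟩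
    exact he a (ord_mem_os.1 ha).2

end Pool.Agent.H98.SD.U
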