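import Pool.Agent.H98.SD.Suc

/-!
# MP_e37c09_lc, SecondDichotomy: the successors in the extendible case
-/

open Ordinal Cardinal Order Set
open scoped ZFSet

universe u

namespace HD.SD

/-- SU3. Above an extendible cardinal, for every set `x` such that all bounded subsets of `L` are
OD_x. -/
def T_SU3 : Prop := ∀ δ : Ordinal.{u}, Extendible δ → ∀ L : Cardinal.{u}, SLC δ L →
  ∀ x, (∀ m < L.ord, ∀ z, z ⊆ m.toZFSet → NF.ODp x z) →
    ((∀ z, z ⊆ L.ord.toZFSet → NF.ODp x z) ↔ ∃ G, L ≤ G ∧ SuX G x)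

theorem su3 (r' : RK.{u}) (hSUG : T_SUG.{u}) (hSCY : T_SCY.{u}) : T_SU3.{u} := by
  intro δ hδ L h x hx
  obtain ⟨η, -, θ, j, hE⟩ := All.xa δ hδ 0
  obtain ⟨D, hD, -, -, hD0⟩ := All.xb δ η θ j hE
  have hω : ω < δ := by
    rw [hD, Cardinal.lt_ord, Ordinal.card_omega0]
    exact hD0
  have h' : SLC ω L := ⟨h.lim, h.cof, hω.trans h.lt⟩
  have hL := slc_unc h'
  refine ⟨fun hz => ⟨L, le_rfl, hSCY L hL x hz⟩, fun ⟨G, hG, hs⟩ => ?_⟩
  have hGr : (succ G).IsRegular := Cardinal.isRegular_succ (hL.le.trans hG)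
  exact hSUG L h' ℵ₀ Cardinal.isRegular_aleph0 hL G hG
    (r'.RFK δ hδ L h ℵ₀ Cardinal.isRegular_aleph0 (by rwa [Cardinal.ord_aleph0]) (succ G) hGr
      (hG.trans_lt (lt_succ G))) x hx hs

end HD.SD
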