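import Pool.Agent.H98.SD.Asm3
import Pool.Agent.H98.SD.TargetsU
import Pool.Agent.H98.SD.TYE

/-!
# Row ULX of SecondDichotomy (MP_e37c09_lc): the matrix of Ulam with a parameter
-/

open Ordinal Cardinal Order Set
open scoped ZFSet

universe u

namespace Pool.Agent.H98.SD.U

open _root_.HD _root_.HD.SD

/-- `c` is a code of a function from `L` onto `b`. -/
def Good (en : Ordinal.{u} → ZFSet.{u}) (L : Cardinal.{u}) (x : ZFSet.{u}) (c b : Ordinal.{u}) :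
    Prop :=
  (∀ α < b, ∃ ξ < L.ord, α ∈ Sc2 en x c ξ) ∧
    ∀ ξ < L.ord, ∀ α < b, ∀ α' < b, α ∈ Sc2 en x c ξ → α' ∈ Sc2 en x c ξ → α = α'

/-- the entry of the matrix -/
def Rx (en : Ordinal.{u} → ZFSet.{u}) (L : Cardinal.{u}) (x : ZFSet.{u}) (b ξ α : Ordinal.{u}) :
    Prop := ∃ c, (Good en L x c b ∧ ∀ c' < c, ¬ Good en L x c' b) ∧
      (ξ < L.ord ∧ α < b ∧ α ∈ Sc2 en x c ξ)

theorem dx_Good (hDXS : T_DXS.{u}) {en : Ordinal.{u} → ZFSet.{u}} (hen : EN en)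
    (L : Cardinal.{u}) : DX fun x w => Good en L x (w 0) (w 1) := by
  have hs := (hDXS en hen).2
  refine DX.and ?_ ?_
  · refine DX.allLt (S := fun α x w => ∃ ξ < L.ord, α ∈ Sc2 en x (w 0) ξ) 1 ?_
    refine DX.exLtc (S := fun ξ x w => w 0 ∈ Sc2 en x (w 1) ξ) L.ord ?_
    exact hs.ren fun n => if n = 0 then 1 else if n = 1 then 2 else 0
  · refine DX.allLtc (S := fun ξ x w => ∀ α < w 1, ∀ α' < w 1, α ∈ Sc2 en x (w 0) ξ →
      α' ∈ Sc2 en x (w 0) ξ → α = α') L.ord ?_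
    refine DX.allLt (S := fun α x w => ∀ α' < w 2, α ∈ Sc2 en x (w 1) (w 0) →
      α' ∈ Sc2 en x (w 1) (w 0) → α = α') 2 ?_
    refine DX.allLt (S := fun α' x w => w 0 ∈ Sc2 en x (w 2) (w 1) →
      α' ∈ Sc2 en x (w 2) (w 1) → w 0 = α') 3 ?_
    exact (hs.ren fun n => if n = 0 then 1 else if n = 1 then 3 else 2).imp
      ((hs.ren fun n => if n = 0 then 0 else if n = 1 then 3 else 2).imp (DX.o (DO.eq 1 0)))

theorem dx_Rx (hDXS : T_DXS.{u}) {en : Ordinal.{u} → ZFSet.{u}} (hen : EN en)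
    (L : Cardinal.{u}) : DX fun x w => Rx en L x (w 0) (w 1) (w 2) := by
  have hs := (hDXS en hen).2
  have hg := dx_Good hDXS hen L
  refine DX.ex (S := fun c x w => (Good en L x c (w 0) ∧ ∀ c' < c, ¬ Good en L x c' (w 0)) ∧
      (w 1 < L.ord ∧ w 2 < w 0 ∧ w 2 ∈ Sc2 en x c (w 1))) ?_
  refine DX.and (hg.and ?_) ((DX.o (DO.ltc 2 L.ord)).and ((DX.o (DO.lt 3 1)).and
    (hs.ren fun n => if n = 0 then 3 else if n = 1 then 0 else 2)))
  refine DX.allLt (S := fun c' x w => ¬ Good en L x c' (w 1)) 0 ?_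
  exact (hg.ren fun n => if n = 0 then 0 else 2).not

theorem pos_tail {μ κ β : Ordinal.{u}} (h : Pos μ κ univ) (hβ : β < κ) :
    Pos μ κ {b | β < b} := by
  intro C hC
  have hC' : Clb κ {b | b ∈ C ∧ β < b} := by
    refine ⟨fun a ha => ?_, fun x hx h0 hu => ?_⟩
    · obtain ⟨b, h1, h2, h3⟩ := hC.unb (max a β) (max_lt ha hβ)
      exact ⟨b, h1, (le_max_left _ _).trans_lt h2, h3, (le_max_right _ _).trans_lt h2⟩
    · refine ⟨hC.cls x hx h0 fun y hy => ?_, ?_⟩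
      · obtain ⟨z, h1, h2, h3⟩ := hu y hy
        exact ⟨z, h1, h2, h3.1⟩
      · obtain ⟨z, h1, -, h3⟩ := hu 0 h0
        exact h3.2.trans h1
  obtain ⟨b, h1, h2, -, h4⟩ := h _ hC'
  exact ⟨b, h1, h2.1, h2.2, h4⟩

theorem pf_ULX (hDXS : T_DXS.{u}) (hDXP : T_DXP.{u}) (hDXN : T_DXN.{u}) (hODX : T_ODX.{u}) :
    T_ULX.{u} := by
  intro en hen L hL M hMr hML x hs
  obtain ⟨t, p1, p2, p3⟩ := All.pr.{u}
  set κ : Ordinal.{u} := (succ L).ord with hκ
  set μ : Ordinal.{u} := M.ord with hμ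
  have hLκ : L.ord < κ := Cardinal.ord_lt_ord.2 (lt_succ L)
  have hgood : ∀ b, L.ord < b → b < κ → ∃ c, Good en L x c b := by
    intro b h1 h2
    obtain ⟨f, hf, hfun, honto⟩ := hs b h1 h2
    obtain ⟨c, hc⟩ := (hODX en hen x κ).2.2.1 f hf
    refine ⟨c, fun α hα => ?_, fun ξ hξ α hα α' hα' h3 h4 => ?_⟩
    · obtain ⟨ξ, hξ, hp⟩ := honto α hα
      exact ⟨ξ, hξ, (hc α (hα.trans h2) ξ (hξ.trans hLκ)).2 hp⟩
    · have e1 := (hc α (hα.trans h2) ξ (hξ.trans hLκ)).1 h3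
      have e2 := (hc α' (hα'.trans h2) ξ (hξ.trans hLκ)).1 h4
      obtain ⟨w, -, huw⟩ := hfun.2 ξ.toZFSet (toZFSet_mem_toZFSet_iff.2 hξ)
      exact toZFSet_injective ((huw _ e1).trans (huw _ e2).symm)
  have hRex : ∀ b, L.ord < b → b < κ → ∀ α < b, ∃ ξ < L.ord, Rx en L x b ξ α := by
    intro b h1 h2 α hα
    have hne : ({c | Good en L x c b} : Set Ordinal.{u}).Nonempty := hgood b h1 h2
    have hg : Good en L x (sInf {c | Good en L x c b}) b := csInf_mem hne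
    obtain ⟨ξ, hξ, hm⟩ := hg.1 α hα
    refine ⟨ξ, hξ, _, ⟨hg, fun c' hc' h3 => ?_⟩, hξ, hα, hm⟩
    exact absurd (csInf_le' (s := {c | Good en L x c b}) h3) (not_le.2 hc')
  have hRun : ∀ b ξ α α', Rx en L x b ξ α → Rx en L x b ξ α' → α = α' := by
    rintro b ξ α α' ⟨c, ⟨g1, g2⟩, g3, g4, g5⟩ ⟨c', ⟨k1, k2⟩, k3, k4, k5⟩
    have hcc : c = c' := by
      rcases lt_trichotomy c c' with h | h | h
      · exact absurd g1 (k2 c h)
      · exact h
      · exact absurd k1 (g2 c' h)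
    subst hcc
    exact g1.2 ξ g3 α g4 α' k4 g5 k5
  have huniv : Pos μ κ univ := All.vc M κ hMr (by
    rw [hκ, cof_succ hL]
    exact hML.trans (lt_succ L))
  have hpos : ∀ α, ∃ ξ, α < κ → ξ < L.ord ∧ Pos μ κ {b | Rx en L x b ξ α} := by
    intro α
    by_cases hα : α < κ
    · by_contra hc
      push Not at hc
      have hnull : ¬ Pos μ κ {b | ∃ ξ < L.ord, b ∈ {b | Rx en L x b ξ α}} :=
        Pool.Agent.H98.SD.E.union_nullM hL le_rfl _ fun ξ hξ => (hc ξ).2 hξ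
      refine hnull (Pos.mono' (pos_tail huniv (max_lt hLκ hα)) fun b hb hb' => ?_)
      exact hRex b ((le_max_left _ _).trans_lt hb') hb α ((le_max_right _ _).trans_lt hb')
    · exact ⟨0, fun h => absurd h hα⟩
  choose g hg using hpos
  -- one row with many positive entries
  have hrow : ∃ ξ, ¬ Few L.ord {α | α < κ ∧ Pos μ κ {b | Rx en L x b ξ α}} := by
    by_contra hc
    push Not at hc
    choose τ hτ e he using hc
    have h1 : ∀ α, ∃ a, α < κ → a < τ (g α) ∧ e (g α) a = α := by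
      intro α
      by_cases hα : α < κ
      · obtain ⟨a, ha, hae⟩ := he (g α) α ⟨hα, (hg α hα).2⟩
        exact ⟨a, fun _ => ⟨ha, hae⟩⟩
      · exact ⟨0, fun h => absurd h hα⟩
    choose a ha using h1
    refine noinj (C := succ L) hLκ (fun α => t (g α) (a α)) (fun α hα => ?_)
      fun α hα α' hα' hh => ?_
    · exact p3 L hL.le _ (hg α hα).1 _ ((ha α hα).1.trans (hτ _))
    · obtain ⟨e1, e2⟩ := p2 _ _ _ _ hh
      rw [← (ha α hα).2, ← (ha α' hα').2, e1, e2]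
  obtain ⟨ξ, hξ⟩ := hrow
  have hnth : ∀ a < L.ord, ∃ z, nth {α | α < κ ∧ Pos μ κ {b | Rx en L x b ξ α}} a z :=
    ((All.vh _).2.2.2 L.ord).resolve_left hξ
  -- the family
  have dR := dx_Rx hDXS hen L
  let Q : ZFSet.{u} → (ℕ → Ordinal.{u}) → Prop := fun x w => w 0 < κ ∧
    Pos μ κ {b | Rx en L x b (w 1) (w 0)}
  have dQ : DX Q := by
    refine (DX.o (DO.ltc 0 κ)).and ?_
    have h3 : DX.{u} fun x w => Rx en L x (w 0) (w 2) (w 1) :=
      dR.ren fun n => if n = 0 then 0 else if n = 1 then 2 else 1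
    exact dx_pos hDXP h3 μ κ
  let P : ZFSet.{u} → (ℕ → Ordinal.{u}) → Prop := fun x w => ∃ α,
    nth {α' | Q x (cns α' (fun n => w (n + 2)))} (w 1) α ∧ Rx en L x (w 0) (w 2) α
  have dP : DX P := by
    refine DX.ex (S := fun α x w => nth {α' | Q x (cns α' (fun n => w (n + 2)))} (w 1) α ∧
      Rx en L x (w 0) (w 2) α) (DX.and ?_ ?_)
    · exact dx_nth hDXN dQ 2 0 (fun n => n + 3)
    · exact dR.ren fun n => if n = 0 then 1 else if n = 1 then 3 else 0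
  refine ⟨P, dP, ξ, fun a ha => ?_, fun b i i' hb hb' => ?_⟩
  · obtain ⟨z, hz⟩ := hnth a ha
    exact Pos.mono' hz.1.2 fun b _ hb => ⟨z, hz, hb⟩
  · obtain ⟨α, h1, h2⟩ := hb
    obtain ⟨α', h3, h4⟩ := hb'
    obtain rfl := hRun b ξ α α' h2 h4
    exact nth_idx h1 h3

end Pool.Agent.H98.SD.U
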