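import Pool.Agent.H98.SD.NuB
import Pool.Agent.H81.SD.WIE

/-!
# MP_e37c09_lc, SecondDichotomy: for each set `x`, covering gives a one-to-one function from the
successor of `L` to the power set of `L` which is definable from ordinals and `x`
-/

open Ordinal Cardinal Order Set
open scoped ZFSet

universe u

namespace HD.SD

open HD.NF (w0)
open Pool.Agent.H81.SD (Jt Fn odp_Fn pair_mem_Fn)

/-! ## Statement-level definition -/

/-- Some one-to-one function from the successor of `L` to the power set of `L` is definable from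
ordinals and `x`. -/
def InjX (L : Cardinal.{u}) (x : ZFSet.{u}) : Prop := ∃ F, NF.ODp x F ∧
  ZFSet.IsFunc (succ L).ord.toZFSet (ZFSet.powerset L.ord.toZFSet) F ∧
    ∀ (a b : Ordinal.{u}) (z : ZFSet.{u}), a < b → b < (succ L).ord →
      ZFSet.pair a.toZFSet z ∈ F → ZFSet.pair b.toZFSet z ∉ F

/-- if there are at least `L⁺` least codes then there is an injection (after helper81's WIE) -/
theorem inj_of_large (hDXS : T_DXS.{u}) (hDXN : T_DXN.{u}) {en : Ordinal.{u} → ZFSet.{u}}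
    (hen : EN en) {L : Cardinal.{u}} {x : ZFSet.{u}}
    (hlg : ∀ i < (succ L).ord, ∃ z, nth {c | Jt en L.ord x c} i z) : InjX L x := by
  refine ⟨Fn en L.ord (succ L).ord x, odp_Fn hDXS hDXN hen _ _ x,
    ⟨fun w hw => (ZFSet.mem_sep.1 hw).1, fun w hw => ?_⟩, fun a b z hab hb h1 h2 => ?_⟩
  · obtain ⟨i, hi, rfl⟩ := mem_toZFSet_iff.1 hw
    obtain ⟨c, hc⟩ := hlg i hi
    refine ⟨os L.ord (Sc en x c), pair_mem_Fn.2 ⟨hi, c, rfl, hc⟩, ?_⟩
    intro z hz
    obtain ⟨-, d, rfl, hd⟩ := pair_mem_Fn.1 hz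
    rw [nth_val hd hc]
  · rw [pair_mem_Fn] at h1 h2
    obtain ⟨ha, c, hc, hn⟩ := h1
    obtain ⟨-, d, hd, hm⟩ := h2
    have hcd : c < d := ((All.vh _).2.1 a b c d hn hm).1 hab
    obtain ⟨t, ht, hne⟩ := hm.1 c hcd
    refine hne ?_
    have h3 := hc.symm.trans hd
    have h4 := @ord_mem_os L.ord t (Sc en x c)
    have h5 := @ord_mem_os L.ord t (Sc en x d)
    rw [h3] at h4
    constructor
    · intro h
      exact (h4.1 (h5.2 ⟨ht, h⟩)).2
    · intro h
      exact (h5.1 (h4.2 ⟨ht, h⟩)).2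

/-- an OD_x subset of `L` is the trace of a section with a least code -/
theorem trace1 (hODX : T_ODX.{u}) {en : Ordinal.{u} → ZFSet.{u}} (hen : EN en) {L : Cardinal.{u}}
    {x D : ZFSet.{u}} (hD : NF.ODp x D) :
    ∃ c, Jt en L.ord x c ∧ ∀ a < L.ord, (a ∈ Sc en x c ↔ a.toZFSet ∈ D) := by
  obtain ⟨c, hc⟩ := (hODX en hen x L.ord).2.1 D hD
  have hne : ({c | ∀ a < L.ord, (a ∈ Sc en x c ↔ a.toZFSet ∈ D)} : Set Ordinal.{u}).Nonempty :=
    ⟨c, fun a ha => hc a ha⟩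
  have hm := csInf_mem hne
  refine ⟨sInf {c | ∀ a < L.ord, (a ∈ Sc en x c ↔ a.toZFSet ∈ D)}, fun c' hc' => ?_, hm⟩
  by_contra hcon
  push Not at hcon
  exact notMem_of_lt_csInf hc' (OrderBot.bddBelow _)
    fun a ha => (hcon a ha).symm.trans (hm a ha)

/-- the union of `m` sets, each the image of `m`, is not `L` -/
theorem small_union {L : Cardinal.{u}} (hL : ℵ₀ ≤ L) {m : Ordinal.{u}} (hm : m < L.ord)
    (E : Ordinal.{u} → Set Ordinal.{u}) : ∃ a < L.ord, ∀ k < m,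
      (∃ g : Ordinal.{u} → Ordinal.{u}, ∀ a ∈ E k, ∃ i < m, g i = a) → a ∉ E k := by
  classical
  by_contra hcon
  push Not at hcon
  have hG : ∀ k : Ordinal.{u}, ∃ g : Ordinal.{u} → Ordinal.{u},
      (∃ g : Ordinal.{u} → Ordinal.{u}, ∀ a ∈ E k, ∃ i < m, g i = a) →
        ∀ a ∈ E k, ∃ i < m, g i = a := by
    intro k
    by_cases h : ∃ g : Ordinal.{u} → Ordinal.{u}, ∀ a ∈ E k, ∃ i < m, g i = a
    · obtain ⟨g, hg⟩ := h
      exact ⟨g, fun _ => hg⟩
    · exact ⟨fun i => i, fun h' => absurd h' h⟩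
  choose G hG using hG
  have hf : Function.Surjective (fun (p : Iio m × Iio m) =>
      if h : G p.1.1 p.2.1 < L.ord then (⟨G p.1.1 p.2.1, h⟩ : Iio L.ord) else
        ⟨0, (Cardinal.ord_pos.2 (Cardinal.aleph0_pos.trans_le hL))⟩) := by
    rintro ⟨a, ha⟩
    obtain ⟨k, hk, hg, hak⟩ := hcon a ha
    obtain ⟨i, hi, he⟩ := hG k hg a hak
    refine ⟨⟨⟨k, hk⟩, ⟨i, hi⟩⟩, ?_⟩
    have h : G k i < L.ord := by
      rw [he]
      exact ha
    show (if h : G k i < L.ord then (⟨G k i, h⟩ : Iio L.ord) else _) = _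
    rw [dif_pos h]
    exact Subtype.ext he
  have h1 := Cardinal.mk_le_of_surjective hf
  rw [Cardinal.mk_prod, Cardinal.mk_Iio_ordinal, Cardinal.mk_Iio_ordinal, Cardinal.card_ord,
    Cardinal.lift_id, ← Cardinal.lift_mul, Cardinal.lift_le] at h1
  have hmc : m.card < L := Cardinal.lt_ord.1 hm
  exact absurd h1 (not_le.2 (Cardinal.mul_lt_of_lt hL hmc hmc))

/-- KON. Covering gives an injection. -/
theorem kon (hODX : T_ODX.{u}) (hDXS : T_DXS.{u}) (hDXN : T_DXN.{u}) {κ Λ L : Cardinal.{u}}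
    (hL : ℵ₀ < L) (hΛ : Λ ≤ L) (hκ : L.ord.cof < κ) {x : ZFSet.{u}} (hC : CvN κ Λ L x) :
    InjX L x := by
  classical
  obtain ⟨en, hen⟩ := All.en.{u}
  rcases (All.vh {c | Jt en L.ord x c}).2.2.2 (succ L).ord with h | h
  · exfalso
    obtain ⟨τ, hτ, e, he⟩ := h
    have hτL : τ.card ≤ L := Order.lt_succ_iff.1 (Cardinal.lt_ord.1 hτ)
    -- an enumeration of length `L`
    have hle : #(Iio τ) ≤ #(Iio L.ord) := by
      rw [Cardinal.mk_Iio_ordinal, Cardinal.mk_Iio_ordinal, Cardinal.card_ord, Cardinal.lift_le]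
      exact hτL
    obtain ⟨f⟩ := Cardinal.le_def _ _ |>.1 hle
    let e' : Ordinal.{u} → Ordinal.{u} := fun k =>
      if hk : ∃ i : Iio τ, (f i).1 = k then e hk.choose.1 else 0
    have he' : ∀ c, Jt en L.ord x c → ∃ k < L.ord, e' k = c := by
      intro c hc
      obtain ⟨i, hi, hic⟩ := he c hc
      refine ⟨(f ⟨i, hi⟩).1, (f ⟨i, hi⟩).2, ?_⟩
      have hk : ∃ i' : Iio τ, (f i').1 = (f ⟨i, hi⟩).1 := ⟨⟨i, hi⟩, rfl⟩
      show (if hk : ∃ i' : Iio τ, (f i').1 = (f ⟨i, hi⟩).1 then e hk.choose.1 else 0) = c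
      rw [dif_pos hk]
      have h1 : hk.choose = ⟨i, hi⟩ := f.injective (Subtype.ext hk.choose_spec)
      rw [h1]
      exact hic
    obtain ⟨m, hm1, hm2⟩ := cofseq5 L
    -- the diagonal sequence
    have hy : ∀ n : Ordinal.{u}, ∃ a : Ordinal.{u}, n < L.ord.cof.ord → a < L.ord ∧
        ∀ k < m n, (∃ g : Ordinal.{u} → Ordinal.{u},
          ∀ a ∈ {a | a < L.ord ∧ a ∈ Sc en x (e' k)}, ∃ i < m n, g i = a) →
            a ∉ {a | a < L.ord ∧ a ∈ Sc en x (e' k)} := by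
      intro n
      by_cases hn : n < L.ord.cof.ord
      · obtain ⟨a, ha, h2⟩ := small_union hL.le (hm1 n hn)
          (fun k => {a | a < L.ord ∧ a ∈ Sc en x (e' k)})
        exact ⟨a, fun _ => ⟨ha, h2⟩⟩
      · exact ⟨0, fun h => absurd h hn⟩
    choose y hy using hy
    obtain ⟨D, hD, hDL, hyD, τ', hτ', g, hg⟩ := hC L.ord.cof.ord (Cardinal.ord_lt_ord.2 hκ) y
      fun i hi => (hy i hi).1
    obtain ⟨c, hc1, hc2⟩ := trace1 hODX hen (L := L) hD
    obtain ⟨k, hk, hkc⟩ := he' c hc1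
    have hτL' : τ' < L.ord := hτ'.trans_le (Cardinal.ord_le_ord.2 hΛ)
    have hlim : IsSuccLimit L.ord := Cardinal.isSuccLimit_ord hL.le
    obtain ⟨n, hn, hle⟩ := hm2 (succ (max k τ')) (hlim.succ_lt (max_lt hk hτL'))
    have hkm : k < m n := (le_max_left k τ').trans_lt ((lt_succ _).trans_le hle)
    have hτm : τ' ≤ m n := (le_max_right k τ').trans ((le_succ _).trans hle)
    obtain ⟨h1, h2⟩ := hy n hn
    refine h2 k hkm ⟨g, ?_⟩ ⟨h1, ?_⟩
    · rintro a ⟨ha, hak⟩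
      rw [hkc] at hak
      obtain ⟨i, hi, hia⟩ := hg a ((hc2 a ha).1 hak)
      exact ⟨i, hi.trans_le hτm, hia⟩
    · rw [hkc]
      exact (hc2 _ h1).2 (hyD n hn)
  · exact inj_of_large hDXS hDXN hen h

end HD.SD
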