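import Pool.Agent.H98.SD.Asm9
import Pool.Agent.H98.SD.TargetsU

/-!
# MP_e37c09_lc, SecondDichotomy: the successor of `L` and all subsets of `L`
-/

open Ordinal Cardinal Order Set
open scoped ZFSet

universe u

namespace HD.SD

/-- For every set `x` such that all bounded subsets of `L` are OD_x. -/
def T_SUC : Prop := ∀ L : Cardinal.{u}, SLC ω L → ∀ M : Cardinal.{u}, M.IsRegular → M < L →
  RflK M.ord (succ L) L → ∀ x, (∀ m < L.ord, ∀ z, z ⊆ m.toZFSet → NF.ODp x z) →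
    ((∀ z, z ⊆ L.ord.toZFSet → NF.ODp x z) ↔ SuX L x)

theorem suc_iff (h9 : T_MAIN9.{u}) (hSGX : T_SGX.{u}) (hSCY : T_SCY.{u}) : T_SUC.{u} := by
  intro L h M hMr hML hR x hx
  refine ⟨fun hz => hSCY L (slc_unc h) x hz, fun hs => ?_⟩
  exact (((h9.2.1 L h M hMr hML hR).2.2 x ⟨hx, hSGX L h M hMr hML hR x hs⟩).1).2 hs

end HD.SD
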