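import Pool.Agent.H98.SD.Lib
import Pool.Agent.H98.SD.TargetsM

/-!
# MP_e37c09_lc, SecondDichotomy: assembly of the general form
-/

open Ordinal Cardinal Order Set
open scoped ZFSet

universe u

namespace HD.SD

open HD.NF (w0)
open HD.HV (NMeas)

/-- all rows which are used -/
structure Rows : Prop where
  ODX : T_ODX.{u}
  ODY : T_ODY.{u}
  TRN : T_TRN.{u}
  CDC : T_CDC.{u}
  CL2 : T_CL2.{u}
  CAS : T_CAS.{u}
  TRM : T_TRM.{u}
  EQM : T_EQM.{u}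
  ALM : T_ALM.{u}
  ATT : T_ATT.{u}
  SEM : T_SEM.{u}
  PFM : T_PFM.{u}
  REM : T_REM.{u}
  MEC : T_MEC.{u}
  NIM : T_NIM.{u}
  WIM : T_WIM.{u}
  UNN : T_UNN.{u}
  UFM : T_UFM.{u}
  CVM : T_CVM.{u}
  RFM : T_RFM.{u}
  BDX : T_BDX.{u}

theorem slc_unc {L : Cardinal.{u}} (h : SLC ω L) : ℵ₀ < L := by
  have := h.lt
  rwa [Cardinal.lt_ord, Ordinal.card_omega0] at this

theorem SplM.mono {en : Ordinal.{u} → ZFSet.{u}} {μ κ : Ordinal.{u}} {x : ZFSet.{u}}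
    {m m' : Ordinal.{u}} (h : SplM en μ κ x m') (hm : m ≤ m') : SplM en μ κ x m := by
  obtain ⟨c, h1, h2⟩ := h
  exact ⟨c, fun i hi => h1 i (hi.trans_le hm), h2⟩

theorem stg {en : Ordinal.{u} → ZFSet.{u}} {t : Ordinal.{u} → Ordinal.{u} → Ordinal.{u}}
    (hen : EN en) (ht : PF t) {L : Cardinal.{u}} (h : SLC ω L) : Stg en t L :=
  ⟨hen, ht, slc_unc h, h.lim⟩

/-- the first case -/
theorem all_of_spl (r : Rows.{u}) {en : Ordinal.{u} → ZFSet.{u}}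
    {t : Ordinal.{u} → Ordinal.{u} → Ordinal.{u}} (hen : EN en) (ht : PF t) {L : Cardinal.{u}}
    (h : SLC ω L) {μ : Ordinal.{u}} (hR : RflM μ L) {x : ZFSet.{u}} (hx : Cdd t L x)
    (hc : Cof L x) (hs : ∀ m < L.ord, SplM en μ (succ L).ord x m) :
    ∀ z, z ⊆ L.ord.toZFSet → NF.ODp x z := by
  obtain ⟨P, hP, hF⟩ := r.UFM en hen μ L x hs
  exact r.CL2 en t L (stg hen ht h) h.cof x hx (r.CVM L h μ hR x hc P hP hF)

theorem wop_of_spl (r : Rows.{u}) {en : Ordinal.{u} → ZFSet.{u}}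
    {t : Ordinal.{u} → Ordinal.{u} → Ordinal.{u}} (hen : EN en) (ht : PF t) {L : Cardinal.{u}}
    (h : SLC ω L) {μ : Ordinal.{u}} (hR : RflM μ L) {x : ZFSet.{u}} (hx : x ⊆ L.ord.toZFSet)
    (hs : ∀ m < L.ord, SplM en μ (succ L).ord x m) : WOP L := by
  obtain ⟨x', hx', hc, hxx⟩ := r.CDC en t L (stg hen ht h) h.cof x hx
  exact ⟨x', hx'.sub, all_of_spl r hen ht h hR hx' hc fun m hm =>
    r.TRM en hen x x' hxx μ _ m (hs m hm)⟩

/-- the second case, one set -/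
theorem msr_of (r : Rows.{u}) {en : Ordinal.{u} → ZFSet.{u}}
    {t : Ordinal.{u} → Ordinal.{u} → Ordinal.{u}} (hen : EN en) (ht : PF t) {L : Cardinal.{u}}
    (h : SLC ω L) {M₀ : Cardinal.{u}} (h0 : ℵ₀ ≤ M₀) (hML : M₀ < L) {μ : Ordinal.{u}}
    {x : ZFSet.{u}} (hx : Cdd t L x) (hns : ¬ SplM en μ (succ L).ord x M₀.ord)
    (A : ZFSet.{u} → Prop) (hA : Gp A) {x₀ : ZFSet.{u}} (hx₀ : A x₀) (hxx : NF.ODp x₀ x)
    (hall : ∀ y, A y → ∃ y', (∀ z, NF.ODp y z → NF.ODp y' z) ∧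
      ∀ c, ∃ c', EqvM μ (succ L).ord (Sc en y' c) (Sc en x c')) :
    ∃ τ T, MsrM A μ L τ T := by
  have hL := slc_unc h
  obtain ⟨τ, hτ, T, t1, t2, t3, t4, t5⟩ := r.ATT en t L (stg hen ht h) M₀ h0 hML μ x hx hns
  have hset : ∀ i < τ, ∀ y B : ZFSet.{u}, A y → NF.ODp y B →
      ¬ Pos μ (succ L).ord {b | b ∈ T i ∧ b.toZFSet ∈ B} ∨
      ¬ Pos μ (succ L).ord {b | b ∈ T i ∧ b.toZFSet ∉ B} := by
    intro i hi y B hy hB
    obtain ⟨y', h1, h2⟩ := hall y hy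
    exact r.SEM en hen L hL μ y' (T i) (t5 y' h2 i hi) B (h1 B hB)
  have hdf : ∀ i < τ, NF.ODp x₀ (os (succ L).ord (T i)) := fun i hi =>
    (r.TRN en hen x x₀ hxx).1 _ (t4 i hi)
  refine ⟨τ, T, hτ, t1, t2, t3, ⟨x₀, hx₀, hdf⟩, fun i hi => ?_, fun i hi y F hy hF hf => ?_⟩
  · refine r.MEC A hA L hL μ (T i) ⟨x₀, hx₀, hdf i hi⟩ (t1 i hi) (hset i hi)
      fun y F hy hF hf hr => ?_
    obtain ⟨y', h1, h2⟩ := hall y hy
    exact r.REM en hen L hL μ y' (T i) (t1 i hi) (t5 y' h2 i hi) F (h1 F hF) hf hr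
  · obtain ⟨y', h1, h2⟩ := hall y hy
    exact r.PFM en hen L hL μ y' (T i) (t5 y' h2 i hi) F (h1 F hF) hf

theorem gp_sub (L : Cardinal.{u}) : Gp.{u} fun y => y ⊆ L.ord.toZFSet := by
  refine ⟨fun v => v 0 ⊆ L.ord.toZFSet, ?_, fun x _ y => Iff.rfl⟩
  refine (DZ.all (R := fun z v => z ∈ v 0 → z ∈ L.ord.toZFSet) ((DZ.mem 0 1).imp
    (DZ.od (R := fun b v => v 0 ∈ b) (OD.ordinal L.ord) (DZ.mem 1 0)))).congr fun v => ?_
  exact ⟨fun h z hz => h hz, fun h z hz => h z hz⟩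

theorem gp_eq (x : ZFSet.{u}) : Gp.{u} fun y => y = x := by
  refine ⟨fun v => v 0 = v 1, DZ.eq 0 1, fun x' hx' y => ?_⟩
  have : x' = x := hx'
  subst this
  exact Iff.rfl

theorem asm3 (r : Rows.{u}) : T_MAIN3.{u} := by
  obtain ⟨en, hen⟩ := All.en.{u}
  obtain ⟨t, p1, p2, p3⟩ := All.pr.{u}
  have ht : PF t := ⟨p1, p2, p3⟩
  refine ⟨fun L h M hMr hML hR => ?_, fun δ hδ L h => ?_⟩
  · have hL := slc_unc h
    -- (1)
    have main : WOP L ∨ ∃ τ T, MsrM (fun y => y ⊆ L.ord.toZFSet) M.ord L τ T := by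
      by_cases hA : ∀ x, Cdd t L x → ∃ m < L.ord, ¬ SplM en M.ord (succ L).ord x m
      · obtain ⟨M₀, h0, h1, h2⟩ := r.UNN en t L (stg hen ht h) M.ord hA
        obtain ⟨x, hx, hall⟩ := r.ALM en t L (stg hen ht h) M₀ h0 h1 M.ord h2
        refine Or.inr (msr_of r hen ht h h0 h1 hx (h2 x hx.sub) _ (gp_sub L) (x₀ := x) hx.sub ?_
          fun y hy => ⟨y, fun z hz => hz, hall y hy⟩)
        exact Pool.Agent.H45.NF.ODp.of_dz (Q := fun v => v 0 = v 1) (DZ.eq 0 1) fun _ => Iff.rfl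
      · push Not at hA
        obtain ⟨x, hx, hs⟩ := hA
        exact Or.inl (wop_of_spl r hen ht h hR hx.sub hs)
    have hno : ∀ x, x ⊆ L.ord.toZFSet → (∀ z, z ⊆ L.ord.toZFSet → NF.ODp x z) →
        ∀ A : ZFSet.{u} → Prop, A x → ¬ ∃ τ T, MsrM A M.ord L τ T := by
      rintro x hx hz A hAx ⟨τ, T, hT⟩
      obtain ⟨F, f1, f2, f3⟩ := r.WIM L hL x hx hz
      obtain ⟨a, b, z, h1, h2, h3, h4⟩ := r.NIM L hL M hMr hML A τ T hT x F hAx f1 f2
      exact f3 a b z h1 h2 h3 h4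
    refine ⟨main, ⟨fun hw hn => ?_, fun hn => ?_⟩, fun x hx => ⟨fun hz => ?_, fun hn => ?_⟩⟩
    · obtain ⟨x, hx, hz⟩ := hw
      obtain ⟨F, f1, f2, f3⟩ := r.WIM L hL x hx hz
      obtain ⟨a, b, z, h1, h2, h3, h4⟩ := hn x F hx f1 f2
      exact f3 a b z h1 h2 h3 h4
    · refine main.resolve_right fun ⟨τ, T, hT⟩ => hn fun y F hy hF hf => ?_
      exact r.NIM L hL M hMr hML _ τ T hT y F hy hF hf
    · exact hno x hx.sub hz _ rfl
    · obtain ⟨x', hx', hc, h1, h2⟩ := r.BDX en t L (stg hen ht h) h.cof x hx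
      by_cases hA : ∀ m < L.ord, SplM en M.ord (succ L).ord x' m
      · exact fun z hz => (r.TRN en hen x' x h1).1 z (all_of_spl r hen ht h hR hx' hc hA z hz)
      · push Not at hA
        obtain ⟨m, hm, hs⟩ := hA
        exfalso
        have hmc : m.card < L := Cardinal.lt_ord.1 hm
        have hsc : succ m.card < L :=
          (succ_le_of_lt (Cardinal.cantor m.card)).trans_lt (h.lim _ hmc)
        refine hn (msr_of r hen ht h (M₀ := max ℵ₀ (succ m.card)) (le_max_left _ _)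
          (max_lt hL hsc) hx' (fun hs' => hs (hs'.mono ?_)) _ (gp_eq x) (x₀ := x) rfl h1
          fun y hy => ⟨x', ?_, fun c => ⟨c, ?_⟩⟩)
        · exact (Cardinal.lt_ord.2 (lt_succ m.card)).le.trans
            (Cardinal.ord_le_ord.2 (le_max_right _ _))
        · intro z hz
          have hy' : y = x := hy
          rw [hy'] at hz
          exact (r.TRN en hen x x' h2).1 z hz
        · exact (r.EQM M.ord _ (cof_succ_lt hL)).1 _
  · obtain ⟨η, -, θ, j, hE⟩ := All.xa δ hδ 0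
    obtain ⟨D, hD, -, -, hD0⟩ := All.xb δ η θ j hE
    have hω : ω < δ := by
      rw [hD, Cardinal.lt_ord, Ordinal.card_omega0]
      exact hD0
    have h' : SLC ω L := ⟨h.lim, h.cof, hω.trans h.lt⟩
    refine ⟨h', fun M hM hMδ => ⟨?_, r.RFM δ hδ L h M hM hMδ⟩, fun hA => ?_⟩
    · exact Cardinal.ord_lt_ord.1 (hMδ.trans h.lt)
    · have hR : RflM (ℵ₀ : Cardinal.{u}).ord L :=
        r.RFM δ hδ L h ℵ₀ Cardinal.isRegular_aleph0 (by rwa [Cardinal.ord_aleph0])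
      obtain ⟨x, hx, -, -⟩ := r.CDC en t L (stg hen ht h') h'.cof ∅
        (fun z hz => absurd hz (ZFSet.notMem_empty z))
      exact wop_of_spl r hen ht h' hR hx.sub fun m hm => r.CAS δ hδ hA L h en hen x m hm

end HD.SD
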