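import Pool.Agent.H98.SD.Asm3

/-!
# MP_e37c09_lc, SecondDichotomy: the final form
-/

open Ordinal Cardinal Order Set
open scoped ZFSet

universe u

namespace HD.SD

open HD.NF (w0)
open HD.HV (NMeas)

/-- The theorem. -/
def T_MAIN4 : Prop :=
  (∀ L : Cardinal.{u}, SLC ω L → ∀ M : Cardinal.{u}, M.IsRegular → M < L → RflM M.ord L →
    (WOP L ↔ ¬ ∃ τ T, MsrM (fun y => y ⊆ L.ord.toZFSet) M.ord L τ T) ∧
    (WOP L ↔ ¬ NoInj L) ∧
    ∀ x, Bdx L x → ((∀ z, z ⊆ L.ord.toZFSet → NF.ODp x z) ↔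
      ¬ ∃ τ T, MsrM (fun y => y = x) M.ord L τ T)) ∧
  ∀ δ : Ordinal.{u}, Extendible δ → ∀ L : Cardinal.{u}, SLC δ L →
    SLC ω L ∧ (∀ M : Cardinal.{u}, M.IsRegular → M.ord < δ → M < L ∧ RflM M.ord L) ∧
      (CaseA δ → WOP L ∧ ∀ x, x ⊆ L.ord.toZFSet →
        (∀ m < L.ord, ∀ z, z ⊆ m.toZFSet → NF.ODp x z) →
          ∀ z, z ⊆ L.ord.toZFSet → NF.ODp x z)

theorem odp_of_od {x z : ZFSet.{u}} (h : OD z) : NF.ODp x z :=
  Pool.Agent.H45.NF.ODp.of_dz (Q := fun v => v 0 = z)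
    (DZ.od (R := fun r v => v 0 = r) h (DZ.eq 1 0)) fun _ => Iff.rfl

/-- In the first case of the dichotomy of Woodin `L` is singular in HOD. -/
theorem sing {δ : Ordinal.{u}} (hA : CaseA δ) {L : Cardinal.{u}} (h : SLC δ L)
    (hL : ℵ₀ < L) : ∃ D, OD D ∧ D ⊆ L.ord.toZFSet ∧
      (∀ m < L.ord, ∃ a : Ordinal.{u}, m < a ∧ a.toZFSet ∈ D) ∧
      ∃ τ < L.ord, ∃ g : Ordinal.{u} → Ordinal.{u}, ∀ a : Ordinal.{u}, a.toZFSet ∈ D →
        ∃ i < τ, g i = a := by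
  have hns : ¬ L.IsRegular := fun hr => by
    have := hr.cof_ord
    rw [h.cof] at this
    exact absurd hL (by rw [this]; exact lt_irrefl _)
  obtain ⟨τ, hτ, f, hf, hfun, hcof⟩ := (hA L hL.le hns h.lt).1
  have hd : DS {c : Ordinal.{u} | ∃ a < τ, ZFSet.pair a.toZFSet c.toZFSet ∈ f} := by
    refine DO.exLtc (R := fun a w => ZFSet.pair a.toZFSet (w 0).toZFSet ∈ f) τ ?_
    exact ⟨fun v => ZFSet.pair (v 0) (v 1) ∈ f,
      DZ.od (R := fun r v => ZFSet.pair (v 0) (v 1) ∈ r) hf.od (loc_pmem 1 2 0).dz,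
      fun w => Iff.rfl⟩
  refine ⟨os L.ord {c | ∃ a < τ, ZFSet.pair a.toZFSet c.toZFSet ∈ f}, od_os hd L.ord,
    fun z hz => ?_, fun m hm => ?_, τ, hτ, ?_⟩
  · obtain ⟨a, ha, -, rfl⟩ := mem_os.1 hz
    exact toZFSet_mem_toZFSet_iff.2 ha
  · have hlim : IsSuccLimit L.ord := Cardinal.isSuccLimit_ord hL.le
    obtain ⟨a, ha, c, hc, hp⟩ := hcof (succ m) (hlim.succ_lt hm)
    refine ⟨c, (lt_succ m).trans_le hc, ord_mem_os.2 ⟨?_, a, ha, hp⟩⟩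
    have := hfun.1 hp
    rw [ZFSet.pair_mem_prod] at this
    exact toZFSet_mem_toZFSet_iff.1 this.2
  · have h1 : ∀ i : Ordinal.{u}, ∃ c : Ordinal.{u}, ∀ c' : Ordinal.{u},
        ZFSet.pair i.toZFSet c'.toZFSet ∈ f → c = c' := by
      intro i
      by_cases hi : ∃ c : Ordinal.{u}, ZFSet.pair i.toZFSet c.toZFSet ∈ f
      · obtain ⟨c, hc⟩ := hi
        refine ⟨c, fun c' hc' => ?_⟩
        have h2 := hfun.1 hc
        rw [ZFSet.pair_mem_prod] at h2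
        obtain ⟨w, -, huw⟩ := hfun.2 i.toZFSet h2.1
        exact toZFSet_injective ((huw _ hc).trans (huw _ hc').symm)
      · exact ⟨0, fun c' hc' => absurd ⟨c', hc'⟩ hi⟩
    choose g hg using h1
    refine ⟨g, fun a ha => ?_⟩
    obtain ⟨-, i, hi, hp⟩ := ord_mem_os.1 ha
    exact ⟨i, hi, hg i a hp⟩

theorem asm4 (r : Rows.{u}) : T_MAIN4.{u} := by
  obtain ⟨h1, h2⟩ := asm3 r
  obtain ⟨en, hen⟩ := All.en.{u}
  obtain ⟨t, p1, p2, p3⟩ := All.pr.{u}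
  have ht : PF t := ⟨p1, p2, p3⟩
  refine ⟨fun L h M hMr hML hR => ?_, fun δ hδ L h => ?_⟩
  · obtain ⟨g1, g2, g3⟩ := h1 L h M hMr hML hR
    refine ⟨⟨fun hw => ?_, fun hn => g1.resolve_right hn⟩, g2, g3⟩
    rintro ⟨τ, T, hT⟩
    obtain ⟨x, hx, hz⟩ := hw
    obtain ⟨F, f1, f2, f3⟩ := r.WIM L (slc_unc h) x hx hz
    obtain ⟨a, b, z, e1, e2, e3, e4⟩ :=
      r.NIM L (slc_unc h) M hMr hML _ τ T hT x F hx f1 f2
    exact f3 a b z e1 e2 e3 e4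
  · obtain ⟨h', g2, g3⟩ := h2 δ hδ L h
    refine ⟨h', g2, fun hA => ⟨g3 hA, fun x hx hbd => ?_⟩⟩
    have hL := slc_unc h'
    obtain ⟨D, d1, d2, d3, d4⟩ := sing hA h hL
    have hB : Bdx L x := ⟨hx, hbd, D, odp_of_od d1, d2, d3, d4⟩
    obtain ⟨x', hx', hc, e1, e2⟩ := r.BDX en t L (stg hen ht h') h'.cof x hB
    have hω : ω < δ := by
      obtain ⟨η, -, θ, j, hE⟩ := All.xa δ hδ 0
      obtain ⟨D, hD, -, -, hD0⟩ := All.xb δ η θ j hE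
      rw [hD, Cardinal.lt_ord, Ordinal.card_omega0]
      exact hD0
    have hR : RflM (ℵ₀ : Cardinal.{u}).ord L :=
      r.RFM δ hδ L h ℵ₀ Cardinal.isRegular_aleph0 (by rwa [Cardinal.ord_aleph0])
    exact fun z hz => (r.TRN en hen x' x e1).1 z (all_of_spl r hen ht h' hR hx' hc
      (fun m hm => r.CAS δ hδ hA L h en hen x' m hm) z hz)

end HD.SD
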