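import Pool.Agent.H98.SD.Asm4
import Pool.Agent.H98.SD.TargetsE

/-!
# MP_e37c09_lc, SecondDichotomy: the final form, every set as parameter in the local theorem
-/

open Ordinal Cardinal Order Set
open scoped ZFSet

universe u

namespace HD.SD

open HD.NF (w0)
open HD.HV (NMeas)

/-- all rows which are used -/
structure R5 : Prop where
  TRN : T_TRN.{u}
  CDC : T_CDC.{u}
  CAS : T_CAS.{u}
  CL2 : T_CL2.{u}
  TRM : T_TRM.{u}
  EQM : T_EQM.{u}
  ALM : T_ALM.{u}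
  ATT : T_ATT.{u}
  SEM : T_SEM.{u}
  PFM : T_PFM.{u}
  REM : T_REM.{u}
  MEC : T_MEC.{u}
  NIM : T_NIM.{u}
  UNN : T_UNN.{u}
  UFM : T_UFM.{u}
  CVM : T_CVM.{u}
  RFM : T_RFM.{u}
  BDE : T_BDE.{u}
  ATE : T_ATE.{u}
  CLE : T_CLE.{u}
  WIE : T_WIE.{u}

/-- the first case, for one parameter -/
theorem all_of_spl5 (r : R5.{u}) {en : Ordinal.{u} → ZFSet.{u}}
    {t : Ordinal.{u} → Ordinal.{u} → Ordinal.{u}} (hen : EN en) (ht : PF t) {L : Cardinal.{u}}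
    (h : SLC ω L) {μ : Ordinal.{u}} (hR : RflM μ L) {x : ZFSet.{u}} (hx : Bde L x)
    (hs : ∀ m < L.ord, SplM en μ (succ L).ord x m) :
    ∀ z, z ⊆ L.ord.toZFSet → NF.ODp x z := by
  obtain ⟨⟨D, hD⟩, hc⟩ := r.BDE en t L (stg hen ht h) h.cof x hx
  obtain ⟨P, hP, hF⟩ := r.UFM en hen μ L x hs
  exact r.CLE en t L (stg hen ht h) h.cof D x hD (r.CVM L h μ hR x hc P hP hF)

theorem wop_of_spl5 (r : R5.{u}) {en : Ordinal.{u} → ZFSet.{u}}
    {t : Ordinal.{u} → Ordinal.{u} → Ordinal.{u}} (hen : EN en) (ht : PF t) {L : Cardinal.{u}}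
    (h : SLC ω L) {μ : Ordinal.{u}} (hR : RflM μ L) {x : ZFSet.{u}} (hx : x ⊆ L.ord.toZFSet)
    (hs : ∀ m < L.ord, SplM en μ (succ L).ord x m) : WOP L := by
  obtain ⟨x', hx', hc, hxx⟩ := r.CDC en t L (stg hen ht h) h.cof x hx
  obtain ⟨P, hP, hF⟩ := r.UFM en hen μ L x' fun m hm => r.TRM en hen x x' hxx μ _ m (hs m hm)
  exact ⟨x', hx'.sub, r.CL2 en t L (stg hen ht h) h.cof x' hx' (r.CVM L h μ hR x' hc P hP hF)⟩

/-- the measures from the atoms -/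
theorem msr_of_ind (r : R5.{u}) {en : Ordinal.{u} → ZFSet.{u}} (hen : EN en) {L : Cardinal.{u}}
    (hL : ℵ₀ < L) {μ : Ordinal.{u}} (A : ZFSet.{u} → Prop) (hA : Gp A) {x₀ : ZFSet.{u}}
    (hx₀ : A x₀) {τ : Ordinal.{u}} (hτ : τ < L.ord) {T : Ordinal.{u} → Set Ordinal.{u}}
    (t1 : ∀ i < τ, Pos μ (succ L).ord (T i))
    (t2 : ∀ i < τ, ∀ k < τ, ∀ b, b ∈ T i → b ∈ T k → i = k)
    (t3 : ¬ Pos μ (succ L).ord {b | ∀ i < τ, b ∉ T i})
    (t4 : ∀ i < τ, NF.ODp x₀ (os (succ L).ord (T i)))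
    (t5 : ∀ y, A y → ∀ i < τ, IndM en μ L y (T i)) : ∃ τ T, MsrM A μ L τ T := by
  refine ⟨τ, T, hτ, t1, t2, t3, ⟨x₀, hx₀, t4⟩, fun i hi => ?_, fun i hi y F hy hF hf => ?_⟩
  · exact r.MEC A hA L hL μ (T i) ⟨x₀, hx₀, t4 i hi⟩ (t1 i hi)
      (fun y B hy hB => r.SEM en hen L hL μ y (T i) (t5 y hy i hi) B hB)
      fun y F hy hF hf hr => r.REM en hen L hL μ y (T i) (t1 i hi) (t5 y hy i hi) F hF hf hr
  · exact r.PFM en hen L hL μ y (T i) (t5 y hy i hi) F hF hf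

theorem asm5 (r : R5.{u}) : T_MAIN5.{u} := by
  obtain ⟨en, hen⟩ := All.en.{u}
  obtain ⟨t, p1, p2, p3⟩ := All.pr.{u}
  have ht : PF t := ⟨p1, p2, p3⟩
  refine ⟨fun L h M hMr hML hR => ?_, fun δ hδ L h => ?_⟩
  · have hL := slc_unc h
    have main : WOP L ∨ ∃ τ T, MsrM (fun y => y ⊆ L.ord.toZFSet) M.ord L τ T := by
      by_cases hA : ∀ x, Cdd t L x → ∃ m < L.ord, ¬ SplM en M.ord (succ L).ord x m
      · obtain ⟨M₀, h0, h1, h2⟩ := r.UNN en t L (stg hen ht h) M.ord hA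
        obtain ⟨x, hx, hall⟩ := r.ALM en t L (stg hen ht h) M₀ h0 h1 M.ord h2
        obtain ⟨τ, hτ, T, t1, t2, t3, t4, t5⟩ :=
          r.ATT en t L (stg hen ht h) M₀ h0 h1 M.ord x hx (h2 x hx.sub)
        exact Or.inr (msr_of_ind r hen hL _ (gp_sub L) (x₀ := x) hx.sub hτ t1 t2 t3 t4
          fun y hy i hi => t5 y (hall y hy) i hi)
      · push Not at hA
        obtain ⟨x, hx, hs⟩ := hA
        exact Or.inl (wop_of_spl5 r hen ht h hR hx.sub hs)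
    have hno : ∀ x, (∀ z, z ⊆ L.ord.toZFSet → NF.ODp x z) →
        ∀ A : ZFSet.{u} → Prop, A x → ¬ ∃ τ T, MsrM A M.ord L τ T := by
      rintro x hz A hAx ⟨τ, T, hT⟩
      obtain ⟨F, f1, f2, f3⟩ := r.WIE L hL x hz
      obtain ⟨a, b, z, h1, h2, h3, h4⟩ := r.NIM L hL M hMr hML A τ T hT x F hAx f1 f2
      exact f3 a b z h1 h2 h3 h4
    refine ⟨⟨fun ⟨x, hx, hz⟩ => hno x hz _ hx, fun hn => main.resolve_right hn⟩,
      ⟨fun hw hn => ?_, fun hn => ?_⟩, fun x hx => ⟨fun hz => hno x hz _ rfl, fun hn => ?_⟩⟩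
    · obtain ⟨x, hx, hz⟩ := hw
      obtain ⟨F, f1, f2, f3⟩ := r.WIE L hL x hz
      obtain ⟨a, b, z, h1, h2, h3, h4⟩ := hn x F hx f1 f2
      exact f3 a b z h1 h2 h3 h4
    · refine main.resolve_right fun ⟨τ, T, hT⟩ => hn fun y F hy hF hf => ?_
      exact r.NIM L hL M hMr hML _ τ T hT y F hy hF hf
    · by_cases hA : ∀ m < L.ord, SplM en M.ord (succ L).ord x m
      · exact all_of_spl5 r hen ht h hR hx hA
      · push Not at hA
        obtain ⟨m, hm, hs⟩ := hA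
        obtain ⟨⟨D, hD⟩, -⟩ := r.BDE en t L (stg hen ht h) h.cof x hx
        have hmc : m.card < L := Cardinal.lt_ord.1 hm
        have hsc : succ m.card < L :=
          (succ_le_of_lt (Cardinal.cantor m.card)).trans_lt (h.lim _ hmc)
        obtain ⟨τ, hτ, T, t1, t2, t3, t4, t5⟩ :=
          r.ATE en t L (stg hen ht h) (max ℵ₀ (succ m.card)) (le_max_left _ _)
            (max_lt hL hsc) M.ord D x hD fun hs' => hs (hs'.mono
              ((Cardinal.lt_ord.2 (lt_succ m.card)).le.trans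
                (Cardinal.ord_le_ord.2 (le_max_right _ _))))
        refine absurd (msr_of_ind r hen hL _ (gp_eq x) (x₀ := x) rfl hτ t1 t2 t3 t4
          fun y hy i hi => ?_) hn
        have hy' : y = x := hy
        rw [hy']
        exact t5 i hi
  · obtain ⟨η, -, θ, j, hE⟩ := All.xa δ hδ 0
    obtain ⟨D, hD, -, -, hD0⟩ := All.xb δ η θ j hE
    have hω : ω < δ := by
      rw [hD, Cardinal.lt_ord, Ordinal.card_omega0]
      exact hD0
    have h' : SLC ω L := ⟨h.lim, h.cof, hω.trans h.lt⟩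
    refine ⟨h', fun M hM hMδ => ⟨?_, r.RFM δ hδ L h M hM hMδ⟩, fun hA => ?_⟩
    · exact Cardinal.ord_lt_ord.1 (hMδ.trans h.lt)
    · have hR : RflM (ℵ₀ : Cardinal.{u}).ord L :=
        r.RFM δ hδ L h ℵ₀ Cardinal.isRegular_aleph0 (by rwa [Cardinal.ord_aleph0])
      refine ⟨?_, fun x hbd => ?_⟩
      · exact wop_of_spl5 r hen ht h' hR (x := ∅) (fun z hz => absurd hz (ZFSet.notMem_empty z))
          fun m hm => r.CAS δ hδ hA L h en hen ∅ m hm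
      · obtain ⟨D, d1, d2, d3, d4⟩ := sing hA h (slc_unc h')
        exact all_of_spl5 r hen ht h' hR ⟨hbd, D, odp_of_od d1, d2, d3, d4⟩
          fun m hm => r.CAS δ hδ hA L h en hen x m hm

end HD.SD
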