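import Pool.Agent.H98.SD.TargetsE

/-!
# MP_e37c09_lc: subsets of a strong limit cardinal of cofinality ω. The equivalence with the
measurability of the successor
-/

open Ordinal Cardinal Order Set
open scoped ZFSet

universe u v

namespace HD.SD

open HD.NF (w0)
open HD.HV (NMeas)

/-! ## Statement-level definition -/

/-- `U` is in the class `N`, and in `N` it is a `κ`-complete ultrafilter on `κ` which is not
principal. -/
structure CM (N : ZFSet.{u} → Prop) (κ : Ordinal.{u}) (U : ZFSet.{u}) : Prop where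
  inN : N U
  sub : ∀ x ∈ U, x ⊆ κ.toZFSet
  ultra : ∀ x, N x → x ⊆ κ.toZFSet → (x ∈ U ↔ κ.toZFSet \ x ∉ U)
  up : ∀ x ∈ U, ∀ y, N y → x ⊆ y → y ⊆ κ.toZFSet → y ∈ U
  nonpr : ∀ a < κ, {a.toZFSet} ∉ U
  compl : ∀ τ < κ, ∀ f, N f → ZFSet.IsFunc τ.toZFSet U f →
    (κ.toZFSet).sep (fun b => ∀ a x, ZFSet.pair a x ∈ f → b ∈ x) ∈ U

/-! ## Target -/

/-- NMX. In the first case the successor of `L` is not measurable. -/
def T_NMX : Prop := ∀ L : Cardinal.{u}, ℵ₀ < L → ∀ (A : ZFSet.{u} → Prop) (x : ZFSet.{u}), A x →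
  (∀ y, A y → NF.ODp x y) → (∀ z, z ⊆ L.ord.toZFSet → NF.ODp x z) →
    ¬ ∃ U, CM (NC A) (succ L).ord U

/-- The theorem. -/
def T_MAIN6 : Prop :=
  (∀ L : Cardinal.{u}, SLC ω L → ∀ M : Cardinal.{u}, M.IsRegular → M < L → RflM M.ord L →
    (WOP L ↔ ¬ ∃ U, CM (NC fun y => y ⊆ L.ord.toZFSet) (succ L).ord U) ∧
    (WOP L ↔ ¬ ∃ τ T, MsrM (fun y => y ⊆ L.ord.toZFSet) M.ord L τ T) ∧
    (WOP L ↔ ¬ NoInj L) ∧
    ∀ x, Bde L x →
      ((∀ z, z ⊆ L.ord.toZFSet → NF.ODp x z) ↔ ¬ ∃ U, CM (NC fun y => y = x) (succ L).ord U) ∧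
      ((∀ z, z ⊆ L.ord.toZFSet → NF.ODp x z) ↔
        ¬ ∃ τ T, MsrM (fun y => y = x) M.ord L τ T)) ∧
  ∀ δ : Ordinal.{u}, Extendible δ → ∀ L : Cardinal.{u}, SLC δ L →
    SLC ω L ∧ (∀ M : Cardinal.{u}, M.IsRegular → M.ord < δ → M < L ∧ RflM M.ord L) ∧
      (CaseA δ → WOP L ∧ ∀ x, (∀ m < L.ord, ∀ z, z ⊆ m.toZFSet → NF.ODp x z) →
        ∀ z, z ⊆ L.ord.toZFSet → NF.ODp x z)

end HD.SD
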