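import Pool.Agent.H98.SD.Asm5
import Pool.Agent.H98.SD.TargetsG

/-!
# MP_e37c09_lc, SecondDichotomy: the final form with the measurability of the successor
-/

open Ordinal Cardinal Order Set
open scoped ZFSet

universe u

namespace HD.SD

open HD.NF (w0)
open HD.HV (NMeas)

theorem cm_of_nmeas {N : ZFSet.{u} → Prop} {κ : Ordinal.{u}} {U : ZFSet.{u}}
    (h : NMeas N κ U) : CM N κ U := ⟨h.inN, h.sub, h.ultra, h.up, h.nonpr, h.compl⟩

theorem cm_of_msr {A : ZFSet.{u} → Prop} {L M : Cardinal.{u}} (hL : ℵ₀ < L) (hM : M.IsRegular)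
    (hML : M < L) (h : ∃ τ T, MsrM A M.ord L τ T) : ∃ U, CM (NC A) (succ L).ord U := by
  obtain ⟨τ, T, hT⟩ := h
  have h0 : 0 < τ := by
    rcases eq_zero_or_pos τ with h | h
    · exfalso
      have h1 := All.vc M (succ L).ord hM (by rw [cof_succ hL]; exact hML.trans (lt_succ L))
      refine hT.cov (Pos.mono' h1 fun b _ _ i hi => ?_)
      rw [h] at hi
      exact absurd hi not_lt_zero
    · exact h
  exact ⟨_, cm_of_nmeas (hT.nrm 0 h0)⟩

theorem asm6 (r : R5.{u}) (hNMX : T_NMX.{u}) : T_MAIN6.{u} := by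
  obtain ⟨h1, h2⟩ := asm5 r
  refine ⟨fun L h M hMr hML hR => ?_, h2⟩
  have hL := slc_unc h
  obtain ⟨g1, g2, g3⟩ := h1 L h M hMr hML hR
  refine ⟨⟨?_, fun hn => g1.2 fun hm => hn (cm_of_msr hL hMr hML hm)⟩, g1, g2,
    fun x hx => ⟨⟨?_, fun hn => (g3 x hx).2 fun hm => hn (cm_of_msr hL hMr hML hm)⟩, g3 x hx⟩⟩
  · rintro ⟨x, hx, hz⟩
    exact hNMX L hL _ x hx (fun y hy => hz y hy) hz
  · intro hz
    refine hNMX L hL _ x rfl (fun y hy => ?_) hz
    have hy' : y = x := hy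
    rw [hy']
    exact Pool.Agent.H45.NF.ODp.of_dz (Q := fun v => v 0 = v 1) (DZ.eq 0 1) fun _ => Iff.rfl

end HD.SD
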