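import Pool.Agent.H98.SD.TargetsG

/-!
# MP_e37c09_lc: subsets of a strong limit cardinal of cofinality ω. The equivalence with the
successor
-/

open Ordinal Cardinal Order Set
open scoped ZFSet

universe u v

namespace HD.SD

open HD.NF (w0)
open HD.HV (NMeas)

/-! ## Statement-level definition -/

/-- The successor of `L` is the successor of `L` in HOD with the parameter `x`: each ordinal `β`
between `L` and its successor is the image of `L` under a function which is definable from ordinals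
and `x`. -/
def SuX (L : Cardinal.{u}) (x : ZFSet.{u}) : Prop := ∀ β, L.ord < β → β < (succ L).ord →
  ∃ f, NF.ODp x f ∧ ZFSet.IsFunc L.ord.toZFSet β.toZFSet f ∧
    ∀ b < β, ∃ a < L.ord, ZFSet.pair a.toZFSet b.toZFSet ∈ f

/-! ## Targets -/

/-- SCX. If the successor of `L` is its successor in HOD with the parameter `x` then there is an
injection. -/
def T_SCX : Prop := ∀ L : Cardinal.{u}, ℵ₀ < L → ∀ x, SuX L x → ∃ F, NF.ODp x F ∧
  ZFSet.IsFunc (succ L).ord.toZFSet (ZFSet.powerset L.ord.toZFSet) F ∧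
    ∀ (a b : Ordinal.{u}) (z : ZFSet.{u}), a < b → b < (succ L).ord →
      ZFSet.pair a.toZFSet z ∈ F → ZFSet.pair b.toZFSet z ∉ F

/-- SCY. If all subsets of `L` are definable from ordinals and `x` then the successor of `L` is
correct. -/
def T_SCY : Prop := ∀ L : Cardinal.{u}, ℵ₀ < L → ∀ x,
  (∀ z, z ⊆ L.ord.toZFSet → NF.ODp x z) → SuX L x

/-- The theorem. -/
def T_MAIN7 : Prop :=
  (∀ L : Cardinal.{u}, SLC ω L → ∀ M : Cardinal.{u}, M.IsRegular → M < L → RflM M.ord L →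
    (∀ x, Bde L x →
      ((∀ z, z ⊆ L.ord.toZFSet → NF.ODp x z) ↔ SuX L x) ∧
      ((∀ z, z ⊆ L.ord.toZFSet → NF.ODp x z) ↔ ¬ ∃ U, CM (NC fun y => y = x) (succ L).ord U) ∧
      ((∀ z, z ⊆ L.ord.toZFSet → NF.ODp x z) ↔
        ¬ ∃ τ T, MsrM (fun y => y = x) M.ord L τ T)) ∧
    (WOP L ↔ ¬ ∃ U, CM (NC fun y => y ⊆ L.ord.toZFSet) (succ L).ord U) ∧
    (WOP L ↔ ¬ ∃ τ T, MsrM (fun y => y ⊆ L.ord.toZFSet) M.ord L τ T) ∧
    (WOP L ↔ ¬ NoInj L)) ∧
  ∀ δ : Ordinal.{u}, Extendible δ → ∀ L : Cardinal.{u}, SLC δ L →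
    SLC ω L ∧ (∀ M : Cardinal.{u}, M.IsRegular → M.ord < δ → M < L ∧ RflM M.ord L) ∧
      (CaseA δ → WOP L ∧ ∀ x, (∀ m < L.ord, ∀ z, z ⊆ m.toZFSet → NF.ODp x z) →
        ∀ z, z ⊆ L.ord.toZFSet → NF.ODp x z)

end HD.SD
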