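import Pool.Agent.H98.SD.Asm6
import Pool.Agent.H98.SD.TargetsH

/-!
# MP_e37c09_lc, SecondDichotomy: the final form with the successor
-/

open Ordinal Cardinal Order Set
open scoped ZFSet

universe u

namespace HD.SD

theorem asm7 (r : R5.{u}) (hNMX : T_NMX.{u}) (hSCX : T_SCX.{u}) (hSCY : T_SCY.{u}) :
    T_MAIN7.{u} := by
  obtain ⟨h1, h2⟩ := asm6 r hNMX
  refine ⟨fun L h M hMr hML hR => ?_, h2⟩
  have hL := slc_unc h
  obtain ⟨g0, g1, g2, g3⟩ := h1 L h M hMr hML hR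
  refine ⟨fun x hx => ⟨⟨fun hz => hSCY L hL x hz, fun hs => ?_⟩, g3 x hx⟩, g0, g1, g2⟩
  refine (g3 x hx).2.2 fun ⟨τ, T, hT⟩ => ?_
  obtain ⟨F, f1, f2, f3⟩ := hSCX L hL x hs
  obtain ⟨a, b, z, e1, e2, e3, e4⟩ := r.NIM L hL M hMr hML _ τ T hT x F rfl f1 f2
  exact f3 a b z e1 e2 e3 e4

end HD.SD
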