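import Pool.Agent.H98.SD.Asm5
import Pool.Agent.H98.SD.TargetsK

/-!
# MP_e37c09_lc, SecondDichotomy: the assembly for all regular cardinals `K > L`
-/

open Ordinal Cardinal Order Set
open scoped ZFSet

universe u

namespace HD.SD

open HD.NF (w0)
open HD.HV (NMeas)

/-- the rows for `K` -/
structure RK : Prop where
  DXD : T_DXD.{u}
  ALK : T_ALK.{u}
  ATK : T_ATK.{u}
  SEK : T_SEK.{u}
  PFK : T_PFK.{u}
  MEK : T_MEK.{u}
  UNK : T_UNK.{u}
  UFK : T_UFK.{u}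
  CVK : T_CVK.{u}
  RFK : T_RFK.{u}

/-- the measures from the atoms -/
theorem msrK_of_ind (r : RK.{u}) {en : Ordinal.{u} → ZFSet.{u}} (hen : EN en) {K L : Cardinal.{u}}
    (hK : K.IsRegular) (hL : ℵ₀ < L) (hLK : L < K) {μ : Ordinal.{u}} (A : ZFSet.{u} → Prop)
    (hA : Gp A) {x₀ : ZFSet.{u}}
    (hx₀ : A x₀) {τ : Ordinal.{u}} (hτ : τ < L.ord) {T : Ordinal.{u} → Set Ordinal.{u}}
    (t1 : ∀ i < τ, Pos μ K.ord (T i))
    (t2 : ∀ i < τ, ∀ k < τ, ∀ b, b ∈ T i → b ∈ T k → i = k)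
    (t3 : ¬ Pos μ K.ord {b | ∀ i < τ, b ∉ T i})
    (t4 : ∀ i < τ, NF.ODp x₀ (os K.ord (T i)))
    (t5 : ∀ y, A y → ∀ i < τ, IndK en μ K y (T i)) : ∃ τ T, MsrK A μ K L τ T := by
  refine ⟨τ, T, hτ, t1, t2, t3, ⟨x₀, hx₀, t4⟩, fun i hi => ?_, fun i hi y F hy hF hf => ?_⟩
  · exact r.MEK A hA K hK (hL.trans hLK) μ (T i) ⟨x₀, hx₀, t4 i hi⟩ (t1 i hi)
      fun y B hy hB => r.SEK en hen K hK (hL.trans hLK) μ y (T i) (t5 y hy i hi) B hB
  · exact r.PFK en hen K L hK hL hLK μ y (T i) (t5 y hy i hi) F hF hf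

theorem asm8 (r : R5.{u}) (r' : RK.{u}) : T_MAIN8.{u} := by
  obtain ⟨en, hen⟩ := All.en.{u}
  obtain ⟨t, p1, p2, p3⟩ := All.pr.{u}
  have ht : PF t := ⟨p1, p2, p3⟩
  refine ⟨fun L h M hMr hML K hK hLK hR => ?_, fun L h μ hR => ?_, fun δ hδ L h => ?_⟩
  · have hL := slc_unc h
    have hcof : ℵ₀ < K.ord.cof := by
      rw [hK.cof_ord]
      exact hL.trans hLK
    refine ⟨?_, fun x hx => ?_⟩
    · by_cases hA : ∀ x, Cdd t L x → ∃ m < L.ord, ¬ SplM en M.ord K.ord x m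
      · obtain ⟨M₀, h0, h1, h2⟩ := r'.UNK en t L (stg hen ht h) M.ord K.ord hA
        obtain ⟨x, hx, hall⟩ := r'.ALK en t L (stg hen ht h) K hK hLK M₀ h0 h1 M.ord h2
        obtain ⟨τ, hτ, T, t1, t2, t3, t4, t5⟩ :=
          r'.ATK en t L (stg hen ht h) K hK hLK M₀ h0 h1 M.ord (dec t) x
            ⟨r'.DXD t ht, hx.all⟩ (h2 x hx.sub)
        exact Or.inr (msrK_of_ind r' hen hK hL hLK _ (gp_sub L) (x₀ := x) hx.sub hτ t1 t2 t3 t4
          fun y hy i hi => t5 y (hall y hy) i hi)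
      · push Not at hA
        obtain ⟨x, hx, hs⟩ := hA
        obtain ⟨x', hx', hc, hxx⟩ := r.CDC en t L (stg hen ht h) h.cof x hx.sub
        obtain ⟨P, hP, hF⟩ := r'.UFK en hen M.ord K L x' fun m hm =>
          r.TRM en hen x x' hxx M.ord _ m (hs m hm)
        exact Or.inl ⟨x', hx'.sub, r.CL2 en t L (stg hen ht h) h.cof x' hx'
          (r'.CVK L h K M.ord hR x' hc P hP hF)⟩
    · obtain ⟨⟨D, hD⟩, hc⟩ := r.BDE en t L (stg hen ht h) h.cof x hx
      by_cases hA : ∀ m < L.ord, SplM en M.ord K.ord x m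
      · obtain ⟨P, hP, hF⟩ := r'.UFK en hen M.ord K L x hA
        exact Or.inl (r.CLE en t L (stg hen ht h) h.cof D x hD
          (r'.CVK L h K M.ord hR x hc P hP hF))
      · push Not at hA
        obtain ⟨m, hm, hs⟩ := hA
        have hmc : m.card < L := Cardinal.lt_ord.1 hm
        have hsc : succ m.card < L :=
          (succ_le_of_lt (Cardinal.cantor m.card)).trans_lt (h.lim _ hmc)
        obtain ⟨τ, hτ, T, t1, t2, t3, t4, t5⟩ :=
          r'.ATK en t L (stg hen ht h) K hK hLK (max ℵ₀ (succ m.card)) (le_max_left _ _)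
            (max_lt hL hsc) M.ord D x hD fun hs' => hs (hs'.mono
              ((Cardinal.lt_ord.2 (lt_succ m.card)).le.trans
                (Cardinal.ord_le_ord.2 (le_max_right _ _))))
        refine Or.inr (msrK_of_ind r' hen hK hL hLK _ (gp_eq x) (x₀ := x) rfl hτ t1 t2 t3 t4
          fun y hy i hi => ?_)
        have hy' : y = x := hy
        rw [hy']
        exact t5 x (fun c => ⟨c, (r.EQM M.ord _ hcof).1 _⟩) i hi
  · have hL := slc_unc h
    intro X hX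
    obtain ⟨β, h1, h2, h3⟩ := hR X hX
    refine ⟨β, h1, h2, ?_, h3⟩
    have hle : β.cof ≤ L := by
      have e1 : β.card < succ L := Cardinal.lt_ord.1 h1
      exact (Ordinal.cof_le_card β).trans (Order.lt_succ_iff.1 e1)
    refine lt_of_le_of_ne hle fun he => ?_
    have hreg : β.cof.ord.cof = β.cof := Ordinal.cof_ord_cof β
    rw [he, h.cof] at hreg
    exact absurd hL (by rw [hreg]; exact lt_irrefl _)
  · obtain ⟨η, -, θ, j, hE⟩ := All.xa δ hδ 0
    obtain ⟨D, hD, -, -, hD0⟩ := All.xb δ η θ j hE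
    have hω : ω < δ := by
      rw [hD, Cardinal.lt_ord, Ordinal.card_omega0]
      exact hD0
    exact ⟨⟨h.lim, h.cof, hω.trans h.lt⟩, fun M hM hMδ =>
      ⟨Cardinal.ord_lt_ord.1 (hMδ.trans h.lt), fun K hK hLK => r'.RFK δ hδ L h M hM hMδ K hK hLK⟩⟩

end HD.SD
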