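import Pool.Agent.H98.SD.Asm7
import Pool.Agent.H98.SD.Asm8

/-!
# MP_e37c09_lc, SecondDichotomy: the final statement
-/

open Ordinal Cardinal Order Set
open scoped ZFSet

universe u

namespace HD.SD

/-- The theorem. -/
def T_MAIN9 : Prop :=
  (∀ L : Cardinal.{u}, SLC ω L → ∀ M : Cardinal.{u}, M.IsRegular → M < L →
    ∀ K : Cardinal.{u}, K.IsRegular → L < K → RflK M.ord K L →
      (WOP L ∨ ∃ τ T, MsrK (fun y => y ⊆ L.ord.toZFSet) M.ord K L τ T) ∧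
      ∀ x, Bde L x → (∀ z, z ⊆ L.ord.toZFSet → NF.ODp x z) ∨
        ∃ τ T, MsrK (fun y => y = x) M.ord K L τ T) ∧
  (∀ L : Cardinal.{u}, SLC ω L → ∀ M : Cardinal.{u}, M.IsRegular → M < L →
    RflK M.ord (succ L) L →
      (WOP L ↔ ¬ ∃ U, CM (NC fun y => y ⊆ L.ord.toZFSet) (succ L).ord U) ∧
      (WOP L ↔ ¬ NoInj L) ∧
      ∀ x, Bde L x →
        ((∀ z, z ⊆ L.ord.toZFSet → NF.ODp x z) ↔ SuX L x) ∧
        ((∀ z, z ⊆ L.ord.toZFSet → NF.ODp x z) ↔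
          ¬ ∃ U, CM (NC fun y => y = x) (succ L).ord U)) ∧
  ∀ δ : Ordinal.{u}, Extendible δ → ∀ L : Cardinal.{u}, SLC δ L →
    SLC ω L ∧
    (∀ M : Cardinal.{u}, M.IsRegular → M.ord < δ → M < L ∧
      ∀ K : Cardinal.{u}, K.IsRegular → L < K → RflK M.ord K L) ∧
    (CaseA δ → WOP L ∧ ∀ x, (∀ m < L.ord, ∀ z, z ⊆ m.toZFSet → NF.ODp x z) →
      ∀ z, z ⊆ L.ord.toZFSet → NF.ODp x z)

theorem asm9 (h7 : T_MAIN7.{u}) (h8 : T_MAIN8.{u}) : T_MAIN9.{u} := by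
  refine ⟨h8.1, fun L h M hMr hML hR => ?_, fun δ hδ L h => ?_⟩
  · have hR' : RflM M.ord L := fun X hX => by
      obtain ⟨β, h1, h2, -, h3⟩ := hR X hX
      exact ⟨β, h1, h2, h3⟩
    obtain ⟨g1, g2, -, g4⟩ := h7.1 L h M hMr hML hR'
    exact ⟨g2, g4, fun x hx => ⟨(g1 x hx).1, (g1 x hx).2.1⟩⟩
  · obtain ⟨e1, e2⟩ := h8.2.2 δ hδ L h
    obtain ⟨-, -, e3⟩ := h7.2 δ hδ L h
    exact ⟨e1, e2, e3⟩

end HD.SD
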