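import Pool.Agent.H98.SD.TRE
import Pool.Agent.H81.SD.SCX
import Pool.Agent.H54.SD.NMX

/-!
# SecondDichotomy (MP_e37c09_lc): parameters in small ordinal definable sets
-/

open Ordinal Cardinal Order Set
open scoped ZFSet

universe u

namespace HD.SD

/-- `x` is an element of an ordinal definable set with fewer than `L` elements. -/
def SmX (L : Cardinal.{u}) (x : ZFSet.{u}) : Prop := ∃ B : ZFSet.{u}, OD B ∧ x ∈ B ∧
  ∃ τ < L.ord, ∃ g : Ordinal.{u} → ZFSet.{u}, ∀ y ∈ B, ∃ i < τ, g i = y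

/-- quantification over all sets -/
theorem DX.allS {P : ZFSet.{u} → (ℕ → Ordinal.{u}) → Prop} (h : DX P) :
    DO fun w => ∀ x, P x w := by
  obtain ⟨Q, hQ, h⟩ := h
  refine ⟨fun v => ∀ x, Q (cons x v), DZ.all (R := fun x v => Q (cons x v)) ?_,
    fun w => forall_congr' fun x => h x w⟩
  refine hQ.congr fun v => ?_
  have : cons (v 0) (fun n => v (n + 1)) = v := by
    funext n
    rcases n with _ | n <;> rfl
  rw [this]

/-- BEX. In the first case for a parameter in a small ordinal definable set there is an injection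
which is definable from ordinals. -/
def T_BEX : Prop := ∀ L : Cardinal.{u}, ℵ₀ < L → (∀ c < L, (2 : Cardinal.{u}) ^ c < L) →
  ∀ x, SmX L x → (∀ z, z ⊆ L.ord.toZFSet → NF.ODp x z) → ∃ F, NF.ODp ∅ F ∧
    ZFSet.IsFunc (succ L).ord.toZFSet (ZFSet.powerset L.ord.toZFSet) F ∧
      ∀ (a b : Ordinal.{u}) (z : ZFSet.{u}), a < b → b < (succ L).ord →
        ZFSet.pair a.toZFSet z ∈ F → ZFSet.pair b.toZFSet z ∉ F

end HD.SD

namespace Pool.Agent.H98.SD.B

open _root_.HD _root_.HD.SD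
open _root_.HD.NF (w0)

theorem few_pow {L : Cardinal.{u}} (hlim : ∀ c < L, (2 : Cardinal.{u}) ^ c < L)
    {τ : Ordinal.{u}} (hτ : τ < L.ord) (E : Set Ordinal.{u}) (q : Ordinal.{u} → Set Ordinal.{u})
    (hq : ∀ e ∈ E, ∀ e' ∈ E, (∀ i < τ, (i ∈ q e ↔ i ∈ q e')) → e = e') : Few L.ord E := by
  classical
  have hS : #(Set τ.ToType) < L := by
    rw [Cardinal.mk_set, Cardinal.mk_toType]
    exact hlim _ (Cardinal.lt_ord.1 hτ)
  have hρ : (#(Set τ.ToType)).ord < L.ord := Cardinal.ord_lt_ord.2 hS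
  obtain ⟨f⟩ := Cardinal.eq.1 (Cardinal.mk_ord_toType #(Set τ.ToType))
  let tr : Ordinal.{u} → Set τ.ToType := fun e => {i | (ToType.mk.symm i).1 ∈ q e}
  refine ⟨_, hρ, fun a => if h : ∃ e, e ∈ E ∧ ∃ ha : a < (#(Set τ.ToType)).ord,
    f (ToType.mk ⟨a, ha⟩) = tr e then Classical.choose h else 0, fun e he => ?_⟩
  refine ⟨(ToType.mk.symm (f.symm (tr e))).1, (ToType.mk.symm (f.symm (tr e))).2, ?_⟩
  have h : ∃ e', e' ∈ E ∧ ∃ ha : (ToType.mk.symm (f.symm (tr e))).1 < (#(Set τ.ToType)).ord,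
      f (ToType.mk ⟨(ToType.mk.symm (f.symm (tr e))).1, ha⟩) = tr e' := by
    refine ⟨e, he, (ToType.mk.symm (f.symm (tr e))).2, ?_⟩
    simp
  have h0 : (if h : ∃ e', e' ∈ E ∧ ∃ ha : (ToType.mk.symm (f.symm (tr e))).1 <
      (#(Set τ.ToType)).ord, f (ToType.mk ⟨(ToType.mk.symm (f.symm (tr e))).1, ha⟩) = tr e' then
      Classical.choose h else 0) = Classical.choose h := dif_pos h
  refine h0.trans ?_
  obtain ⟨h1, ha, h2⟩ := Classical.choose_spec h
  have h3 : tr e = tr (Classical.choose h) := by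
    rw [← h2]
    simp
  refine (hq _ he _ h1 fun i hi => ?_).symm
  have h4 : (ToType.mk ⟨i, hi⟩ ∈ tr e) ↔ (ToType.mk ⟨i, hi⟩ ∈ tr (Classical.choose h)) := by
    rw [← h3]
  simpa [tr] using h4

theorem pf_BEX (hDXS : T_DXS.{u}) (hDXN : T_DXN.{u}) (hCOM : T_COM.{u}) (hODY : T_ODY.{u}) :
    T_BEX.{u} := by
  intro L hL hlim x hx hall
  obtain ⟨en, hen⟩ := All.en.{u}
  obtain ⟨t, p1, p2, p3⟩ := All.pr.{u}
  have ht : PF t := ⟨p1, p2, p3⟩
  obtain ⟨B, hB, hxB, τ, hτ, g, hg⟩ := hx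
  have h0 := (hDXS en hen).1
  have hL0 : (0 : Ordinal.{u}) < L.ord := by
    have := Cardinal.ord_lt_ord.2 hL
    exact lt_of_le_of_lt bot_le this
  have hBx : DX.{u} fun y _ => y ∈ B := by
    have hb : DZ.{u} fun v => v 0 ∈ B := DZ.od (R := fun k v => v 0 ∈ k) hB (DZ.mem 1 0)
    exact DX.z hb
  have hz : ∀ j : ℕ, DX.{u} fun y w => (0 : Ordinal.{u}) ∈ Sc en y (w j) := fun j =>
    DX.sub (S := fun a y w => a ∈ Sc en y (w j)) 0 (h0.ren fun n => if n = 0 then 0 else j + 1)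
  -- the least codes of the subsets of `B`
  let E : Set Ordinal.{u} := {e | ∀ e', e' < e → ¬ ∀ y, y ∈ B → (0 ∈ Sc en y e ↔ 0 ∈ Sc en y e')}
  have hE : DO.{u} fun w => w 0 ∈ E := by
    refine DO.all (R := fun e' w => e' < w 0 → ¬ ∀ y, y ∈ B →
      (0 ∈ Sc en y (w 0) ↔ 0 ∈ Sc en y e')) ?_
    refine (DO.lt 0 1).imp (DO.not ?_)
    exact DX.allS (P := fun y w => y ∈ B → (0 ∈ Sc en y (w 1) ↔ 0 ∈ Sc en y (w 0)))
      (hBx.imp ((hz 1).iff (hz 0)))
  have hEf : Few L.ord E := by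
    refine few_pow hlim hτ E (fun e => {i | 0 ∈ Sc en (g i) e}) fun e he e' he' h => ?_
    have h1 : ∀ y, y ∈ B → (0 ∈ Sc en y e ↔ 0 ∈ Sc en y e') := fun y hy => by
      obtain ⟨i, hi, rfl⟩ := hg y hy
      exact h i hi
    rcases lt_trichotomy e e' with h2 | h2 | h2
    · exact absurd (fun y hy => (h1 y hy).symm) (he' e h2)
    · exact h2
    · exact absurd h1 (he e' h2)
  obtain ⟨ρ, hρ, e1, e2⟩ := enum hEf
  -- the code of the `l`-th section
  let Cd : Ordinal.{u} → Ordinal.{u} → Ordinal.{u} → Prop := fun c e l =>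
    ∀ y, y ∈ B → (0 ∈ Sc en y e ↔ l ∈ Sc en y c)
  have hCd : ∀ c l, ∃ n < L.ord, ∃ e, nth E n e ∧ Cd c e l := by
    intro c l
    have hP : DX.{u} fun y w => w 1 ∈ Sc en y (w 2) := h0.ren fun n => if n = 0 then 1 else 2
    obtain ⟨e0, he0⟩ := hCOM en hen (fun y w => w 1 ∈ Sc en y (w 2)) hP B.rank 1
      (fun n => if n = 0 then l else c)
    have hne : ({e | Cd c e l} : Set Ordinal.{u}).Nonempty := by
      refine ⟨e0, fun y hy => ?_⟩
      have hyV : y ∈ V_ B.rank := by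
        rw [ZFSet.mem_vonNeumann]
        exact ZFSet.rank_lt_of_mem hy
      rw [he0 y hyV 0]
      exact ⟨fun h => h.2, fun h => ⟨zero_lt_one, h⟩⟩
    have hm : Cd c (sInf {e | Cd c e l}) l := csInf_mem hne
    have hEm : sInf {e | Cd c e l} ∈ E := fun e' he' h => by
      have : Cd c e' l := fun y hy => (h y hy).symm.trans (hm y hy)
      exact absurd (csInf_le' (s := {e | Cd c e l}) this) (not_le.2 he')
    obtain ⟨n, hn, hne⟩ := e2 _ hEm
    exact ⟨n, hn.trans hρ, _, hne, hm⟩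
  -- the sets
  have hnth : DX.{u} fun _ w => nth {b | b ∈ E} (w 0) (w 1) := hDXN (fun _ w => w 0 ∈ E) (DX.o hE)
  have hZ : DX.{u} fun (_ : ZFSet.{u}) w => ∃ l, ∃ n, ∃ e, w 0 = t l n ∧ nth {b | b ∈ E} n e ∧
      Cd (w 1) e l := by
    refine DX.ex (S := fun l _ w => ∃ n, ∃ e, w 0 = t l n ∧ nth {b | b ∈ E} n e ∧
      Cd (w 1) e l) ?_
    refine DX.ex (S := fun n _ w => ∃ e, w 1 = t (w 0) n ∧ nth {b | b ∈ E} n e ∧
      Cd (w 2) e (w 0)) ?_
    refine DX.ex (S := fun e _ w => w 2 = t (w 1) (w 0) ∧ nth {b | b ∈ E} (w 0) e ∧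
      Cd (w 3) e (w 1)) ?_
    refine DX.and ?_ (DX.and ?_ ?_)
    · exact DX.o (ht.dz.ren fun n => if n = 0 then 2 else if n = 1 then 1 else 3)
    · exact hnth.ren fun n => if n = 0 then 1 else 0
    · refine DX.o (DX.allS (P := fun y w => y ∈ B → (0 ∈ Sc en y (w 0) ↔ w 2 ∈ Sc en y (w 4))) ?_)
      exact hBx.imp ((hz 0).iff (h0.ren fun n => if n = 0 then 2 else 4))
  have hlg := Pool.Agent.H81.SD.large hen hall
  have hc : ∀ i, ∃ c, i < (succ L).ord → nth {c | Pool.Agent.H81.SD.Jt en L.ord x c} i c := by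
    intro i
    by_cases hi : i < (succ L).ord
    · obtain ⟨c, hc⟩ := hlg i hi
      exact ⟨c, fun _ => hc⟩
    · exact ⟨0, fun h => absurd h hi⟩
  choose c hc using hc
  refine Pool.Agent.H81.SD.inj_of_large hDXS hDXN hen (Pool.Agent.H81.SD.large_of hen
    (fun i => {v | ∃ l, ∃ n, ∃ e, v = t l n ∧ nth {b | b ∈ E} n e ∧ Cd (c i) e l})
    (fun i _ => hODY _ hZ ∅ L.ord (fun _ => c i)) fun i hi k hk h => ?_)
  -- equal sets give equal traces
  have htr : ∀ l < L.ord, (l ∈ Sc en x (c i) ↔ l ∈ Sc en x (c k)) := by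
    intro l hl
    obtain ⟨n, hn, e, h1, h2⟩ := hCd (c i) l
    have h3 := (h (t l n) (ht.lt L hL.le l hl n hn)).1 ⟨l, n, e, rfl, h1, h2⟩
    obtain ⟨l', n', e', h4, h5, h6⟩ := h3
    obtain ⟨rfl, rfl⟩ := ht.inj _ _ _ _ h4
    obtain rfl := nth_val h1 h5
    exact (h2 x hxB).symm.trans (h6 x hxB)
  have hci := hc i hi
  have hck := hc k hk
  rcases lt_trichotomy (c i) (c k) with h1 | h1 | h1
  · obtain ⟨a, ha, hne⟩ := hck.1 _ h1
    exact absurd (htr a ha).symm hne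
  · rw [h1] at hci
    exact nth_idx hci hck
  · obtain ⟨a, ha, hne⟩ := hci.1 _ h1
    exact absurd (htr a ha) hne

end Pool.Agent.H98.SD.B
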