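import Pool.Agent.H97.HV.Targets

/-!
# MP_e37c09_lc: subsets of a strong limit cardinal of cofinality ω above an extendible cardinal.
Definitions
-/

open Ordinal Cardinal Order Set
open scoped ZFSet

universe u

namespace HD.SD

open HD.NF (w0)

/-! ## Statement-level definitions -/

/-- `L` is a strong limit cardinal of cofinality `ω`, and it is greater than `δ`. -/
structure SLC (δ : Ordinal.{u}) (L : Cardinal.{u}) : Prop where
  lim : ∀ c < L, (2 : Cardinal.{u}) ^ c < L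
  cof : L.ord.cof = ℵ₀
  lt : δ < L.ord

/-- All subsets of `L` are definable from ordinals and one subset of `L`. -/
def WOP (L : Cardinal.{u}) : Prop := ∃ x, x ⊆ L.ord.toZFSet ∧
  ∀ z, z ⊆ L.ord.toZFSet → NF.ODp x z

/-- No one-to-one function from the successor of `L` to the power set of `L` is definable from
ordinals and a subset of `L`. -/
def NoInj (L : Cardinal.{u}) : Prop := ∀ y F : ZFSet.{u}, y ⊆ L.ord.toZFSet → NF.ODp y F →
  ZFSet.IsFunc (succ L).ord.toZFSet (ZFSet.powerset L.ord.toZFSet) F →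
    ∃ (a b : Ordinal.{u}) (z : ZFSet.{u}), a < b ∧ b < (succ L).ord ∧
      ZFSet.pair a.toZFSet z ∈ F ∧ ZFSet.pair b.toZFSet z ∈ F

/-- The sets `T i`, `i < τ`, of ordinals below `κ`, the successor of `L`, are disjoint, they are
stationary in the points of cofinality `ω`, they contain almost all of these points, and each set
and each function from `κ` to the power set of `L` and each regressive function on `κ` which is
definable from ordinals and a subset of `L` is constant on almost all of `T i`, for each `i`. -/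
structure Msr (L : Cardinal.{u}) (τ : Ordinal.{u}) (T : Ordinal.{u} → Set Ordinal.{u}) : Prop where
  lt : τ < L.ord
  pos : ∀ i < τ, Pos w0 (succ L).ord (T i)
  dis : ∀ i < τ, ∀ k < τ, ∀ b, b ∈ T i → b ∈ T k → i = k
  cov : ¬ Pos w0 (succ L).ord {b | ∀ i < τ, b ∉ T i}
  df : ∃ x, x ⊆ L.ord.toZFSet ∧ ∀ i < τ, NF.ODp x (os (succ L).ord (T i))
  set : ∀ i < τ, ∀ y A : ZFSet.{u}, y ⊆ L.ord.toZFSet → NF.ODp y A →
    ¬ Pos w0 (succ L).ord {b | b ∈ T i ∧ b.toZFSet ∈ A} ∨
      ¬ Pos w0 (succ L).ord {b | b ∈ T i ∧ b.toZFSet ∉ A}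
  fn : ∀ i < τ, ∀ y F : ZFSet.{u}, y ⊆ L.ord.toZFSet → NF.ODp y F →
    ZFSet.IsFunc (succ L).ord.toZFSet (ZFSet.powerset L.ord.toZFSet) F →
      ∃ z, ¬ Pos w0 (succ L).ord {b | b ∈ T i ∧ ZFSet.pair b.toZFSet z ∉ F}
  reg : ∀ i < τ, ∀ y F : ZFSet.{u}, y ⊆ L.ord.toZFSet → NF.ODp y F →
    ZFSet.IsFunc (succ L).ord.toZFSet (succ L).ord.toZFSet F →
      (∀ a b : Ordinal.{u}, ZFSet.pair a.toZFSet b.toZFSet ∈ F → 0 < a → b < a) →
        ∃ c : Ordinal.{u}, ¬ Pos w0 (succ L).ord {b | b ∈ T i ∧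
          ZFSet.pair b.toZFSet c.toZFSet ∉ F}

/-! ## Predicates of a set and of ordinals which are definable from ordinals -/

/-- `P`, a predicate of a set and of sequences of ordinals, is definable over `V` from ordinals. -/
def DX (P : ZFSet.{u} → (ℕ → Ordinal.{u}) → Prop) : Prop :=
  ∃ Q, DZ Q ∧ ∀ x w, P x w ↔ Q (cons x (ov w))

section closure

variable {P R : ZFSet.{u} → (ℕ → Ordinal.{u}) → Prop}

theorem DX.congr (h : DX P) (e : ∀ x w, R x w ↔ P x w) : DX R := by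
  obtain ⟨Q, hQ, h⟩ := h
  exact ⟨Q, hQ, fun x w => (e x w).trans (h x w)⟩

theorem DX.not (h : DX P) : DX fun x w => ¬ P x w := by
  obtain ⟨Q, hQ, h⟩ := h
  exact ⟨_, hQ.not, fun x w => not_congr (h x w)⟩

theorem DX.and (h : DX P) (h' : DX R) : DX fun x w => P x w ∧ R x w := by
  obtain ⟨Q, hQ, h⟩ := h
  obtain ⟨Q', hQ', h'⟩ := h'
  exact ⟨_, hQ.and hQ', fun x w => and_congr (h x w) (h' x w)⟩

theorem DX.or (h : DX P) (h' : DX R) : DX fun x w => P x w ∨ R x w :=
  (h.not.and h'.not).not.congr fun _ _ => by tauto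

theorem DX.imp (h : DX P) (h' : DX R) : DX fun x w => P x w → R x w :=
  (h.and h'.not).not.congr fun _ _ => by tauto

theorem DX.iff (h : DX P) (h' : DX R) : DX fun x w => P x w ↔ R x w :=
  ((h.imp h').and (h'.imp h)).congr fun _ _ => by tauto

/-- a definable predicate of ordinals -/
theorem DX.o {A : (ℕ → Ordinal.{u}) → Prop} (hA : DO A) : DX fun _ w => A w := by
  obtain ⟨Q, hQ, h⟩ := hA
  exact ⟨fun v => Q (fun n => v (n + 1)), hQ.ren _, fun x w => h w⟩

/-- a definable predicate of sets -/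
theorem DX.z {Q : (ℕ → ZFSet.{u}) → Prop} (hQ : DZ Q) : DX fun x w => Q (cons x (ov w)) :=
  ⟨Q, hQ, fun _ _ => Iff.rfl⟩

theorem DX.ren (h : DX P) (σ : ℕ → ℕ) : DX fun x w => P x (fun n => w (σ n)) := by
  obtain ⟨Q, hQ, h⟩ := h
  refine ⟨_, hQ.ren (fun n => if n = 0 then 0 else σ (n - 1) + 1), fun x w => ?_⟩
  refine (h x fun n => w (σ n)).trans ?_
  have : cons x (ov fun n => w (σ n)) =
      fun n => cons x (ov w) (if n = 0 then 0 else σ (n - 1) + 1) := by
    funext n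
    rcases n with _ | n
    · rfl
    · rfl
  rw [this]

/-- `w i` is an element of `x` -/
theorem DX.mem (i : ℕ) : DX.{u} fun x w => (w i).toZFSet ∈ x :=
  ⟨fun v => v (i + 1) ∈ v 0, DZ.mem _ _, fun _ _ => Iff.rfl⟩

theorem dz_isOrd (i : ℕ) : DZ.{u} fun v => (v i).IsOrdinal := (loc_ord i).dz

theorem DX.ex {S : Ordinal.{u} → ZFSet.{u} → (ℕ → Ordinal.{u}) → Prop}
    (h : DX fun x w => S (w 0) x (fun n => w (n + 1))) : DX fun x w => ∃ a, S a x w := by
  obtain ⟨Q, hQ, h⟩ := h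
  refine ⟨fun v => ∃ a, a.IsOrdinal ∧ Q (cons (v 0) (cons a fun n => v (n + 1))),
    DZ.ex (R := fun a v => a.IsOrdinal ∧ Q (cons (v 0) (cons a fun n => v (n + 1))))
      ((dz_isOrd 0).and ?_), fun x w => ?_⟩
  · refine (hQ.ren fun n => if n = 0 then 1 else if n = 1 then 0 else n).congr fun v => ?_
    have : cons (v 1) (cons (v 0) fun n => v (n + 1 + 1)) =
        fun n => v (if n = 0 then 1 else if n = 1 then 0 else n) := by
      funext n
      rcases n with _ | _ | n <;> rfl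
    rw [← this]
  · constructor
    · rintro ⟨a, ha⟩
      refine ⟨a.toZFSet, ZFSet.isOrdinal_toZFSet a, ?_⟩
      have := (h x (cns a w)).1 ha
      rwa [ov_cns] at this
    · rintro ⟨a, ha, hq⟩
      refine ⟨a.rank, ?_⟩
      have h1 : a.rank.toZFSet = a := ha.toZFSet_rank_eq
      have := (h x (cns a.rank w)).2 (by rw [ov_cns, h1]; exact hq)
      exact this

theorem DX.all {S : Ordinal.{u} → ZFSet.{u} → (ℕ → Ordinal.{u}) → Prop}
    (h : DX fun x w => S (w 0) x (fun n => w (n + 1))) : DX fun x w => ∀ a, S a x w :=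
  (DX.ex (S := fun a x w => ¬ S a x w) h.not).not.congr fun _ _ => by push Not; rfl

theorem DX.exLt {S : Ordinal.{u} → ZFSet.{u} → (ℕ → Ordinal.{u}) → Prop} (i : ℕ)
    (h : DX fun x w => S (w 0) x (fun n => w (n + 1))) : DX fun x w => ∃ a < w i, S a x w :=
  DX.ex (S := fun a x w => a < w i ∧ S a x w) ((DX.o (DO.lt 0 (i + 1))).and h)

theorem DX.allLt {S : Ordinal.{u} → ZFSet.{u} → (ℕ → Ordinal.{u}) → Prop} (i : ℕ)
    (h : DX fun x w => S (w 0) x (fun n => w (n + 1))) : DX fun x w => ∀ a < w i, S a x w :=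
  DX.all (S := fun a x w => a < w i → S a x w) ((DX.o (DO.lt 0 (i + 1))).imp h)

/-- substitution of an ordinal for variable `0` -/
theorem DX.sub {S : Ordinal.{u} → ZFSet.{u} → (ℕ → Ordinal.{u}) → Prop} (a : Ordinal.{u})
    (h : DX fun x w => S (w 0) x (fun n => w (n + 1))) : DX (S a) :=
  (DX.ex (S := fun b x w => b = a ∧ S b x w) ((DX.o (DO.eqc 0 a)).and h)).congr
    fun _ _ => by simp

theorem DX.exLtc {S : Ordinal.{u} → ZFSet.{u} → (ℕ → Ordinal.{u}) → Prop} (b : Ordinal.{u})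
    (h : DX fun x w => S (w 0) x (fun n => w (n + 1))) : DX fun x w => ∃ a < b, S a x w :=
  DX.ex (S := fun a x w => a < b ∧ S a x w) ((DX.o (DO.ltc 0 b)).and h)

theorem DX.allLtc {S : Ordinal.{u} → ZFSet.{u} → (ℕ → Ordinal.{u}) → Prop} (b : Ordinal.{u})
    (h : DX fun x w => S (w 0) x (fun n => w (n + 1))) : DX fun x w => ∀ a < b, S a x w :=
  DX.all (S := fun a x w => a < b → S a x w) ((DX.o (DO.ltc 0 b)).imp h)

end closure

/-! ## Sections of ordinal definable sets -/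

/-- the set of ordinals with code `c` and parameter `x` -/
def Sc (en : Ordinal.{u} → ZFSet.{u}) (x : ZFSet.{u}) (c : Ordinal.{u}) : Set Ordinal.{u} :=
  {b | ZFSet.pair x b.toZFSet ∈ en c}

/-- the `i`-th set of ordinals of the family with code `c` and parameter `x` -/
def Sc2 (en : Ordinal.{u} → ZFSet.{u}) (x : ZFSet.{u}) (c i : Ordinal.{u}) : Set Ordinal.{u} :=
  {b | ZFSet.pair x (ZFSet.pair b.toZFSet i.toZFSet) ∈ en c}

/-- `x` splits: there are `m` disjoint sets which are positive at `κ`, and the family is definable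
from ordinals and `x`. -/
def Spl (en : Ordinal.{u} → ZFSet.{u}) (κ : Ordinal.{u}) (x : ZFSet.{u}) (m : Ordinal.{u}) :
    Prop :=
  ∃ c, (∀ i < m, Pos w0 κ (Sc2 en x c i)) ∧
    ∀ b i i', b ∈ Sc2 en x c i → b ∈ Sc2 en x c i' → i = i'

/-- the sets `X` and `Y` are equal up to a null set -/
def Eqv (κ : Ordinal.{u}) (X Y : Set Ordinal.{u}) : Prop := ¬ Pos w0 κ {b | ¬ (b ∈ X ↔ b ∈ Y)}

/-! ## Coding -/

/-- `t` is a definable pairing function. -/
structure PF (t : Ordinal.{u} → Ordinal.{u} → Ordinal.{u}) : Prop where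
  dz : DO fun w => w 2 = t (w 0) (w 1)
  inj : ∀ a b a' b', t a b = t a' b' → a = a' ∧ b = b'
  lt : ∀ C : Cardinal.{u}, ℵ₀ ≤ C → ∀ a < C.ord, ∀ b < C.ord, t a b < C.ord

/-- the `ξ`-th set of ordinals coded by `x` -/
def dec (t : Ordinal.{u} → Ordinal.{u} → Ordinal.{u}) (x : ZFSet.{u}) (ξ : Ordinal.{u}) :
    Set Ordinal.{u} := {a | (t ξ a).toZFSet ∈ x}

/-- Each bounded subset of `L` is among the sets coded by `x`, `x` is a subset of `L`. -/
structure Cdd (t : Ordinal.{u} → Ordinal.{u} → Ordinal.{u}) (L : Cardinal.{u}) (x : ZFSet.{u}) :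
    Prop where
  sub : x ⊆ L.ord.toZFSet
  all : ∀ m < L.ord, ∀ s : Set Ordinal.{u}, ∃ ξ < L.ord, ∀ a < m, (a ∈ dec t x ξ ↔ a ∈ s)

end HD.SD
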