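import Pool.Agent.H98.SD.Lib
import Pool.Agent.H98.SD.TargetsK
import Pool.Agent.H7.HD.Tools2

/-!
# SecondDichotomy (MP_e37c09_lc): recursion with the parameter `x`
-/

open Ordinal Cardinal Order Set
open scoped ZFSet

universe u

namespace Pool.Agent.H98.SD.T

open _root_.HD _root_.HD.SD
open _root_.HD.NF (w0)

/-- comprehension for one parameter -/
theorem com1 (hCOM : T_COM.{u}) {en : Ordinal.{u} → ZFSet.{u}} (hen : EN en) (x : ZFSet.{u})
    {P : ZFSet.{u} → (ℕ → Ordinal.{u}) → Prop} (hP : DX P) (w : ℕ → Ordinal.{u})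
    (κ : Ordinal.{u}) : ∃ c, Sc en x c = {b | P x (cns b w)} ∩ Iio κ := by
  obtain ⟨c, hc⟩ := hCOM en hen P hP (x.rank + 1) κ w
  have hxV : x ∈ V_ (x.rank + 1) := by
    rw [ZFSet.mem_vonNeumann]
    exact lt_add_one _
  refine ⟨c, ?_⟩
  ext b
  rw [hc x hxV b]
  exact and_comm

/-- EBX. Recursion. -/
theorem ebx (hDXS : T_DXS.{u}) (hCOM : T_COM.{u}) {en : Ordinal.{u} → ZFSet.{u}} (hen : EN en)
    (Φ : ZFSet.{u} → Ordinal.{u} → Set Ordinal.{u} → (ℕ → Ordinal.{u}) → Prop)
    (hΦ : DX fun x w => Φ x (w 0) (Sc en x (w 1) ∩ Iio (w 0)) (fun n => w (n + 2))) :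
    DX fun x w => recJ (Φ x) (fun n => w (n + 1)) (w 0) := by
  have h1 := (hDXS en hen).1
  -- the definition by codes
  let Ψ : ZFSet.{u} → Ordinal.{u} → (ℕ → Ordinal.{u}) → Prop := fun p x w => ∃ s,
    (∀ z < x, (z ∈ Sc en p s ↔ Φ p z (Sc en p s ∩ Iio z) w)) ∧ Φ p x (Sc en p s ∩ Iio x) w
  have hΨ : DX fun p w => Ψ p (w 0) (fun n => w (n + 1)) := by
    refine DX.ex (S := fun s p w => (∀ z < w 0, (z ∈ Sc en p s ↔
      Φ p z (Sc en p s ∩ Iio z) (fun n => w (n + 1)))) ∧ Φ p (w 0) (Sc en p s ∩ Iio (w 0))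
        (fun n => w (n + 1))) (DX.and ?_ ?_)
    · refine DX.allLt (S := fun z p w => z ∈ Sc en p (w 0) ↔
        Φ p z (Sc en p (w 0) ∩ Iio z) (fun n => w (n + 2))) 1 (DX.iff ?_ ?_)
      · exact h1
      · refine (hΦ.ren (fun n => if n = 0 then 0 else if n = 1 then 1 else n + 1)).congr
          fun p w => ?_
        simp
    · refine (hΦ.ren (fun n => if n = 0 then 1 else if n = 1 then 0 else n)).congr
          fun p w => ?_
      simp
  have key : ∀ (p : ZFSet.{u}) (w : ℕ → Ordinal.{u}), ∀ x, recJ (Φ p) w x ↔ Ψ p x w := by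
    intro p w x
    induction x using WellFoundedLT.induction with
    | ind x ih =>
      obtain ⟨s, hs⟩ := com1 hCOM hen p hΨ w x
      have hs' : ∀ z < x, (z ∈ Sc en p s ↔ recJ (Φ p) w z) := by
        intro z hz
        rw [hs, ih z hz]
        exact ⟨fun h => h.1, fun h => ⟨h, hz⟩⟩
      have hset : ∀ z ≤ x, {y | y < z ∧ recJ (Φ p) w y} = Sc en p s ∩ Iio z := by
        intro z hz
        ext y
        constructor
        · rintro ⟨h4, h5⟩
          exact ⟨(hs' y (h4.trans_le hz)).2 h5, h4⟩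
        · rintro ⟨h4, h5⟩
          exact ⟨h5, (hs' y (lt_of_lt_of_le h5 hz)).1 h4⟩
      constructor
      · intro h
        refine ⟨s, fun z hz => ?_, ?_⟩
        · rw [hs' z hz, recJ_iff, hset z hz.le]
        · rw [recJ_iff, hset x le_rfl] at h
          exact h
      · rintro ⟨t, ht1, ht2⟩
        have hts : ∀ z < x, (z ∈ Sc en p t ↔ z ∈ Sc en p s) := by
          intro z
          induction z using WellFoundedLT.induction with
          | ind z ih2 =>
            intro hz
            have : Sc en p t ∩ Iio z = Sc en p s ∩ Iio z := by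
              ext y
              constructor
              · rintro ⟨h4, h5⟩
                exact ⟨(ih2 y h5 (lt_trans h5 hz)).1 h4, h5⟩
              · rintro ⟨h4, h5⟩
                exact ⟨(ih2 y h5 (lt_trans h5 hz)).2 h4, h5⟩
            rw [ht1 z hz, this, hs' z hz, recJ_iff, hset z hz.le]
        have : Sc en p t ∩ Iio x = Sc en p s ∩ Iio x := by
          ext y
          constructor
          · rintro ⟨h4, h5⟩
            exact ⟨(hts y h5).1 h4, h5⟩
          · rintro ⟨h4, h5⟩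
            exact ⟨(hts y h5).2 h4, h5⟩
        rw [recJ_iff, hset x le_rfl, ← this]
        exact ht2
  exact hΨ.congr fun p w => key _ _ _

end Pool.Agent.H98.SD.T
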