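import Pool.Agent.H98.SD.BEY

/-!
# MP_e37c09_lc, SecondDichotomy: the final statement with the first alternative
-/

open Ordinal Cardinal Order Set
open scoped ZFSet

universe u

namespace HD.SD

open HD.NF (w0)
open HD.HV (NMeas)

/-- LOD. If not all subsets of `L` are OD_x then the measures are ordinal definable. -/
def T_LOD : Prop := ∀ L : Cardinal.{u}, SLC ω L → ∀ M : Cardinal.{u}, M.IsRegular → M < L →
  ∀ K : Cardinal.{u}, K.IsRegular → L < K → RflK M.ord K L → ∀ x, Bds L x →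
    (∀ z, z ⊆ L.ord.toZFSet → NF.ODp x z) ∨ ∃ τ T, MsrK (fun y => y = ∅) M.ord K L τ T

theorem lod (r : R5.{u}) (r' : RK.{u}) (hTRE : T_TRE.{u}) (hDXS : T_DXS.{u}) (hFWM : T_FWM.{u})
    (hDXP : T_DXP.{u}) (hODY : T_ODY.{u}) : T_LOD.{u} := by
  intro L h M hMr hML K hK hLK hR x hx
  obtain ⟨en, hen⟩ := All.en.{u}
  obtain ⟨t, p1, p2, p3⟩ := All.pr.{u}
  have ht : PF t := ⟨p1, p2, p3⟩
  have hL := slc_unc h
  by_cases hs0 : SplM en M.ord K.ord ∅ L.ord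
  · have hex : NF.ODp x ∅ := hx 0 (by
      exact lt_of_le_of_lt bot_le (Cardinal.ord_lt_ord.2 hL)) ∅ (ZFSet.empty_subset _)
    have hs : SplM en M.ord K.ord x L.ord := r.TRM en hen ∅ x hex M.ord K.ord L.ord hs0
    obtain ⟨c, h1, h2⟩ := id hs
    have h0 : DX.{u} fun x w => w 0 ∈ Sc2 en x (w 2) (w 1) :=
      (hDXS en hen).2.ren fun n => if n = 0 then 0 else if n = 1 then 2 else 1
    have hB : Bde L x := ⟨hx, sgg hFWM hDXP hODY h hR h0 (ξ := c) h1 h2⟩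
    obtain ⟨⟨D, hD⟩, hc⟩ := r.BDE en t L (stg hen ht h) h.cof x hB
    obtain ⟨P', hP', hF⟩ := r'.UFK en hen M.ord K L x fun m hm => hs.mono hm.le
    exact Or.inl (r.CLE en t L (stg hen ht h) h.cof D x hD
      (r'.CVK L h K M.ord hR x hc P' hP' hF))
  · obtain ⟨τ, hτ, T, t1, t2, t3, t4, t5⟩ := hTRE en hen L hL h.lim K hK hLK M.ord ∅ hs0
    exact Or.inr (msrK_of_ind r' hen hK hL hLK (fun y => y = ∅) (gp_eq ∅) (x₀ := ∅) rfl hτ t1 t2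
      t3 t4 fun y hy i hi => by
        have hy' : y = ∅ := hy
        rw [hy']
        exact t5 i hi)

/-- The theorem. -/
def T_FIN4 : Prop :=
  (∀ L : Cardinal.{u}, SLC ω L → ∀ M : Cardinal.{u}, M.IsRegular → M < L →
    ∀ K : Cardinal.{u}, K.IsRegular → L < K → RflK M.ord K L →
      (WOP L ∨ ∃ τ T, MsrK (fun y => y ⊆ L.ord.toZFSet) M.ord K L τ T) ∧
      ∀ x, (CvX L x ∨ ∃ τ T, MsrK (fun y => y = x) M.ord K L τ T) ∧
        (Bds L x → (∀ z, z ⊆ L.ord.toZFSet → NF.ODp x z) ∨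
          ∃ τ T, MsrK (fun y => y = x) M.ord K L τ T)) ∧
  (∀ L : Cardinal.{u}, SLC ω L → ∀ M : Cardinal.{u}, M.IsRegular → M < L →
    RflK M.ord (succ L) L →
      (WOP L ↔ ¬ ∃ U, CM (NC fun y => y ⊆ L.ord.toZFSet) (succ L).ord U) ∧
      (WOP L ↔ ¬ NoInj L) ∧
      ∀ x, Bds L x →
        ((∀ z, z ⊆ L.ord.toZFSet → NF.ODp x z) ↔ SuX L x) ∧
        ((∀ z, z ⊆ L.ord.toZFSet → NF.ODp x z) ↔
          ¬ ∃ U, CM (NC fun y => y = x) (succ L).ord U) ∧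
        (SmX L x → ((∀ z, z ⊆ L.ord.toZFSet → NF.ODp x z) ↔ ¬ ∃ U, CM HOD (succ L).ord U))) ∧
  ∀ δ : Ordinal.{u}, Extendible δ → ∀ L : Cardinal.{u}, SLC δ L →
    SLC ω L ∧
    (∀ M : Cardinal.{u}, M.IsRegular → M.ord < δ → M < L ∧
      ∀ K : Cardinal.{u}, K.IsRegular → L < K → RflK M.ord K L) ∧
    (WOP L ↔ ¬ ∀ K : Cardinal.{u}, K.IsRegular → L < K →
      ∃ U, NMeas (NC fun y => y ⊆ L.ord.toZFSet) K.ord U) ∧
    (∀ x, Bds L x →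
      ((∀ z, z ⊆ L.ord.toZFSet → NF.ODp x z) ↔ ∃ G, L ≤ G ∧ SuX G x) ∧
      ((∀ z, z ⊆ L.ord.toZFSet → NF.ODp x z) ↔
        ¬ ∀ K : Cardinal.{u}, K.IsRegular → L < K → ∃ U, NMeas (NC fun y => y = x) K.ord U) ∧
      (SmX L x → (CaseA δ ↔ ∀ z, z ⊆ L.ord.toZFSet → NF.ODp x z))) ∧
    (CaseA δ → WOP L ∧ ∀ x, Bds L x → ∀ z, z ⊆ L.ord.toZFSet → NF.ODp x z)

theorem fin4 (h : T_FIN3.{u}) (hLOD : T_LOD.{u}) (hBEX : T_BEX.{u}) : T_FIN4.{u} := by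
  obtain ⟨a1, a2, a3⟩ := h
  refine ⟨a1, fun L h M hMr hML hR => ?_, fun δ hδ L h => ?_⟩
  · obtain ⟨c1, c2, c3⟩ := a2 L h M hMr hML hR
    have hL := slc_unc h
    have hS : (succ L).IsRegular := Cardinal.isRegular_succ hL.le
    refine ⟨c1, c2, fun x hx => ⟨(c3 x hx).1, (c3 x hx).2, fun hsm => ⟨fun hz =>
      Pool.Agent.H98.SD.B.sm_notcm hBEX hL h.lim hsm hz, fun hn => ?_⟩⟩⟩
    refine (hLOD L h M hMr hML (succ L) hS (lt_succ L) hR x hx).resolve_right fun hm => ?_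
    obtain ⟨U, hU⟩ := nmeas_of_msrK hMr hML hS (lt_succ L) hm
    rw [← Pool.Agent.H98.SD.B.nc_empty] at hn
    exact hn ⟨U, cm_of_nmeas hU⟩
  · obtain ⟨e1, e2, e3, e4, e5⟩ := a3 δ hδ L h
    refine ⟨e1, e2, e3, fun x hx => ⟨(e4 x hx).1, (e4 x hx).2, fun hsm => ⟨fun hA =>
      (e5 hA).2 x hx, fun hz => ?_⟩⟩, e5⟩
    exact Pool.Agent.H98.SD.B.sm_caseA hBEX hδ h (slc_unc e1) hsm hz

end HD.SD
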