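import Pool.Agent.H98.SD.Fin3
import Pool.Agent.H29.SD.RFK

/-!
# MP_e37c09_lc, SecondDichotomy: strong limit cardinals of any cofinality. Definitions and the
covering property
-/

open Ordinal Cardinal Order Set
open scoped ZFSet

universe u

namespace HD.SD

open HD.NF (w0)

/-! ## Statement-level definitions -/

/-- Simultaneous reflection: for each family of fewer than `κ` sets which are stationary in the
points of cofinality `μ` of `K` there is an ordinal below `K`, of uncountable cofinality less than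
`Λ`, at which all sets of the family are stationary (in the points of cofinality `μ`). -/
def RflN (κ Λ : Cardinal.{u}) (μ : Ordinal.{u}) (K : Cardinal.{u}) : Prop :=
  ∀ τ < κ.ord, ∀ X : Ordinal.{u} → Set Ordinal.{u}, (∀ i < τ, Pos μ K.ord (X i)) →
    ∃ β < K.ord, ℵ₀ < β.cof ∧ β.cof < Λ ∧ ∀ i < τ, Pos μ β (X i)

/-- Each subset of `L` with fewer than `κ` elements is contained in a subset of `L` which has fewer
than `Λ` elements and is definable from ordinals and `x`. -/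
def CvN (κ Λ L : Cardinal.{u}) (x : ZFSet.{u}) : Prop :=
  ∀ τ < κ.ord, ∀ y : Ordinal.{u} → Ordinal.{u}, (∀ i < τ, y i < L.ord) →
    ∃ D, NF.ODp x D ∧ D ⊆ L.ord.toZFSet ∧ (∀ i < τ, (y i).toZFSet ∈ D) ∧
      ∃ τ' < Λ.ord, ∃ g : Ordinal.{u} → Ordinal.{u}, ∀ a : Ordinal.{u}, a.toZFSet ∈ D →
        ∃ i < τ', g i = a

/-! ## The covering property -/

theorem rflK_of_rflN {κ Λ : Cardinal.{u}} {μ : Ordinal.{u}} {K L : Cardinal.{u}} (hκ : ℵ₀ < κ)
    (hΛ : Λ ≤ L) (h : RflN κ Λ μ K) : RflK μ K L := by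
  intro X hX
  obtain ⟨β, h1, h2, h3, h4⟩ := h w0 (Cardinal.ord_lt_ord.2 hκ) X hX
  exact ⟨β, h1, h2, h3.trans_le hΛ, h4⟩

theorem cvn_of (hFWM : T_FWM.{u}) (hDXP : T_DXP.{u}) (hODY : T_ODY.{u}) {κ Λ L K : Cardinal.{u}}
    {μ : Ordinal.{u}} (hR : RflN κ Λ μ K)
    {P : ZFSet.{u} → (ℕ → Ordinal.{u}) → Prop} (hP : DX P) {x : ZFSet.{u}} {ξ : Ordinal.{u}}
    (h1 : ∀ a < L.ord, Pos μ K.ord (fam P x (fun _ => ξ) a))
    (h2 : ∀ b i i', b ∈ fam P x (fun _ => ξ) i → b ∈ fam P x (fun _ => ξ) i' → i = i') :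
    CvN κ Λ L x := by
  intro τ hτ y y1
  obtain ⟨β, hβ, hβ0, hβΛ, hpos⟩ := hR τ hτ (fun i => fam P x (fun _ => ξ) (y i))
    fun i hi => h1 _ (y1 i hi)
  have hd : DX.{u} fun x w => Pos μ β {b | P x (cns b (cns (w 0) fun _ => ξ))} := by
    have h3 : DX.{u} fun x w => P x (cns (w 0) (cns (w 1) fun _ => ξ)) := by
      refine (DX.sub (S := fun z x w => P x (cns (w 0) (cns (w 1) fun _ => z))) ξ ?_)
      refine (hP.ren fun n => if n = 0 then 1 else if n = 1 then 2 else 0).congr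
        fun x w => ?_
      have : cns (w (0 + 1)) (cns (w (1 + 1)) fun _ => w 0) =
          fun n => w (if n = 0 then 1 else if n = 1 then 2 else 0) := by
        funext n
        rcases n with _ | _ | n <;> rfl
      rw [← this]
    exact dx_pos hDXP h3 μ β
  refine ⟨os L.ord {a | Pos μ β (fam P x (fun _ => ξ) a)}, ?_, fun z hz => ?_,
    fun i hi => ord_mem_os.2 ⟨y1 i hi, hpos i hi⟩, ?_⟩
  · exact hODY _ hd x L.ord (fun _ => ξ)
  · obtain ⟨a, ha, -, rfl⟩ := mem_os.1 hz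
    exact toZFSet_mem_toZFSet_iff.2 ha
  · obtain ⟨τ', hτ', e, he⟩ := hFWM μ β hβ0 (fam P x fun _ => ξ) fun i i' b => h2 b i i'
    refine ⟨τ', hτ'.trans_le (Cardinal.ord_le_ord.2 (succ_le_of_lt hβΛ)), e, fun a ha => ?_⟩
    exact he a (ord_mem_os.1 ha).2

/-- An extendible cardinal gives simultaneous reflection. -/
theorem rflN_ext {D : Cardinal.{u}} (hD : Extendible D.ord) {K : Cardinal.{u}} (hK : K.IsRegular)
    (hDK : D < K) {M : Cardinal.{u}} (hM : M.IsRegular) (hMD : M < D) : RflN D D M.ord K := by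
  intro τ hτ X hX
  obtain ⟨β, h1, h2, h3, h4⟩ := Pool.Agent.H29.SD.refM D.ord hD K hK (Cardinal.ord_lt_ord.2 hDK)
    M hM (Cardinal.ord_lt_ord.2 hMD) τ hτ X hX
  exact ⟨β, h1, hM.1.trans_lt h2, Cardinal.ord_lt_ord.1 h3, h4⟩

end HD.SD
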