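import Pool.Agent.H98.SD.NuA
import Pool.Agent.H29.SD.BDE
import Pool.Agent.H29.SD.CLE

/-!
# MP_e37c09_lc, SecondDichotomy: strong limit cardinals of any cofinality. Covering and all bounded
subsets give all subsets (after the rows BDE and CLE of helper29)
-/

open Ordinal Cardinal Order Set
open scoped ZFSet

universe u

namespace HD.SD

open HD.NF (w0)
open Pool.Agent.H13.SD (Bm bm_lt)
open Pool.Agent.H29.SD (Pz dx_Pz)
open Pool.Agent.H29.SD.E (De dx_De)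

/-- each set of ordinals below `m` has a least code -/
theorem bm_idx5 (hodx : T_ODX.{u}) {en : Ordinal.{u} → ZFSet.{u}} (hen : EN en) {L : Cardinal.{u}}
    (lim : ∀ c < L, (2 : Cardinal.{u}) ^ c < L) {x : ZFSet.{u}} (hx : Bds L x) {m : Ordinal.{u}}
    (hm : m < L.ord) (s : Set Ordinal.{u}) (hs : ∀ b ∈ s, b < m) :
    ∃ i < L.ord, ∃ c, nth (Bm en L x m) i c ∧ ∀ b < L.ord, (b ∈ Sc en x c ↔ b ∈ s) := by
  have h1 : NF.ODp x (os m s) := hx m hm _ fun z hz => by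
    unfold os at hz
    exact (ZFSet.mem_sep.1 hz).1
  obtain ⟨c1, hc1⟩ := (hodx en hen x L.ord).2.1 _ h1
  have hc1' : ∀ b < L.ord, (b ∈ Sc en x c1 ↔ b ∈ s) := by
    intro b hb
    rw [hc1 b hb]
    unfold os
    rw [ZFSet.mem_sep, rank_toZFSet, toZFSet_mem_toZFSet_iff]
    exact ⟨fun h => h.2, fun h => ⟨hs b h, h⟩⟩
  let A : Set Ordinal.{u} := {c | ∀ b < L.ord, (b ∈ Sc en x c ↔ b ∈ s)}
  have hA : A.Nonempty := ⟨c1, hc1'⟩
  have hmem : sInf A ∈ A := csInf_mem hA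
  have hB : sInf A ∈ Bm en L x m := by
    refine ⟨fun b hb hbL => hs b ((hmem b hbL).1 hb), fun c' hc' => ?_⟩
    by_contra hcon
    push Not at hcon
    have : c' ∈ A := fun b hb => (hcon b hb).trans (hmem b hb)
    exact absurd hc' (not_lt.2 (csInf_le' this))
  obtain ⟨i, -, hi⟩ := (HD.All.vh (Bm en L x m)).1 _ hB
  exact ⟨i, bm_lt lim hm hi, sInf A, hi, hmem⟩

/-- the enumeration of the bounded subsets -/
theorem cde5 (hODX : T_ODX.{u}) (hDXS : T_DXS.{u}) (hDXN : T_DXN.{u})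
    {en : Ordinal.{u} → ZFSet.{u}} (hen : EN en) {t : Ordinal.{u} → Ordinal.{u} → Ordinal.{u}}
    (ht : PF t) {L : Cardinal.{u}} (hL : ℵ₀ < L) (lim : ∀ c < L, (2 : Cardinal.{u}) ^ c < L)
    {x : ZFSet.{u}} (hx : Bds L x) : Cde (De en t L) L x := by
  refine ⟨dx_De hDXS hDXN hen ht L, fun m hm s' => ?_⟩
  obtain ⟨i, hi, c, hn, hcs⟩ := bm_idx5 hODX hen lim hx hm {b | b < m ∧ b ∈ s'}
    (fun b hb => hb.1)
  refine ⟨t m i, ht.lt L hL.le m hm i hi, fun a ha => ?_⟩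
  constructor
  · rintro ⟨c', k, m', h2, h4, h5⟩
    obtain ⟨rfl, rfl⟩ := ht.inj _ _ _ _ h2
    rw [nth_val h4 hn] at h5
    exact ((hcs a (ha.trans hm)).1 h5).2
  · exact fun h2 => ⟨c, i, m, rfl, hn, (hcs a (ha.trans hm)).2 ⟨ha, h2⟩⟩

theorem cofseq5 (L : Cardinal.{u}) : ∃ m : Ordinal.{u} → Ordinal.{u},
    (∀ n < L.ord.cof.ord, m n < L.ord) ∧ ∀ b < L.ord, ∃ n < L.ord.cof.ord, b ≤ m n := by
  classical
  obtain ⟨f, hf⟩ := exists_blsub_cof L.ord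
  refine ⟨fun n => if hn : n < L.ord.cof.ord then f n hn else 0, fun n hn => ?_, fun b hb => ?_⟩
  · have := lt_blsub f n hn
    rw [hf] at this
    simp only [dif_pos hn]
    exact this
  · rw [← hf, lt_blsub_iff] at hb
    obtain ⟨i, hi, hle⟩ := hb
    refine ⟨i, hi, ?_⟩
    simp only [dif_pos hi]
    exact hle

/-- If all bounded subsets of `L` are OD_x and the sets with at most `cf L` elements are covered
then all subsets of `L` are OD_x. -/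
theorem cl5 (hVH : T_VH.{u}) (hODX : T_ODX.{u}) (hDXS : T_DXS.{u}) (hDXN : T_DXN.{u})
    (hODY : T_ODY.{u}) {κ Λ L : Cardinal.{u}} (hL : ℵ₀ < L)
    (lim : ∀ c < L, (2 : Cardinal.{u}) ^ c < L) (hΛ : Λ ≤ L) (hκ : L.ord.cof < κ) {x : ZFSet.{u}}
    (hx : Bds L x) (hC : CvN κ Λ L x) : ∀ z, z ⊆ L.ord.toZFSet → NF.ODp x z := by
  intro z hz
  obtain ⟨en, hen⟩ := All.en.{u}
  obtain ⟨t, p1, p2, p3⟩ := All.pr.{u}
  have ht : PF t := ⟨p1, p2, p3⟩
  have hD := cde5 hODX hDXS hDXN hen ht hL lim hx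
  generalize De en t L = D at hD
  obtain ⟨m, hm1, hm2⟩ := cofseq5 L
  have hlim : IsSuccLimit L.ord := Cardinal.isSuccLimit_ord hL.le
  have hξ : ∀ n, ∃ ξ, n < L.ord.cof.ord → ξ < L.ord ∧ ∀ a < m n, (a ∈ D x ξ ↔ a.toZFSet ∈ z) := by
    intro n
    by_cases hn : n < L.ord.cof.ord
    · obtain ⟨ξ, h1, h2⟩ := hD.all (m n) (hm1 n hn) {a | a.toZFSet ∈ z}
      exact ⟨ξ, fun _ => ⟨h1, h2⟩⟩
    · exact ⟨0, fun h => absurd h hn⟩
  choose ξ hξ using hξ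
  have hp : ∀ n < L.ord.cof.ord, t (m n) (ξ n) < L.ord := fun n hn =>
    ht.lt L hL.le _ (hm1 n hn) _ (hξ n hn).1
  obtain ⟨E, hE, hEL, hsubE, τ, hτΛ, e, he⟩ := hC L.ord.cof.ord (Cardinal.ord_lt_ord.2 hκ)
    (fun n => t (m n) (ξ n)) hp
  have hτ : τ < L.ord := hτΛ.trans_le (Cardinal.ord_le_ord.2 hΛ)
  obtain ⟨d, hd⟩ := (hODX en hen x L.ord).2.1 E hE
  -- the set `E` by codes
  let S : ZFSet.{u} → (ℕ → Ordinal.{u}) → Prop := fun x w => w 0 ∈ Sc en x (w 1) ∧ w 0 < w 2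
  have hSd : DX S := (hDXS en hen).1.and (DX.o (DO.lt 0 2))
  set w : ℕ → Ordinal.{u} := cns d (fun _ => L.ord) with hw
  have hSE : ∀ a, S x (cns a w) ↔ a.toZFSet ∈ E := by
    intro a
    have h0 : S x (cns a w) ↔ a ∈ Sc en x d ∧ a < L.ord := Iff.rfl
    rw [h0]
    constructor
    · rintro ⟨h1, h2⟩
      exact (hd a h2).1 h1
    · intro h
      have ha : a < L.ord := toZFSet_mem_toZFSet_iff.1 (hEL h)
      exact ⟨(hd a ha).2 h, ha⟩
  have hsub : ∀ n < L.ord.cof.ord, S x (cns (t (m n) (ξ n)) w) := fun n hn =>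
    (hSE _).2 (hsubE n hn)
  have hfew' : Few (succ τ.card).ord {a | S x (cns a w)} :=
    ⟨τ, Cardinal.lt_ord.2 (Order.lt_succ _), e, fun a ha => he a ((hSE a).1 ha)⟩
  obtain ⟨ζ, hζ, -, hidx⟩ := Pool.Agent.H17.HD.XK.idx hVH hfew'
  have hζL : ζ < L.ord := by
    refine hζ.trans_le (Cardinal.ord_le_ord.2 ?_)
    exact Order.succ_le_of_lt (Cardinal.lt_ord.1 hτ)
  obtain ⟨ν, hν1, hν2⟩ := hD.all ζ hζL
    {i | ∃ a, nth {a | S x (cns a w)} i a ∧ ∃ n < L.ord.cof.ord, a = t (m n) (ξ n)}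
  have key := hODY _ (dx_Pz hDXN hD.dx ht hSd) x L.ord (cns ν w)
  have hz' : z = os L.ord {b | Pz t D S x (cns b (cns ν w))} := by
    ext y
    rw [mem_os]
    constructor
    · intro hy
      obtain ⟨a, ha, rfl⟩ := mem_toZFSet_iff.1 (hz hy)
      refine ⟨a, ha, ?_, rfl⟩
      obtain ⟨n, hn, hle⟩ := hm2 _ (hlim.succ_lt ha)
      have han : a < m n := lt_of_lt_of_le (Order.lt_succ a) hle
      have hq : S x (cns (t (m n) (ξ n)) w) := hsub n hn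
      obtain ⟨i, -, hi⟩ := (hVH {a | S x (cns a w)}).1 _ hq
      exact ⟨t (m n) (ξ n), i, m n, ξ n, hi, (hν2 i (hidx i _ hi)).2 ⟨_, hi, n, hn, rfl⟩, rfl, han,
        ((hξ n hn).2 a han).2 hy⟩
    · rintro ⟨a, ha, ⟨q, i, c, d', h1, h2, h3, h4, h5⟩, rfl⟩
      have h1' : nth {a | S x (cns a w)} i q := h1
      obtain ⟨a', h6, n, hn, h7⟩ := (hν2 i (hidx i q h1')).1 h2
      have h8 : q = a' := Pool.Agent.H17.HD.XK.nth_uniq hVH h1' h6
      rw [h8, h7] at h3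
      obtain ⟨h9, h10⟩ := ht.inj _ _ _ _ h3
      rw [← h9] at h4
      rw [← h10] at h5
      exact ((hξ n hn).2 a h4).1 h5
  rw [hz']
  exact key

end HD.SD
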