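import Pool.Agent.H98.SD.NuB

/-!
# MP_e37c09_lc, SecondDichotomy: strong limit cardinals of any cofinality. The assembly
-/

open Ordinal Cardinal Order Set
open scoped ZFSet

universe u

namespace HD.SD

open HD.NF (w0)
open HD.HV (NMeas)

/-- LOC5. The dichotomy for an arbitrary set `x`. -/
def T_LOC5 : Prop := ∀ L : Cardinal.{u}, ℵ₀ < L → L.IsStrongLimit → ∀ M : Cardinal.{u},
  M.IsRegular → M < L → ∀ K : Cardinal.{u}, K.IsRegular → L < K → ∀ κ Λ : Cardinal.{u}, Λ ≤ L →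
    RflN κ Λ M.ord K → ∀ x,
      (CvN κ Λ L x ∨ ∃ τ T, MsrK (fun y => y = x) M.ord K L τ T) ∧
      (L.ord.cof < κ → Bds L x → (∀ z, z ⊆ L.ord.toZFSet → NF.ODp x z) ∨
        ∃ τ T, MsrK (fun y => y = x) M.ord K L τ T)

theorem loc5 (r' : RK.{u}) (hTRE : T_TRE.{u}) (hVH : T_VH.{u}) (hODX : T_ODX.{u})
    (hDXS : T_DXS.{u}) (hDXN : T_DXN.{u}) (hFWM : T_FWM.{u}) (hDXP : T_DXP.{u})
    (hODY : T_ODY.{u}) : T_LOC5.{u} := by
  intro L hL hlim M hMr hML K hK hLK κ Λ hΛ hR x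
  have lim : ∀ c < L, (2 : Cardinal.{u}) ^ c < L := fun c hc => hlim.two_power_lt hc
  obtain ⟨en, hen⟩ := All.en.{u}
  by_cases hs : SplM en M.ord K.ord x L.ord
  · obtain ⟨c, h1, h2⟩ := id hs
    have h0 : DX.{u} fun x w => w 0 ∈ Sc2 en x (w 2) (w 1) :=
      (hDXS en hen).2.ren fun n => if n = 0 then 0 else if n = 1 then 2 else 1
    have hC : CvN κ Λ L x := cvn_of hFWM hDXP hODY hR h0 (ξ := c) h1 h2
    exact ⟨Or.inl hC, fun hκ hx => Or.inl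
      (cl5 hVH hODX hDXS hDXN hODY hL lim hΛ hκ hx hC)⟩
  · obtain ⟨τ, hτ, T, t1, t2, t3, t4, t5⟩ := hTRE en hen L hL lim K hK hLK M.ord x hs
    have hm := msrK_of_ind r' hen hK hL hLK (fun y => y = x) (gp_eq x) (x₀ := x) rfl hτ t1 t2 t3
      t4 fun y hy i hi => by
        have hy' : y = x := hy
        rw [hy']
        exact t5 i hi
    exact ⟨Or.inr hm, fun _ _ => Or.inr hm⟩

/-- SUG5. If the successor of one cardinal `G ≥ L` is correct and all bounded subsets of `L` are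
OD_x then all subsets of `L` are. -/
def T_SUG5 : Prop := ∀ L : Cardinal.{u}, ℵ₀ < L → L.IsStrongLimit → ∀ M : Cardinal.{u},
  M.IsRegular → M < L → ∀ κ Λ : Cardinal.{u}, Λ ≤ L → L.ord.cof < κ → ∀ G : Cardinal.{u},
    L ≤ G → RflN κ Λ M.ord (succ G) → ∀ x, Bds L x →
      SuX G x → ∀ z, z ⊆ L.ord.toZFSet → NF.ODp x z

theorem sug5 (hULX : T_ULX.{u}) (hVH : T_VH.{u}) (hODX : T_ODX.{u})
    (hDXS : T_DXS.{u}) (hDXN : T_DXN.{u}) (hFWM : T_FWM.{u}) (hDXP : T_DXP.{u})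
    (hODY : T_ODY.{u}) : T_SUG5.{u} := by
  intro L hL hlim M hMr hML κ Λ hΛ hκ G hLG hR x hx hs
  obtain ⟨en, hen⟩ := All.en.{u}
  obtain ⟨P, hP, ξ, h1, h2⟩ := hULX en hen G (hL.trans_le hLG) M hMr (hML.trans_le hLG) x hs
  have h1' : ∀ a < L.ord, Pos M.ord (succ G).ord (fam P x (fun _ => ξ) a) := fun a ha =>
    h1 a (ha.trans_le (Cardinal.ord_le_ord.2 hLG))
  exact cl5 hVH hODX hDXS hDXN hODY hL (fun c hc => hlim.two_power_lt hc) hΛ hκ hx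
    (cvn_of hFWM hDXP hODY hR hP h1' h2)

/-- The theorem. -/
def T_FIN5 : Prop :=
  (∀ L : Cardinal.{u}, ℵ₀ < L → L.IsStrongLimit → ∀ M : Cardinal.{u}, M.IsRegular → M < L →
    ∀ K : Cardinal.{u}, K.IsRegular → L < K → ∀ κ Λ : Cardinal.{u}, Λ ≤ L →
      RflN κ Λ M.ord K →
        (∀ x, (CvN κ Λ L x ∨ ∃ τ T, MsrK (fun y => y = x) M.ord K L τ T) ∧
          (L.ord.cof < κ → Bds L x → (∀ z, z ⊆ L.ord.toZFSet → NF.ODp x z) ∨
            ∃ τ T, MsrK (fun y => y = x) M.ord K L τ T)) ∧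
        (L.ord.cof = ℵ₀ → ℵ₀ < κ →
          WOP L ∨ ∃ τ T, MsrK (fun y => y ⊆ L.ord.toZFSet) M.ord K L τ T)) ∧
  (∀ L : Cardinal.{u}, ℵ₀ < L → L.IsStrongLimit → ∀ M : Cardinal.{u}, M.IsRegular → M < L →
    ∀ κ Λ : Cardinal.{u}, Λ ≤ L → L.ord.cof < κ → RflN κ Λ M.ord (succ L) →
      (∀ x, Bds L x →
        ((∀ z, z ⊆ L.ord.toZFSet → NF.ODp x z) ↔ SuX L x) ∧
        ((∀ z, z ⊆ L.ord.toZFSet → NF.ODp x z) ↔
          ¬ ∃ U, CM (NC fun y => y = x) (succ L).ord U)) ∧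
      (L.ord.cof = ℵ₀ →
        (WOP L ↔ ¬ ∃ U, CM (NC fun y => y ⊆ L.ord.toZFSet) (succ L).ord U) ∧
        (WOP L ↔ ¬ NoInj L))) ∧
  ∀ δ : Cardinal.{u}, Extendible δ.ord → ∀ L : Cardinal.{u}, δ < L → L.IsStrongLimit →
    ℵ₀ < δ ∧
    (∀ M : Cardinal.{u}, M.IsRegular → M < δ → ∀ K : Cardinal.{u}, K.IsRegular → L < K →
      RflN δ δ M.ord K) ∧
    (L.ord.cof < δ → ∀ x, Bds L x →
      ((∀ z, z ⊆ L.ord.toZFSet → NF.ODp x z) ↔ ∃ G, L ≤ G ∧ SuX G x) ∧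
      ((∀ z, z ⊆ L.ord.toZFSet → NF.ODp x z) ↔
        ¬ ∀ K : Cardinal.{u}, K.IsRegular → L < K → ∃ U, NMeas (NC fun y => y = x) K.ord U) ∧
      (CaseA δ.ord → ∀ z, z ⊆ L.ord.toZFSet → NF.ODp x z)) ∧
    (L.ord.cof = ℵ₀ →
      (WOP L ↔ ¬ ∀ K : Cardinal.{u}, K.IsRegular → L < K →
        ∃ U, NMeas (NC fun y => y ⊆ L.ord.toZFSet) K.ord U) ∧
      (CaseA δ.ord → WOP L))

theorem fin5 (h : T_FIN3.{u}) (hLOC : T_LOC5.{u}) (hSUG : T_SUG5.{u}) (hSCY : T_SCY.{u})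
    (hNMX : T_NMX.{u}) : T_FIN5.{u} := by
  obtain ⟨a1, a2, a3⟩ := h
  have hslc : ∀ L : Cardinal.{u}, ℵ₀ < L → L.IsStrongLimit → L.ord.cof = ℵ₀ → SLC ω L :=
    fun L hL hlim hc => ⟨fun c hc => hlim.two_power_lt hc, hc, by
      rw [← Cardinal.ord_aleph0]
      exact Cardinal.ord_lt_ord.2 hL⟩
  have b1 : ∀ L : Cardinal.{u}, ℵ₀ < L → L.IsStrongLimit → ∀ M : Cardinal.{u}, M.IsRegular →
      M < L → ∀ κ Λ : Cardinal.{u}, Λ ≤ L → L.ord.cof < κ → RflN κ Λ M.ord (succ L) →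
      ∀ x, Bds L x → ((∀ z, z ⊆ L.ord.toZFSet → NF.ODp x z) ↔
          ¬ ∃ U, CM (NC fun y => y = x) (succ L).ord U) := by
    intro L hL hlim M hMr hML κ Λ hΛ hκ hR x hx
    have hS : (succ L).IsRegular := Cardinal.isRegular_succ hL.le
    constructor
    · intro hz
      refine hNMX L hL _ x rfl (fun y hy => ?_) hz
      have hy' : y = x := hy
      rw [hy']
      exact Pool.Agent.H45.NF.ODp.of_dz (Q := fun v => v 0 = v 1) (DZ.eq 0 1) fun _ => Iff.rfl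
    · intro hn
      refine ((hLOC L hL hlim M hMr hML (succ L) hS (lt_succ L) κ Λ hΛ hR x).2 hκ
        hx).resolve_right fun hm => ?_
      obtain ⟨U, hU⟩ := nmeas_of_msrK hMr hML hS (lt_succ L) hm
      exact hn ⟨U, cm_of_nmeas hU⟩
  refine ⟨fun L hL hlim M hMr hML K hK hLK κ Λ hΛ hR => ⟨fun x =>
    hLOC L hL hlim M hMr hML K hK hLK κ Λ hΛ hR x, fun hc hκ =>
      (a1 L (hslc L hL hlim hc) M hMr hML K hK hLK (rflK_of_rflN hκ hΛ hR)).1⟩,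
    fun L hL hlim M hMr hML κ Λ hΛ hκ hR => ⟨fun x hx => ⟨⟨fun hz => hSCY L hL x hz, fun hs =>
      hSUG L hL hlim M hMr hML κ Λ hΛ hκ L le_rfl hR x hx hs⟩,
      b1 L hL hlim M hMr hML κ Λ hΛ hκ hR x hx⟩, fun hc => ?_⟩,
    fun δ hδ L hδL hlim => ?_⟩
  · obtain ⟨c1, c2, -⟩ := a2 L (hslc L hL hlim hc) M hMr hML
      (rflK_of_rflN (hc ▸ hκ) hΛ hR)
    exact ⟨c1, c2⟩
  · have hω : ℵ₀ < δ := by
      obtain ⟨η, -, θ, j, hE⟩ := All.xa δ.ord hδ 0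
      obtain ⟨D, hD, -, -, hD0⟩ := All.xb δ.ord η θ j hE
      rw [Cardinal.ord_injective hD]
      exact hD0
    have hL : ℵ₀ < L := hω.trans hδL
    have hS : (succ L).IsRegular := Cardinal.isRegular_succ hL.le
    have hRf : ∀ M : Cardinal.{u}, M.IsRegular → M < δ → ∀ K : Cardinal.{u}, K.IsRegular →
        L < K → RflN δ δ M.ord K := fun M hM hMδ K hK hLK =>
      rflN_ext hδ hK (hδL.trans hLK) hM hMδ
    have h0 := Cardinal.isRegular_aleph0.{u}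
    refine ⟨hω, hRf, fun hc x hx => ?_, fun hc => ?_⟩
    · have hsuc : ∀ G, L ≤ G → SuX G x → ∀ z, z ⊆ L.ord.toZFSet → NF.ODp x z := fun G hG hs =>
        hSUG L hL hlim ℵ₀ h0 hL δ δ hδL.le hc G hG (hRf ℵ₀ h0 hω (succ G)
          (Cardinal.isRegular_succ (hL.le.trans hG)) (hG.trans_lt (lt_succ G))) x hx hs
      refine ⟨⟨fun hz => ⟨L, le_rfl, hSCY L hL x hz⟩, fun ⟨G, hG, hs⟩ => hsuc G hG hs⟩,
        ⟨fun hz hK => ?_, fun hn => ?_⟩, fun hA => hsuc L le_rfl fun β h1 h2 => ?_⟩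
      · obtain ⟨U, hU⟩ := hK (succ L) hS (lt_succ L)
        exact ((b1 L hL hlim ℵ₀ h0 hL δ δ hδL.le hc (hRf ℵ₀ h0 hω (succ L) hS (lt_succ L)) x
          hx).1 hz) ⟨U, cm_of_nmeas hU⟩
      · by_contra hz
        refine hn fun K hKr hLK => ?_
        exact nmeas_of_msrK h0 hL hKr hLK
          (((hLOC L hL hlim ℵ₀ h0 hL K hKr hLK δ δ hδL.le (hRf ℵ₀ h0 hω K hKr hLK) x).2 hc
            hx).resolve_left hz)
      · have hns : ¬ L.IsRegular := fun hr => by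
          rw [hr.cof_ord] at hc
          exact absurd hc hδL.not_gt
        obtain ⟨f, f1, f2, f3⟩ := (hA L hL.le hns (Cardinal.ord_lt_ord.2 hδL)).2 β h1 h2
        exact ⟨f, odp_of_od f1.od, f2, f3⟩
    · have hsl : SLC δ.ord L := ⟨fun c hc => hlim.two_power_lt hc, hc, Cardinal.ord_lt_ord.2 hδL⟩
      obtain ⟨-, -, e3, -, e5⟩ := a3 δ.ord hδ L hsl
      exact ⟨e3, fun hA => (e5 hA).1⟩

end HD.SD
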