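import Pool.Agent.H98.SD.NuC
import Pool.Agent.H98.SD.NuK
import Pool.Agent.H54.SD.NMF

/-!
# MP_e37c09_lc, SecondDichotomy: the dichotomy for all sets `x` and all strong limit cardinals. The
assembly
-/

open Ordinal Cardinal Order Set
open scoped ZFSet

universe u

namespace HD.SD

open HD.NF (w0)
open HD.HV (NMeas)

/-- LOC6. The dichotomy for an arbitrary set `x`. -/
def T_LOC6 : Prop := ∀ L : Cardinal.{u}, ℵ₀ < L → L.IsStrongLimit → ∀ M : Cardinal.{u},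
  M.IsRegular → M < L → ∀ κ Λ : Cardinal.{u}, Λ ≤ L → ∀ K : Cardinal.{u}, K.IsRegular → L < K →
    RflN κ Λ M.ord K → ∀ x,
      (∃ τ T, MsrK (fun y => y = x) M.ord K L τ T) ∨
      CvN κ Λ L x ∧ (L.ord.cof < κ → InjX L x ∧
        ∀ y, NF.ODp y x → Bds L y → ∀ z, z ⊆ L.ord.toZFSet → NF.ODp y z)

theorem loc6 (r' : RK.{u}) (hTRE : T_TRE.{u}) (hTRM : T_TRM.{u}) (hVH : T_VH.{u})
    (hODX : T_ODX.{u}) (hDXS : T_DXS.{u}) (hDXN : T_DXN.{u}) (hFWM : T_FWM.{u})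
    (hDXP : T_DXP.{u}) (hODY : T_ODY.{u}) : T_LOC6.{u} := by
  intro L hL hlim M hMr hML κ Λ hΛ K hK hLK hR x
  have lim : ∀ c < L, (2 : Cardinal.{u}) ^ c < L := fun c hc => hlim.two_power_lt hc
  obtain ⟨en, hen⟩ := All.en.{u}
  by_cases hs : SplM en M.ord K.ord x L.ord
  · have hcv : ∀ y, SplM en M.ord K.ord y L.ord → CvN κ Λ L y := by
      rintro y ⟨c, h1, h2⟩
      have h0 : DX.{u} fun x w => w 0 ∈ Sc2 en x (w 2) (w 1) :=
        (hDXS en hen).2.ren fun n => if n = 0 then 0 else if n = 1 then 2 else 1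
      exact cvn_of hFWM hDXP hODY hR h0 (ξ := c) h1 h2
    refine Or.inr ⟨hcv x hs, fun hκ => ⟨kon hODX hDXS hDXN hL hΛ hκ (hcv x hs),
      fun y hyx hy => ?_⟩⟩
    exact cl5 hVH hODX hDXS hDXN hODY hL lim hΛ hκ hy
      (hcv y (hTRM en hen x y hyx M.ord K.ord L.ord hs))
  · obtain ⟨τ, hτ, T, t1, t2, t3, t4, t5⟩ := hTRE en hen L hL lim K hK hLK M.ord x hs
    exact Or.inl (msrK_of_ind r' hen hK hL hLK (fun y => y = x) (gp_eq x) (x₀ := x) rfl hτ t1 t2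
      t3 t4 fun y hy i hi => by
        have hy' : y = x := hy
        rw [hy']
        exact t5 i hi)

/-- The theorem. -/
def T_FIN6 : Prop :=
  (∀ L : Cardinal.{u}, ℵ₀ < L → L.IsStrongLimit → ∀ M : Cardinal.{u}, M.IsRegular → M < L →
    ∀ κ Λ : Cardinal.{u}, Λ ≤ L → ∀ K : Cardinal.{u}, K.IsRegular → L < K →
      RflN κ Λ M.ord K →
        (∀ x, (∃ τ T, MsrK (fun y => y = x) M.ord K L τ T) ∨
          CvN κ Λ L x ∧ (L.ord.cof < κ → InjX L x ∧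
            ∀ y, NF.ODp y x → Bds L y → ∀ z, z ⊆ L.ord.toZFSet → NF.ODp y z)) ∧
        (L.ord.cof = ℵ₀ → ℵ₀ < κ →
          (∃ τ T, MsrK (fun y => y ⊆ L.ord.toZFSet) M.ord K L τ T) ∨ WOP L)) ∧
  (∀ L : Cardinal.{u}, ℵ₀ < L → L.IsStrongLimit → ∀ M : Cardinal.{u}, M.IsRegular → M < L →
    ∀ κ Λ : Cardinal.{u}, Λ ≤ L → L.ord.cof < κ → RflN κ Λ M.ord (succ L) →
      (∀ x, (InjX L x ↔ ¬ ∃ U, CM (NC fun y => y = x) (succ L).ord U) ∧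
        (Bds L x → (InjX L x ↔ ∀ z, z ⊆ L.ord.toZFSet → NF.ODp x z) ∧
          (InjX L x ↔ SuX L x))) ∧
      (L.ord.cof = ℵ₀ →
        (WOP L ↔ ¬ ∃ U, CM (NC fun y => y ⊆ L.ord.toZFSet) (succ L).ord U) ∧
        (WOP L ↔ ∃ x, x ⊆ L.ord.toZFSet ∧ InjX L x))) ∧
  ∀ δ : Cardinal.{u}, Extendible δ.ord → ∀ L : Cardinal.{u}, δ < L → L.IsStrongLimit →
    ℵ₀ < δ ∧
    (∀ M : Cardinal.{u}, M.IsRegular → M < δ → ∀ K : Cardinal.{u}, K.IsRegular → L < K →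
      RflN δ δ M.ord K) ∧
    (L.ord.cof < δ → ∀ x,
      (InjX L x ↔ CvN δ δ L x) ∧
      (InjX L x ↔ ¬ ∃ U, CM (NC fun y => y = x) (succ L).ord U) ∧
      (InjX L x ↔
        ¬ ∀ K : Cardinal.{u}, K.IsRegular → L < K → ∃ U, NMeas (NC fun y => y = x) K.ord U) ∧
      (Bds L x → (InjX L x ↔ ∀ z, z ⊆ L.ord.toZFSet → NF.ODp x z) ∧
        (InjX L x ↔ ∃ G, L ≤ G ∧ SuX G x)) ∧
      (CaseA δ.ord → InjX L x)) ∧
    (L.ord.cof = ℵ₀ →
      (WOP L ↔ ¬ ∀ K : Cardinal.{u}, K.IsRegular → L < K →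
        ∃ U, NMeas (NC fun y => y ⊆ L.ord.toZFSet) K.ord U) ∧
      (CaseA δ.ord → WOP L))

/-- KON. Covering gives an injection. -/
def T_KON : Prop := ∀ κ Λ L : Cardinal.{u}, ℵ₀ < L → Λ ≤ L → L.ord.cof < κ → ∀ x,
  CvN κ Λ L x → InjX L x

theorem fin6 (h : T_FIN5.{u}) (hLOC : T_LOC6.{u}) (hKON : T_KON.{u}) (hSCY : T_SCY.{u})
    (hSCX : T_SCX.{u}) (hWIE : T_WIE.{u}) : T_FIN6.{u} := by
  obtain ⟨a1, a2, a3⟩ := h
  have hself : ∀ x : ZFSet.{u}, NF.ODp x x := fun x =>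
    Pool.Agent.H45.NF.ODp.of_dz (Q := fun v => v 0 = v 1) (DZ.eq 0 1) fun _ => Iff.rfl
  have hncm : ∀ L : Cardinal.{u}, ∀ x, InjX L x →
      ¬ ∃ U, CM (NC fun y => y = x) (succ L).ord U := by
    rintro L x ⟨F, hF, hFf, hFi⟩
    refine Pool.Agent.H54.SD.nmf (Cardinal.ord_lt_ord.2 (lt_succ L)) (A := fun y => y = x) rfl
      (fun y hy => ?_) hF hFf hFi
    have hy' : y = x := hy
    rw [hy']
    exact hself x
  have hsuc : ∀ L : Cardinal.{u}, ℵ₀ < L → ∀ x, SuX L x → InjX L x := fun L hL x hs =>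
    hSCX L hL x hs
  have b1 : ∀ L : Cardinal.{u}, ℵ₀ < L → L.IsStrongLimit → ∀ M : Cardinal.{u}, M.IsRegular →
      M < L → ∀ κ Λ : Cardinal.{u}, Λ ≤ L → L.ord.cof < κ → RflN κ Λ M.ord (succ L) →
      ∀ x, (InjX L x ↔ ¬ ∃ U, CM (NC fun y => y = x) (succ L).ord U) ∧
        (Bds L x → InjX L x → ∀ z, z ⊆ L.ord.toZFSet → NF.ODp x z) := by
    intro L hL hlim M hMr hML κ Λ hΛ hκ hR x
    have hS : (succ L).IsRegular := Cardinal.isRegular_succ hL.le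
    have hnm : (¬ ∃ U, CM (NC fun y => y = x) (succ L).ord U) →
        ¬ ∃ τ T, MsrK (fun y => y = x) M.ord (succ L) L τ T := by
      intro hn hm
      obtain ⟨U, hU⟩ := nmeas_of_msrK hMr hML hS (lt_succ L) hm
      exact hn ⟨U, cm_of_nmeas hU⟩
    refine ⟨⟨hncm L x, fun hn => ?_⟩, fun hx hi => ?_⟩
    · exact (((hLOC L hL hlim M hMr hML κ Λ hΛ (succ L) hS (lt_succ L) hR x).resolve_left
        (hnm hn)).2 hκ).1
    · exact (((hLOC L hL hlim M hMr hML κ Λ hΛ (succ L) hS (lt_succ L) hR x).resolve_left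
        (hnm (hncm L x hi))).2 hκ).2 x (hself x) hx
  refine ⟨fun L hL hlim M hMr hML κ Λ hΛ K hK hLK hR => ⟨fun x =>
    hLOC L hL hlim M hMr hML κ Λ hΛ K hK hLK hR x, fun hc hκ =>
      ((a1 L hL hlim M hMr hML K hK hLK κ Λ hΛ hR).2 hc hκ).symm⟩,
    fun L hL hlim M hMr hML κ Λ hΛ hκ hR => ⟨fun x => ?_, fun hc => ?_⟩,
    fun δ hδ L hδL hlim => ?_⟩
  · obtain ⟨c1, c2⟩ := b1 L hL hlim M hMr hML κ Λ hΛ hκ hR x
    exact ⟨c1, fun hx => ⟨⟨c2 hx, fun hz => hWIE L hL x hz⟩,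
      ⟨fun hi => hSCY L hL x (c2 hx hi), hsuc L hL x⟩⟩⟩
  · obtain ⟨d1, d2⟩ := (a2 L hL hlim M hMr hML κ Λ hΛ hκ hR).2 hc
    refine ⟨d1, fun hw => ?_, fun ⟨x, hx, F, hF, hFf, hFi⟩ => d2.2 fun hno => ?_⟩
    · have hno := d2.1 hw
      unfold NoInj at hno
      push Not at hno
      obtain ⟨y, F, hy, hF, hFf, hFi⟩ := hno
      exact ⟨y, hy, F, hF, hFf, fun a b z h1 h2 h3 => hFi a b z h1 h2 h3⟩
    · obtain ⟨a, b, z, h1, h2, h3, h4⟩ := hno x F hx hF hFf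
      exact hFi a b z h1 h2 h3 h4
  · obtain ⟨hω, hRf, -, e4⟩ := a3 δ hδ L hδL hlim
    have hL : ℵ₀ < L := hω.trans hδL
    have h0 := Cardinal.isRegular_aleph0.{u}
    refine ⟨hω, hRf, fun hc x => ?_, e4⟩
    have hS : (succ L).IsRegular := Cardinal.isRegular_succ hL.le
    obtain ⟨c1, c2⟩ := b1 L hL hlim ℵ₀ h0 hL δ δ hδL.le hc (hRf ℵ₀ h0 hω (succ L) hS
      (lt_succ L)) x
    -- the chain
    have h12 : (¬ ∀ K : Cardinal.{u}, K.IsRegular → L < K →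
        ∃ U, NMeas (NC fun y => y = x) K.ord U) → CvN δ δ L x ∧ InjX L x := by
      intro hn
      push Not at hn
      obtain ⟨K, hK, hLK, hU⟩ := hn
      have hnm : ¬ ∃ τ T, MsrK (fun y => y = x) (ℵ₀ : Cardinal.{u}).ord K L τ T := fun hm => by
        obtain ⟨U, h⟩ := nmeas_of_msrK h0 hL hK hLK hm
        exact hU U h
      obtain ⟨f1, f2⟩ := (hLOC L hL hlim ℵ₀ h0 hL δ δ hδL.le K hK hLK (hRf ℵ₀ h0 hω K hK hLK)
        x).resolve_left hnm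
      exact ⟨f1, (f2 hc).1⟩
    have h23 : InjX L x → ¬ ∀ K : Cardinal.{u}, K.IsRegular → L < K →
        ∃ U, NMeas (NC fun y => y = x) K.ord U := by
      intro hi hall
      obtain ⟨U, hU⟩ := hall (succ L) hS (lt_succ L)
      exact hncm L x hi ⟨U, cm_of_nmeas hU⟩
    have h31 : CvN δ δ L x → InjX L x := hKON δ δ L hL hδL.le hc x
    have hG : (∃ G, L ≤ G ∧ SuX G x) → InjX L x := by
      rintro ⟨G, hG, hs⟩
      refine (h12 fun hall => ?_).2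
      obtain ⟨U, hU⟩ := hall (succ G) (Cardinal.isRegular_succ (hL.le.trans hG))
        (hG.trans_lt (lt_succ G))
      exact hncm G x (hsuc G (hL.trans_le hG) x hs) ⟨U, cm_of_nmeas hU⟩
    refine ⟨⟨fun hi => (h12 (h23 hi)).1, h31⟩, c1, ⟨h23, fun hn => (h12 hn).2⟩,
      fun hx => ⟨⟨c2 hx, fun hz => hWIE L hL x hz⟩, ⟨fun hi => ⟨L, le_rfl,
        hSCY L hL x (c2 hx hi)⟩, hG⟩⟩, fun hA => hsuc L hL x fun β h1 h2 => ?_⟩
    have hns : ¬ L.IsRegular := fun hr => by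
      rw [hr.cof_ord] at hc
      exact absurd hc hδL.not_gt
    obtain ⟨f, f1, f2, f3⟩ := (hA L hL.le hns (Cardinal.ord_lt_ord.2 hδL)).2 β h1 h2
    exact ⟨f, odp_of_od f1.od, f2, f3⟩

end HD.SD
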