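import Pool.Agent.H98.SD.NuD
import Pool.Agent.H98.SD.BEY

/-!
# MP_e37c09_lc, SecondDichotomy: the first alternative of the dichotomy of Woodin
-/

open Ordinal Cardinal Order Set
open scoped ZFSet

universe u

namespace HD.SD

open HD.NF (w0)
open HD.HV (NMeas)

/-- The theorem. -/
def T_FIN7 : Prop :=
  (∀ L : Cardinal.{u}, ℵ₀ < L → L.IsStrongLimit → ∀ M : Cardinal.{u}, M.IsRegular → M < L →
    ∀ κ Λ : Cardinal.{u}, Λ ≤ L → ∀ K : Cardinal.{u}, K.IsRegular → L < K →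
      RflN κ Λ M.ord K →
        (∀ x, (∃ τ T, MsrK (fun y => y = x) M.ord K L τ T) ∨
          CvN κ Λ L x ∧ (L.ord.cof < κ → InjX L x ∧
            ∀ y, NF.ODp y x → Bds L y → ∀ z, z ⊆ L.ord.toZFSet → NF.ODp y z)) ∧
        (L.ord.cof = ℵ₀ → ℵ₀ < κ →
          (∃ τ T, MsrK (fun y => y ⊆ L.ord.toZFSet) M.ord K L τ T) ∨ WOP L)) ∧
  (∀ L : Cardinal.{u}, ℵ₀ < L → L.IsStrongLimit → ∀ M : Cardinal.{u}, M.IsRegular → M < L →
    ∀ κ Λ : Cardinal.{u}, Λ ≤ L → L.ord.cof < κ → RflN κ Λ M.ord (succ L) →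
      (∀ x, (InjX L x ↔ ¬ ∃ U, CM (NC fun y => y = x) (succ L).ord U) ∧
        (Bds L x → (InjX L x ↔ ∀ z, z ⊆ L.ord.toZFSet → NF.ODp x z) ∧
          (InjX L x ↔ SuX L x))) ∧
      (L.ord.cof = ℵ₀ →
        (WOP L ↔ ¬ ∃ U, CM (NC fun y => y ⊆ L.ord.toZFSet) (succ L).ord U) ∧
        (WOP L ↔ ∃ x, x ⊆ L.ord.toZFSet ∧ InjX L x))) ∧
  ∀ δ : Cardinal.{u}, Extendible δ.ord → ∀ L : Cardinal.{u}, δ < L → L.IsStrongLimit →
    ℵ₀ < δ ∧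
    (∀ M : Cardinal.{u}, M.IsRegular → M < δ → ∀ K : Cardinal.{u}, K.IsRegular → L < K →
      RflN δ δ M.ord K) ∧
    (L.ord.cof < δ →
      (CaseA δ.ord ↔ InjX L ∅) ∧
      ∀ x, (CaseA δ.ord → InjX L x) ∧
        (InjX L x ↔ CvN δ δ L x) ∧
        (InjX L x ↔ ¬ ∃ U, CM (NC fun y => y = x) (succ L).ord U) ∧
        (InjX L x ↔
          ¬ ∀ K : Cardinal.{u}, K.IsRegular → L < K → ∃ U, NMeas (NC fun y => y = x) K.ord U) ∧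
        (Bds L x → (InjX L x ↔ ∀ z, z ⊆ L.ord.toZFSet → NF.ODp x z) ∧
          (InjX L x ↔ ∃ G, L ≤ G ∧ SuX G x))) ∧
    (L.ord.cof = ℵ₀ →
      (WOP L ↔ ¬ ∀ K : Cardinal.{u}, K.IsRegular → L < K →
        ∃ U, NMeas (NC fun y => y ⊆ L.ord.toZFSet) K.ord U) ∧
      (CaseA δ.ord → WOP L))

/-- If some one-to-one function from the successor of `L` to the power set of `L` is ordinal
definable then the first alternative holds. -/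
theorem caseA_of_inj {δ L : Cardinal.{u}} (hδ : Extendible δ.ord) (hδL : δ < L) (hω : ℵ₀ < δ)
    (h : ¬ ∃ U, CM (NC fun y : ZFSet.{u} => y = ∅) (succ L).ord U) : CaseA δ.ord := by
  rcases All.m1E δ.ord hδ with hA | ⟨E, hE, hE1, hE2⟩
  · exact hA
  exfalso
  have h0 : (0 : Ordinal.{u}) < δ.ord := Cardinal.ord_pos.2 (Cardinal.aleph0_pos.trans hω)
  obtain ⟨δ₀, h1, h2, h3⟩ := hE1.unb 0 h0
  have hK : (succ L).IsRegular := Cardinal.isRegular_succ (hω.trans hδL).le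
  have h4 : δ₀ < (succ L).ord :=
    (h1.trans (Cardinal.ord_lt_ord.2 hδL)).trans (Cardinal.ord_lt_ord.2 (lt_succ L))
  obtain ⟨U, hU⟩ := hE2 δ₀ h3 (succ L) hK h4 0 h2
  unfold MGe at hU
  rw [Pool.Agent.H98.SD.B.nc_empty] at h
  exact h ⟨U, Pool.Agent.H98.SD.B.cm_hod hU.1⟩

theorem fin7 (h : T_FIN6.{u}) : T_FIN7.{u} := by
  obtain ⟨a1, a2, a3⟩ := h
  refine ⟨a1, a2, fun δ hδ L hδL hlim => ?_⟩
  obtain ⟨hω, hRf, e3, e4⟩ := a3 δ hδ L hδL hlim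
  refine ⟨hω, hRf, fun hc => ⟨⟨(e3 hc ∅).2.2.2.2, fun hi => ?_⟩, fun x => ?_⟩, e4⟩
  · exact caseA_of_inj hδ hδL hω ((e3 hc ∅).2.1.1 hi)
  · obtain ⟨f1, f2, f3, f4, f5⟩ := e3 hc x
    exact ⟨f5, f1, f2, f3, f4⟩

end HD.SD
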