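import Pool.Agent.H98.SD.NuD
import Pool.Agent.H90.SD.EQM

/-!
# MP_e37c09_lc, SecondDichotomy: classes of parameters which are closed under sequences of
length `L`. The atoms
-/

open Ordinal Cardinal Order Set
open scoped ZFSet

universe u

namespace HD.SD

open HD.NF (w0)
open HD.HV (NMeas)

/-! ## Statement-level definition -/

/-- The class `A` is not empty, it is definable from ordinals and each of its elements, by one
formula with fixed ordinals for all elements, and any `L` elements of `A` are definable from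
ordinals and one element of `A`. -/
structure PCl (L : Cardinal.{u}) (A : ZFSet.{u} → Prop) : Prop where
  ne : ∃ x, A x
  gp : Gp A
  cl : ∀ y : Ordinal.{u} → ZFSet.{u}, (∀ i < L.ord, A (y i)) →
    ∃ x, A x ∧ ∀ i < L.ord, NF.ODp x (y i)

/-! ## Auxiliary definitions -/

/-- The sets `T i`, `i < τ`, are the atoms for `x`. -/
structure AtS (en : Ordinal.{u} → ZFSet.{u}) (μ : Ordinal.{u}) (K L : Cardinal.{u}) (x : ZFSet.{u})
    (τ : Ordinal.{u}) (T : Ordinal.{u} → Set Ordinal.{u}) : Prop where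
  lt : τ < L.ord
  pos : ∀ i < τ, Pos μ K.ord (T i)
  dis : ∀ i < τ, ∀ k < τ, ∀ b, b ∈ T i → b ∈ T k → i = k
  cov : ¬ Pos μ K.ord {b | ∀ i < τ, b ∉ T i}
  odp : ∀ i < τ, NF.ODp x (os K.ord (T i))
  ind : ∀ i < τ, IndK en μ K x (T i)

section rows

variable {en : Ordinal.{u} → ZFSet.{u}} {μ : Ordinal.{u}} {K L : Cardinal.{u}} {x : ZFSet.{u}}
  {τ : Ordinal.{u}} {T : Ordinal.{u} → Set Ordinal.{u}}

theorem null2 (hK : ℵ₀ < K.ord.cof) {X Y Z : Set Ordinal.{u}} (h1 : ¬ Pos μ K.ord X)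
    (h2 : ¬ Pos μ K.ord Y) (h : ∀ b, b ∈ Z → b ∈ X ∨ b ∈ Y) : ¬ Pos μ K.ord Z := fun hZ =>
  Pool.Agent.H90.SD.not_pos_union hK h1 h2 (Pos.mono' hZ fun b _ hb => h b hb)

/-- a set is null if its part in each atom is -/
theorem AtS.null (h : AtS en μ K L x τ T) (hK : K.IsRegular) (hL : ℵ₀ < L) (hLK : L < K)
    {Z : Set Ordinal.{u}} (hZ : ∀ k < τ, ¬ Pos μ K.ord {b | b ∈ T k ∧ b ∈ Z}) :
    ¬ Pos μ K.ord Z := by
  have hcof : ℵ₀ < K.ord.cof := by
    rw [hK.cof_ord]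
    exact hL.trans hLK
  have h1 := All.va μ K.ord hcof τ (by
    rw [hK.cof_ord]
    exact (Cardinal.lt_ord.1 h.lt).trans hLK) (fun k => {b | b ∈ T k ∧ b ∈ Z}) hZ
  refine null2 hcof h1 h.cov fun b hb => ?_
  by_cases h2 : ∃ i < τ, b ∈ T i
  · obtain ⟨i, hi, hbi⟩ := h2
    exact Or.inl ⟨i, hi, hbi, hb⟩
  · push Not at h2
    exact Or.inr h2

/-- comparison of the number of atoms -/
theorem AtS.card_le (h : AtS en μ K L x τ T) (hK : K.IsRegular) (hL : ℵ₀ < L) (hLK : L < K)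
    {σ : Ordinal.{u}} {S : Ordinal.{u} → Set Ordinal.{u}} (h1 : ∀ j < σ, Pos μ K.ord (S j))
    (h2 : ∀ i < σ, ∀ k < σ, ∀ b, b ∈ S i → b ∈ S k → i = k)
    (h3 : ∀ j < σ, ∃ c, ∀ b < K.ord, (b ∈ Sc en x c ↔ b ∈ S j)) : σ.card ≤ τ.card := by
  have h4 : ∀ j < σ, ∃ k < τ, Pos μ K.ord {b | b ∈ T k ∧ b ∈ S j} := by
    intro j hj
    by_contra hcon
    push Not at hcon
    exact h.null hK hL hLK (Z := S j) hcon (h1 j hj)
  have h5 : ∀ j : Iio σ, ∃ k : Iio τ, Pos μ K.ord {b | b ∈ T k.1 ∧ b ∈ S j.1} := fun j => by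
    obtain ⟨k, hk, hp⟩ := h4 j.1 j.2
    exact ⟨⟨k, hk⟩, hp⟩
  choose g hg using h5
  have hinj : Function.Injective g := by
    intro j j' hjj
    by_contra hne
    obtain ⟨c, hc⟩ := h3 j.1 j.2
    rcases h.ind (g j).1 (g j).2 c with h6 | h6
    · exact h6 (Pos.mono' (hg j) fun b hb hbj => ⟨hbj.1, (hc b hb).2 hbj.2⟩)
    · refine h6 (Pos.mono' (hg j') fun b hb hbj => ⟨?_, fun h7 => ?_⟩)
      · rw [hjj]
        exact hbj.1
      · exact hne (Subtype.ext (h2 j.1 j.2 j'.1 j'.2 b ((hc b hb).1 h7) hbj.2))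
  have h6 := Cardinal.mk_le_of_injective hinj
  rwa [Cardinal.mk_Iio_ordinal, Cardinal.mk_Iio_ordinal, Cardinal.lift_le] at h6

/-- there are few classes of sets -/
theorem AtS.classes (h : AtS en μ K L x τ T) (hK : K.IsRegular) (hL : ℵ₀ < L) (hLK : L < K)
    {N : Cardinal.{u}} (hN : τ.card ≤ N) (f : Ordinal.{u} → Ordinal.{u})
    (hf : ∀ i < (succ ((2 : Cardinal.{u}) ^ N)).ord, ∀ k < i,
      ¬ EqvM μ K.ord (Sc en x (f i)) (Sc en x (f k))) : False := by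
  have hcof : ℵ₀ < K.ord.cof := by
    rw [hK.cof_ord]
    exact hL.trans hLK
  let g : Iio (succ ((2 : Cardinal.{u}) ^ N)).ord → Set (Iio τ) := fun i =>
    {k | ¬ Pos μ K.ord {b | b ∈ T k.1 ∧ b ∉ Sc en x (f i.1)}}
  have key : ∀ i k : Iio (succ ((2 : Cardinal.{u}) ^ N)).ord, g i = g k →
      EqvM μ K.ord (Sc en x (f i.1)) (Sc en x (f k.1)) := by
    intro i k hik
    refine h.null hK hL hLK (Z := {b | ¬ (b ∈ Sc en x (f i.1) ↔ b ∈ Sc en x (f k.1))})
      fun j hj => ?_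
    by_cases hji : (⟨j, hj⟩ : Iio τ) ∈ g i
    · have hjk : (⟨j, hj⟩ : Iio τ) ∈ g k := hik ▸ hji
      refine null2 hcof hji hjk fun b hb => ?_
      obtain ⟨hb1, hb2⟩ := hb
      by_cases hbi : b ∈ Sc en x (f i.1)
      · exact Or.inr ⟨hb1, fun hbk => hb2 ⟨fun _ => hbk, fun _ => hbi⟩⟩
      · exact Or.inl ⟨hb1, hbi⟩
    · have hjk : (⟨j, hj⟩ : Iio τ) ∉ g k := hik ▸ hji
      have hi1 : ¬ Pos μ K.ord {b | b ∈ T j ∧ b ∈ Sc en x (f i.1)} :=
        (h.ind j hj (f i.1)).resolve_right hji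
      have hk1 : ¬ Pos μ K.ord {b | b ∈ T j ∧ b ∈ Sc en x (f k.1)} :=
        (h.ind j hj (f k.1)).resolve_right hjk
      refine null2 hcof hi1 hk1 fun b hb => ?_
      obtain ⟨hb1, hb2⟩ := hb
      by_cases hbi : b ∈ Sc en x (f i.1)
      · exact Or.inl ⟨hb1, hbi⟩
      · refine Or.inr ⟨hb1, ?_⟩
        by_contra hbk
        exact hb2 ⟨fun h => absurd h hbi, fun h => absurd h hbk⟩
  have hinj : Function.Injective g := by
    intro i k hik
    by_contra hne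
    rcases lt_trichotomy i.1 k.1 with h1 | h1 | h1
    · exact hf k.1 k.2 i.1 h1 (key k i hik.symm)
    · exact hne (Subtype.ext h1)
    · exact hf i.1 i.2 k.1 h1 (key i k hik)
  have h6 := Cardinal.mk_le_of_injective hinj
  rw [Cardinal.mk_set, Cardinal.mk_Iio_ordinal, Cardinal.mk_Iio_ordinal, Cardinal.card_ord,
    ← Cardinal.lift_two_power, Cardinal.lift_le] at h6
  exact absurd (h6.trans (Cardinal.power_le_power_left two_ne_zero hN))
    (not_le.2 (lt_succ _))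

end rows

end HD.SD
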