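import Pool.Agent.H98.SD.NuF

/-!
# MP_e37c09_lc, SecondDichotomy: classes of parameters which are closed under sequences of
length `L`. The second case
-/

open Ordinal Cardinal Order Set
open scoped ZFSet

universe u

namespace HD.SD

open HD.NF (w0)
open HD.HV (NMeas)

/-- CLA. The dichotomy for a class of parameters, second case. -/
def T_CLA : Prop := ∀ en : Ordinal.{u} → ZFSet.{u}, EN en → ∀ L : Cardinal.{u}, ℵ₀ < L →
  (∀ c < L, (2 : Cardinal.{u}) ^ c < L) → ∀ K : Cardinal.{u}, K.IsRegular → L < K →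
  ∀ (μ : Ordinal.{u}) (A : ZFSet.{u} → Prop), PCl L A →
    (∀ x, A x → ¬ SplM en μ K.ord x L.ord) → ∃ τ T, MsrK A μ K L τ T

theorem cla (r' : RK.{u}) (hTRE : T_TRE.{u}) (hTRN : T_TRN.{u}) (hODX : T_ODX.{u})
    (hMAX : T_MAX.{u}) (hEQM : T_EQM.{u}) : T_CLA.{u} := by
  intro en hen L hL lim K hK hLK μ A hA hno
  have hcof : ℵ₀ < K.ord.cof := by
    rw [hK.cof_ord]
    exact hL.trans hLK
  have hat : ∀ x, A x → ∃ τ T, AtS en μ K L x τ T := by
    intro x hx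
    obtain ⟨τ, hτ, T, t1, t2, t3, t4, t5⟩ := hTRE en hen L hL lim K hK hLK μ x (hno x hx)
    exact ⟨τ, T, hτ, t1, t2, t3, t4, t5⟩
  -- a bound for the number of atoms
  have hbd : ∃ N < L, ∀ x, A x → ∃ τ T, AtS en μ K L x τ T ∧ τ.card ≤ N := by
    by_contra hcon
    push Not at hcon
    obtain ⟨a, ha⟩ := hA.ne
    have h1 : ∀ m : Ordinal.{u}, ∃ y, A y ∧ (m < L.ord →
        ∀ τ T, AtS en μ K L y τ T → m.card < τ.card) := by
      intro m
      by_cases hm : m < L.ord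
      · obtain ⟨y, hy, h2⟩ := hcon m.card (Cardinal.lt_ord.1 hm)
        exact ⟨y, hy, fun _ => h2⟩
      · exact ⟨a, ha, fun h => absurd h hm⟩
    choose y hy1 hy2 using h1
    obtain ⟨x, hx, hxy⟩ := hA.cl y fun i _ => hy1 i
    obtain ⟨τ, T, hT⟩ := hat x hx
    obtain ⟨σ, S, hS⟩ := hat (y τ) (hy1 τ)
    have h3 := hT.card_le hK hL hLK hS.pos hS.dis fun j hj => by
      have h4 := Pool.Agent.H14.SD.odp_trans (hxy τ hT.lt) (hS.odp j hj)
      obtain ⟨c, hc⟩ := (hODX en hen x K.ord).2.1 _ h4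
      refine ⟨c, fun b hb => (hc b hb).trans ?_⟩
      exact ord_mem_os.trans ⟨fun h => h.2, fun h => ⟨hb, h⟩⟩
    exact absurd h3 (not_le.2 (hy2 τ hT.lt σ S hS))
  obtain ⟨N, hN, hbd⟩ := hbd
  have hν : (succ ((2 : Cardinal.{u}) ^ N)).ord < L.ord := by
    refine Cardinal.ord_lt_ord.2 ?_
    exact (succ_le_of_lt (Cardinal.cantor _)).trans_lt (lim _ (lim _ hN))
  -- one parameter for all classes
  have hall : ∃ x, A x ∧ ∀ y, A y → ∀ c, ∃ c', EqvM μ K.ord (Sc en y c) (Sc en x c') := by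
    have : Nonempty {p : ZFSet.{u} × Ordinal.{u} // A p.1} := by
      obtain ⟨a, ha⟩ := hA.ne
      exact ⟨⟨(a, 0), ha⟩⟩
    rcases hMAX {p : ZFSet.{u} × Ordinal.{u} // A p.1}
      (fun p q => EqvM μ K.ord (Sc en p.1.1 p.1.2) (Sc en q.1.1 q.1.2))
      (succ ((2 : Cardinal.{u}) ^ N)).ord with ⟨f, hf⟩ | ⟨τ, hτ, f, hf⟩
    · exfalso
      obtain ⟨x, hx, hxy⟩ := hA.cl (fun i => (f i).1.1) fun i _ => (f i).2
      obtain ⟨τ, T, hT, hτN⟩ := hbd x hx
      have h1 : ∀ i : Ordinal.{u}, ∃ c', i < (succ ((2 : Cardinal.{u}) ^ N)).ord →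
          ∀ b < K.ord, (b ∈ Sc en x c' ↔ b ∈ Sc en (f i).1.1 (f i).1.2) := by
        intro i
        by_cases hi : i < (succ ((2 : Cardinal.{u}) ^ N)).ord
        · obtain ⟨c', hc'⟩ := (hTRN en hen (f i).1.1 x (hxy i (hi.trans hν))).2.1 K.ord (f i).1.2
          exact ⟨c', fun _ b hb => (hc' b).trans ⟨fun h => h.2, fun h => ⟨hb, h⟩⟩⟩
        · exact ⟨0, fun h => absurd h hi⟩
      choose g hg using h1
      refine hT.classes hK hL hLK hτN g fun i hi k hk he => hf i hi k hk ?_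
      have e1 := (hEQM μ K.ord hcof).2.2.2 (Sc en (f i).1.1 (f i).1.2) (Sc en x (g i))
        fun b hb => (hg i hi b hb).symm
      have e2 := (hEQM μ K.ord hcof).2.2.2 (Sc en x (g k)) (Sc en (f k).1.1 (f k).1.2)
        fun b hb => hg k (hk.trans hi) b hb
      exact (hEQM μ K.ord hcof).2.2.1 _ _ _ ((hEQM μ K.ord hcof).2.2.1 _ _ _ e1 he) e2
    · obtain ⟨x, hx, hxy⟩ := hA.cl (fun i => (f i).1.1) fun i _ => (f i).2
      refine ⟨x, hx, fun y hy c => ?_⟩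
      obtain ⟨i, hi, he⟩ := hf ⟨(y, c), hy⟩
      obtain ⟨c', hc'⟩ := (hTRN en hen (f i).1.1 x (hxy i ((hi.trans hτ).trans hν))).2.1 K.ord
        (f i).1.2
      refine ⟨c', (hEQM μ K.ord hcof).2.2.1 _ _ _ he ((hEQM μ K.ord hcof).2.2.2 _ _
        fun b hb => ?_)⟩
      exact ⟨fun h => (hc' b).2 ⟨hb, h⟩, fun h => ((hc' b).1 h).2⟩
  obtain ⟨x, hx, hall⟩ := hall
  obtain ⟨τ, T, hT⟩ := hat x hx
  refine msrK_of_ind r' hen hK hL hLK A hA.gp hx hT.lt hT.pos hT.dis hT.cov hT.odp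
    fun y hy i hi c => ?_
  obtain ⟨c', he⟩ := hall y hy c
  rcases hT.ind i hi c' with h1 | h1
  · refine Or.inl (null2 hcof h1 he fun b hb => ?_)
    by_cases h2 : b ∈ Sc en x c'
    · exact Or.inl ⟨hb.1, h2⟩
    · exact Or.inr fun h3 => h2 (h3.1 hb.2)
  · refine Or.inr (null2 hcof h1 he fun b hb => ?_)
    by_cases h2 : b ∈ Sc en x c'
    · exact Or.inr fun h3 => hb.2 (h3.2 h2)
    · exact Or.inl ⟨hb.1, h2⟩

end HD.SD
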