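import Pool.Agent.H98.SD.NuM
import Pool.Agent.H98.SD.NuE

/-!
# MP_e37c09_lc, SecondDichotomy: classes of parameters which are closed under sequences of
length `L`. The assembly
-/

open Ordinal Cardinal Order Set
open scoped ZFSet

universe u

namespace HD.SD

open HD.NF (w0)
open HD.HV (NMeas)

theorem odp_self (x : ZFSet.{u}) : NF.ODp x x :=
  Pool.Agent.H45.NF.ODp.of_dz (Q := fun v => v 0 = v 1) (DZ.eq 0 1) fun _ => Iff.rfl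

theorem pcl_eq (L : Cardinal.{u}) (x : ZFSet.{u}) : PCl L fun y => y = x := by
  refine ⟨⟨x, rfl⟩, gp_eq x, fun y hy => ⟨x, rfl, fun i hi => ?_⟩⟩
  have h : y i = x := hy i hi
  rw [h]
  exact odp_self x

theorem pcl_sub (hCDX : T_CDX.{u}) {L : Cardinal.{u}} (hL : ℵ₀ < L)
    (lim : ∀ c < L, (2 : Cardinal.{u}) ^ c < L) : PCl L fun y => y ⊆ L.ord.toZFSet := by
  obtain ⟨en, hen⟩ := All.en.{u}
  obtain ⟨t, p1, p2, p3⟩ := All.pr.{u}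
  have ht : PF t := ⟨p1, p2, p3⟩
  refine ⟨⟨∅, ZFSet.empty_subset _⟩, gp_sub L, fun y hy => ?_⟩
  obtain ⟨x, hx, h⟩ := hCDX en t L ⟨hen, ht, hL, lim⟩ y hy
  exact ⟨x, hx.sub, h⟩

/-- All bounded subsets of `L` are definable from ordinals and one subset of `L`. -/
theorem bds_sub (hCDX : T_CDX.{u}) (hDXD : T_DXD.{u}) (hODY : T_ODY.{u}) {L : Cardinal.{u}}
    (hL : ℵ₀ < L) (lim : ∀ c < L, (2 : Cardinal.{u}) ^ c < L) :
    ∃ x, x ⊆ L.ord.toZFSet ∧ Bds L x := by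
  obtain ⟨en, hen⟩ := All.en.{u}
  obtain ⟨t, p1, p2, p3⟩ := All.pr.{u}
  have ht : PF t := ⟨p1, p2, p3⟩
  obtain ⟨x, hx, -⟩ := hCDX en t L ⟨hen, ht, hL, lim⟩ (fun _ => ∅)
    fun _ _ => ZFSet.empty_subset _
  refine ⟨x, hx.sub, fun m hm z hz => ?_⟩
  obtain ⟨ξ, -, hξ⟩ := hx.all m hm {a | a.toZFSet ∈ z}
  have h1 := hODY _ (hDXD t ht) x m (fun _ => ξ)
  have h2 : z = os m {b | b ∈ dec t x ξ} := by
    ext y
    rw [mem_os]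
    constructor
    · intro hy
      obtain ⟨a, ha, rfl⟩ := mem_toZFSet_iff.1 (hz hy)
      exact ⟨a, ha, (hξ a ha).2 hy, rfl⟩
    · rintro ⟨a, ha, h3, rfl⟩
      exact (hξ a ha).1 h3
  rw [h2]
  exact h1

/-- LOC8. The dichotomy for a class of parameters. -/
def T_LOC8 : Prop := ∀ L : Cardinal.{u}, ℵ₀ < L → L.IsStrongLimit → ∀ M : Cardinal.{u},
  M.IsRegular → M < L → ∀ κ Λ : Cardinal.{u}, Λ ≤ L → ∀ K : Cardinal.{u}, K.IsRegular → L < K →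
    RflN κ Λ M.ord K → ∀ A : ZFSet.{u} → Prop, PCl L A →
      (∃ τ T, MsrK A M.ord K L τ T) ∨
      ∃ x, A x ∧ CvN κ Λ L x ∧ (L.ord.cof < κ → InjX L x ∧
        ∀ y, NF.ODp y x → Bds L y → ∀ z, z ⊆ L.ord.toZFSet → NF.ODp y z)

theorem loc8 (hCLA : T_CLA.{u}) (hTRM : T_TRM.{u}) (hVH : T_VH.{u})
    (hODX : T_ODX.{u}) (hDXS : T_DXS.{u}) (hDXN : T_DXN.{u}) (hFWM : T_FWM.{u})
    (hDXP : T_DXP.{u}) (hODY : T_ODY.{u}) : T_LOC8.{u} := by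
  intro L hL hlim M hMr hML κ Λ hΛ K hK hLK hR A hA
  have lim : ∀ c < L, (2 : Cardinal.{u}) ^ c < L := fun c hc => hlim.two_power_lt hc
  obtain ⟨en, hen⟩ := All.en.{u}
  by_cases hs : ∃ x, A x ∧ SplM en M.ord K.ord x L.ord
  · obtain ⟨x, hx, hs⟩ := hs
    have hcv : ∀ y, SplM en M.ord K.ord y L.ord → CvN κ Λ L y := by
      rintro y ⟨c, h1, h2⟩
      have h0 : DX.{u} fun x w => w 0 ∈ Sc2 en x (w 2) (w 1) :=
        (hDXS en hen).2.ren fun n => if n = 0 then 0 else if n = 1 then 2 else 1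
      exact cvn_of hFWM hDXP hODY hR h0 (ξ := c) h1 h2
    refine Or.inr ⟨x, hx, hcv x hs, fun hκ => ⟨kon hODX hDXS hDXN hL hΛ hκ (hcv x hs),
      fun y hyx hy => ?_⟩⟩
    exact cl5 hVH hODX hDXS hDXN hODY hL lim hΛ hκ hy
      (hcv y (hTRM en hen x y hyx M.ord K.ord L.ord hs))
  · refine Or.inl (hCLA en hen L hL lim K hK hLK M.ord A hA fun x hx h => hs ⟨x, hx, h⟩)

/-- The theorem. -/
def T_FIN8 : Prop :=
  (∀ L : Cardinal.{u}, ℵ₀ < L → L.IsStrongLimit →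
    (∀ x, PCl L fun y => y = x) ∧ PCl L fun y => y ⊆ L.ord.toZFSet) ∧
  (∀ L : Cardinal.{u}, ℵ₀ < L → L.IsStrongLimit → ∀ M : Cardinal.{u}, M.IsRegular → M < L →
    ∀ κ Λ : Cardinal.{u}, Λ ≤ L → ∀ K : Cardinal.{u}, K.IsRegular → L < K →
      RflN κ Λ M.ord K → ∀ A : ZFSet.{u} → Prop, PCl L A →
        (∃ τ T, MsrK A M.ord K L τ T) ∨
        ∃ x, A x ∧ CvN κ Λ L x ∧ (L.ord.cof < κ → InjX L x ∧
          ∀ y, NF.ODp y x → Bds L y → ∀ z, z ⊆ L.ord.toZFSet → NF.ODp y z)) ∧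
  (∀ L : Cardinal.{u}, ℵ₀ < L → L.IsStrongLimit → ∀ M : Cardinal.{u}, M.IsRegular → M < L →
    ∀ κ Λ : Cardinal.{u}, Λ ≤ L → L.ord.cof < κ → RflN κ Λ M.ord (succ L) →
      (∀ A : ZFSet.{u} → Prop, PCl L A →
        ((∃ x, A x ∧ InjX L x) ↔ ¬ ∃ U, CM (NC A) (succ L).ord U) ∧
        ((∀ z, z ⊆ L.ord.toZFSet → A z) →
          ((∃ x, A x ∧ InjX L x) ↔ ∃ x, A x ∧ ∀ z, z ⊆ L.ord.toZFSet → NF.ODp x z))) ∧
      ∀ x, Bds L x → (InjX L x ↔ ∀ z, z ⊆ L.ord.toZFSet → NF.ODp x z) ∧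
        (InjX L x ↔ SuX L x)) ∧
  ∀ δ : Cardinal.{u}, Extendible δ.ord → ∀ L : Cardinal.{u}, δ < L → L.IsStrongLimit →
    ℵ₀ < δ ∧
    (∀ M : Cardinal.{u}, M.IsRegular → M < δ → ∀ K : Cardinal.{u}, K.IsRegular → L < K →
      RflN δ δ M.ord K) ∧
    (L.ord.cof < δ →
      (CaseA δ.ord ↔ InjX L ∅) ∧
      (∀ A : ZFSet.{u} → Prop, PCl L A →
        ((∃ x, A x ∧ InjX L x) ↔ ∃ x, A x ∧ CvN δ δ L x) ∧
        ((∃ x, A x ∧ InjX L x) ↔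
          ¬ ∀ K : Cardinal.{u}, K.IsRegular → L < K → ∃ U, NMeas (NC A) K.ord U)) ∧
      ∀ x, (CaseA δ.ord → InjX L x) ∧
        (Bds L x → (InjX L x ↔ ∃ G, L ≤ G ∧ SuX G x)))

theorem fin8 (h : T_FIN7.{u}) (hLOC : T_LOC8.{u}) (hKON : T_KON.{u}) (hCDX : T_CDX.{u})
    (hDXD : T_DXD.{u}) (hODY : T_ODY.{u}) (hWIE : T_WIE.{u}) : T_FIN8.{u} := by
  obtain ⟨a1, a2, a3⟩ := h
  have htr : ∀ {x y z : ZFSet.{u}}, NF.ODp x y → NF.ODp y z → NF.ODp x z := fun h1 h2 =>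
    Pool.Agent.H14.SD.odp_trans h1 h2
  have hinj : ∀ {L : Cardinal.{u}} {x y : ZFSet.{u}}, NF.ODp y x → InjX L x → InjX L y := by
    rintro L x y hyx ⟨F, hF, h1, h2⟩
    exact ⟨F, htr hyx hF, h1, h2⟩
  -- two parameters
  have hjoin : ∀ {L : Cardinal.{u}}, ℵ₀ < L → ∀ {A : ZFSet.{u} → Prop}, PCl L A → ∀ x y, A x →
      A y → ∃ z, A z ∧ NF.ODp z x ∧ NF.ODp z y := by
    intro L hL A hA x y hx hy
    obtain ⟨z, hz, h1⟩ := hA.cl (fun i => if i = 0 then x else y) fun i _ => by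
      show A (if i = 0 then x else y)
      split_ifs
      · exact hx
      · exact hy
    have h0 : (0 : Ordinal.{u}) < L.ord := Cardinal.ord_pos.2 (Cardinal.aleph0_pos.trans hL)
    have h01 : (1 : Ordinal.{u}) < L.ord := by
      refine lt_of_lt_of_le one_lt_omega0 ?_
      rw [← Cardinal.ord_aleph0]
      exact Cardinal.ord_le_ord.2 hL.le
    have h2 := h1 0 h0
    have h3 := h1 1 h01
    simp only [if_pos] at h2
    rw [if_neg one_ne_zero] at h3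
    exact ⟨z, hz, h2, h3⟩
  have hncm : ∀ {L : Cardinal.{u}}, ℵ₀ < L → ∀ {A : ZFSet.{u} → Prop}, PCl L A →
      (∃ x, A x ∧ InjX L x) → ¬ ∃ U, CM (NC A) (succ L).ord U := by
    rintro L hL A hA ⟨x, hx, hi⟩ ⟨U, hU⟩
    obtain ⟨y, hy, hyU⟩ := (Pool.Agent.H94.SD.nc_def.1 hU.inN).1
    obtain ⟨z, hz, h1, h2⟩ := hjoin hL hA x y hx hy
    obtain ⟨F, hF, hFf, hFi⟩ := hinj h1 hi
    exact Pool.Agent.H98.SD.M.nmf1 (Cardinal.ord_lt_ord.2 (lt_succ L)) hz hF hFf hFi U hU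
      (htr h2 hyU)
  have hiff : ∀ L : Cardinal.{u}, ℵ₀ < L → L.IsStrongLimit → ∀ M : Cardinal.{u}, M.IsRegular →
      M < L → ∀ κ Λ : Cardinal.{u}, Λ ≤ L → L.ord.cof < κ → RflN κ Λ M.ord (succ L) →
      ∀ A : ZFSet.{u} → Prop, PCl L A →
        ((∃ x, A x ∧ InjX L x) ↔ ¬ ∃ U, CM (NC A) (succ L).ord U) := by
    intro L hL hlim M hMr hML κ Λ hΛ hκ hR A hA
    have hS : (succ L).IsRegular := Cardinal.isRegular_succ hL.le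
    refine ⟨hncm hL hA, fun hn => ?_⟩
    rcases hLOC L hL hlim M hMr hML κ Λ hΛ (succ L) hS (lt_succ L) hR A hA with hm | hx
    · obtain ⟨U, hU⟩ := nmeas_of_msrK hMr hML hS (lt_succ L) hm
      exact absurd ⟨U, cm_of_nmeas hU⟩ hn
    · obtain ⟨x, hx, -, h1⟩ := hx
      exact ⟨x, hx, (h1 hκ).1⟩
  refine ⟨fun L hL hlim => ⟨pcl_eq L, pcl_sub hCDX hL fun c hc => hlim.two_power_lt hc⟩, hLOC,
    fun L hL hlim M hMr hML κ Λ hΛ hκ hR => ⟨fun A hA =>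
      ⟨hiff L hL hlim M hMr hML κ Λ hΛ hκ hR A hA, fun hP => ⟨fun hx => ?_, fun hx => ?_⟩⟩,
      fun x hx => ((a2 L hL hlim M hMr hML κ Λ hΛ hκ hR).1 x).2 hx⟩,
    fun δ hδ L hδL hlim => ?_⟩
  · obtain ⟨x, hx, hi⟩ := hx
    obtain ⟨y, hy, hb⟩ := bds_sub hCDX hDXD hODY hL fun c hc => hlim.two_power_lt hc
    obtain ⟨z, hz, h1, h2⟩ := hjoin hL hA x y hx (hP y hy)
    exact ⟨z, hz, (((a2 L hL hlim M hMr hML κ Λ hΛ hκ hR).1 z).2 fun m hm w hw =>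
      htr h2 (hb m hm w hw)).1.1 (hinj h1 hi)⟩
  · obtain ⟨x, hx, hz⟩ := hx
    exact ⟨x, hx, hWIE L hL x hz⟩
  · obtain ⟨hω, hRf, e3, -⟩ := a3 δ hδ L hδL hlim
    refine ⟨hω, hRf, fun hc => ⟨(e3 hc).1, fun A hA => ?_, fun x =>
      ⟨((e3 hc).2 x).1, fun hx => (((e3 hc).2 x).2.2.2.2 hx).2⟩⟩⟩
    have hL : ℵ₀ < L := hω.trans hδL
    have h0 := Cardinal.isRegular_aleph0.{u}
    have hS : (succ L).IsRegular := Cardinal.isRegular_succ hL.le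
    refine ⟨⟨fun ⟨x, hx, hi⟩ => ⟨x, hx, ((e3 hc).2 x).2.1.1 hi⟩, fun ⟨x, hx, hcv⟩ =>
      ⟨x, hx, hKON δ δ L hL hδL.le hc x hcv⟩⟩, fun hx hK => ?_, fun hn => ?_⟩
    · obtain ⟨U, hU⟩ := hK (succ L) hS (lt_succ L)
      exact hncm hL hA hx ⟨U, cm_of_nmeas hU⟩
    · push Not at hn
      obtain ⟨K, hK, hLK, hU⟩ := hn
      rcases hLOC L hL hlim ℵ₀ h0 hL δ δ hδL.le K hK hLK (hRf ℵ₀ h0 hω K hK hLK) A hA with
        hm | hx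
      · obtain ⟨U, h⟩ := nmeas_of_msrK h0 hL hK hLK hm
        exact absurd h (hU U)
      · obtain ⟨x, hx, -, h1⟩ := hx
        exact ⟨x, hx, (h1 hc).1⟩

end HD.SD
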