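import Pool.Agent.H98.SD.NuH
import Pool.Agent.H59.SD2.SMI

/-!
# MP_e37c09_lc, SecondDichotomy: classes of parameters, and parameters in small ordinal definable
sets
-/

open Ordinal Cardinal Order Set
open scoped ZFSet

universe u

namespace HD.SD

open HD.NF (w0)
open HD.HV (NMeas)

/-- The theorem. -/
def T_FIN9 : Prop :=
  (∀ L : Cardinal.{u}, ℵ₀ < L → L.IsStrongLimit →
    (∀ x, PCl L fun y => y = x) ∧ PCl L fun y => y ⊆ L.ord.toZFSet) ∧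
  (∀ L : Cardinal.{u}, ℵ₀ < L → L.IsStrongLimit → ∀ M : Cardinal.{u}, M.IsRegular → M < L →
    ∀ κ Λ : Cardinal.{u}, Λ ≤ L → ∀ K : Cardinal.{u}, K.IsRegular → L < K →
      RflN κ Λ M.ord K → ∀ A : ZFSet.{u} → Prop, PCl L A →
        (∃ τ T, MsrK A M.ord K L τ T) ∨
        ∃ x, A x ∧ CvN κ Λ L x ∧ (L.ord.cof < κ → InjX L x ∧
          ∀ y, NF.ODp y x → Bds L y → ∀ z, z ⊆ L.ord.toZFSet → NF.ODp y z)) ∧
  (∀ L : Cardinal.{u}, ℵ₀ < L → L.IsStrongLimit → ∀ M : Cardinal.{u}, M.IsRegular → M < L →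
    ∀ κ Λ : Cardinal.{u}, Λ ≤ L → L.ord.cof < κ → RflN κ Λ M.ord (succ L) →
      (∀ A : ZFSet.{u} → Prop, PCl L A →
        ((∃ x, A x ∧ InjX L x) ↔ ¬ ∃ U, CM (NC A) (succ L).ord U) ∧
        ((∀ z, z ⊆ L.ord.toZFSet → A z) →
          ((∃ x, A x ∧ InjX L x) ↔ ∃ x, A x ∧ ∀ z, z ⊆ L.ord.toZFSet → NF.ODp x z))) ∧
      ∀ x, Bds L x → (InjX L x ↔ ∀ z, z ⊆ L.ord.toZFSet → NF.ODp x z) ∧
        (InjX L x ↔ SuX L x)) ∧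
  ∀ δ : Cardinal.{u}, Extendible δ.ord → ∀ L : Cardinal.{u}, δ < L → L.IsStrongLimit →
    ℵ₀ < δ ∧
    (∀ M : Cardinal.{u}, M.IsRegular → M < δ → ∀ K : Cardinal.{u}, K.IsRegular → L < K →
      RflN δ δ M.ord K) ∧
    (L.ord.cof < δ →
      (∀ A : ZFSet.{u} → Prop, PCl L A →
        ((∃ x, A x ∧ InjX L x) ↔ ∃ x, A x ∧ CvN δ δ L x) ∧
        ((∃ x, A x ∧ InjX L x) ↔
          ¬ ∀ K : Cardinal.{u}, K.IsRegular → L < K → ∃ U, NMeas (NC A) K.ord U)) ∧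
      ∀ x, (Bds L x → (InjX L x ↔ ∃ G, L ≤ G ∧ SuX G x)) ∧
        (SmX L x → (InjX L x ↔ CaseA δ.ord)) ∧
        (CaseA δ.ord → InjX L x))

theorem fin9 (h : T_FIN8.{u}) (hDXS : T_DXS.{u}) (hDXN : T_DXN.{u}) (hCOM : T_COM.{u})
    (hODY : T_ODY.{u}) : T_FIN9.{u} := by
  obtain ⟨a0, a1, a2, a3⟩ := h
  refine ⟨a0, a1, a2, fun δ hδ L hδL hlim => ?_⟩
  obtain ⟨hω, hRf, e3⟩ := a3 δ hδ L hδL hlim
  refine ⟨hω, hRf, fun hc => ⟨(e3 hc).2.1, fun x => ⟨((e3 hc).2.2 x).2, fun hx => ⟨fun hi => ?_,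
    ((e3 hc).2.2 x).1⟩, ((e3 hc).2.2 x).1⟩⟩⟩
  exact (e3 hc).1.2 (Pool.Agent.H59.SD2.sm_inj hDXS hDXN hCOM hODY (hω.trans hδL)
    (fun c hc' => hlim.two_power_lt hc') hx hi)

end HD.SD
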