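import Pool.Agent.H98.SD.NuS

/-!
# MP_e37c09_lc, SecondDichotomy: small sets of ordinals and embeddings. The target
-/

open Ordinal Cardinal Order Set
open scoped ZFSet

universe u

namespace HD.SD

/-- EMB. If some set `y` of at most `ν < δ` ordinals splits strongly into `δ` sets at one `K > δ`
then for each `lam` some set of at most `ν` ordinals splits strongly into `lam` sets at some
`K' > lam`. -/
def T_EMB : Prop := ∀ en : Ordinal.{u} → ZFSet.{u}, EN en → ∀ δ : Cardinal.{u},
  Extendible δ.ord → ∀ M : Cardinal.{u}, M.IsRegular → M < δ → ∀ K : Cardinal.{u}, K.IsRegular →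
  δ < K → ∀ ν : Cardinal.{u}, ν < δ → ∀ y, SmO ν y → SplM en M.ord K.ord y δ.ord →
  ∀ lam : Cardinal.{u}, ∃ K' : Cardinal.{u}, K'.IsRegular ∧ lam < K' ∧ ∃ y', SmO ν y' ∧
    SplM en M.ord K'.ord y' lam.ord

end HD.SD
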