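import Pool.Agent.H98.SD.NuI
import Pool.Agent.H98.SD.NuT

/-!
# MP_e37c09_lc, SecondDichotomy: classes of parameters, parameters in small ordinal definable sets,
and small sets of ordinals as parameters
-/

open Ordinal Cardinal Order Set
open scoped ZFSet

universe u

namespace HD.SD

open HD.NF (w0)
open HD.HV (NMeas)

/-- SQS. If I(x) holds for one set `x` of at most `n < δ` ordinals at one `L > δ` then for each `G`
some set of at most `n` ordinals has the covering property at `G`. -/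
def T_SQS : Prop := ∀ δ : Cardinal.{u}, Extendible δ.ord → ∀ L : Cardinal.{u}, δ < L →
  L.IsStrongLimit → L.ord.cof < δ → ∀ n < δ, (∃ x, SmO n x ∧ InjX L x) → ∀ G : Cardinal.{u},
    ∃ x, SmO n x ∧ CvN δ δ G x ∧ (δ ≤ G → G.ord.cof < δ → InjX G x)

theorem sqs (h : T_FIN7.{u}) (hEMB : T_EMB.{u}) (hCLA : T_CLA.{u}) (hKON : T_KON.{u})
    (hDXS : T_DXS.{u}) (hFWM : T_FWM.{u}) (hDXP : T_DXP.{u}) (hODY : T_ODY.{u}) :
    T_SQS.{u} := by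
  rintro δ hδ L hδL hlim hc n hn ⟨y, hy, hi⟩ G
  obtain ⟨hω, hRf, e3, -⟩ := h.2.2 δ hδ L hδL hlim
  obtain ⟨en, hen⟩ := All.en.{u}
  have h0 := Cardinal.isRegular_aleph0.{u}
  have hL : ℵ₀ < L := hω.trans hδL
  have hS : (succ L).IsRegular := Cardinal.isRegular_succ hL.le
  have lim : ∀ c < L, (2 : Cardinal.{u}) ^ c < L := fun c hc => hlim.two_power_lt hc
  -- `y` splits strongly at the successor of `L`
  have hs : SplM en (ℵ₀ : Cardinal.{u}).ord (succ L).ord y L.ord := by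
    by_contra hs
    have hm := hCLA en hen L hL lim (succ L) hS (lt_succ L) (ℵ₀ : Cardinal.{u}).ord
      (fun z => z = y) (pcl_eq L y) (by
        rintro x rfl
        exact hs)
    obtain ⟨U, hU⟩ := nmeas_of_msrK h0 hL hS (lt_succ L) hm
    exact (((e3 hc).2 y).2.2.1.1 hi) ⟨U, cm_of_nmeas hU⟩
  obtain ⟨K', hK', hlt, y', hy', hs'⟩ := hEMB en hen δ hδ ℵ₀ h0 hω (succ L) hS
    (hδL.trans (lt_succ L)) n hn y hy (hs.mono (Cardinal.ord_le_ord.2 hδL.le)) (max L G)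
  have hR := hRf ℵ₀ h0 hω K' hK' ((le_max_left L G).trans_lt hlt)
  have hs2 := hs'.mono (Cardinal.ord_le_ord.2 (le_max_right L G))
  obtain ⟨c, h1, h2⟩ := hs2
  have hcv : CvN δ δ G y' := by
    have h0 : DX.{u} fun x w => w 0 ∈ Sc2 en x (w 2) (w 1) :=
      (hDXS en hen).2.ren fun n => if n = 0 then 0 else if n = 1 then 2 else 1
    exact cvn_of hFWM hDXP hODY hR h0 (ξ := c) h1 h2
  exact ⟨y', hy', hcv, fun hG hcG => hKON δ δ G (hω.trans_le hG) hG hcG y' hcv⟩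

/-- The theorem. -/
def T_FIN10 : Prop :=
  (∀ L : Cardinal.{u}, ℵ₀ < L → L.IsStrongLimit →
    (∀ x, PCl L fun y => y = x) ∧ (PCl L fun y => y ⊆ L.ord.toZFSet) ∧ PCl L (SmO L)) ∧
  (∀ L : Cardinal.{u}, ℵ₀ < L → L.IsStrongLimit → ∀ M : Cardinal.{u}, M.IsRegular → M < L →
    ∀ κ Λ : Cardinal.{u}, Λ ≤ L → ∀ K : Cardinal.{u}, K.IsRegular → L < K →
      RflN κ Λ M.ord K → ∀ A : ZFSet.{u} → Prop, PCl L A →
        (∃ τ T, MsrK A M.ord K L τ T) ∨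
        ∃ x, A x ∧ CvN κ Λ L x ∧ (L.ord.cof < κ → InjX L x ∧
          ∀ y, NF.ODp y x → Bds L y → ∀ z, z ⊆ L.ord.toZFSet → NF.ODp y z)) ∧
  (∀ L : Cardinal.{u}, ℵ₀ < L → L.IsStrongLimit → ∀ M : Cardinal.{u}, M.IsRegular → M < L →
    ∀ κ Λ : Cardinal.{u}, Λ ≤ L → L.ord.cof < κ → RflN κ Λ M.ord (succ L) →
      (∀ A : ZFSet.{u} → Prop, PCl L A →
        ((∃ x, A x ∧ InjX L x) ↔ ¬ ∃ U, CM (NC A) (succ L).ord U) ∧
        ((∀ z, z ⊆ L.ord.toZFSet → A z) →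
          ((∃ x, A x ∧ InjX L x) ↔ ∃ x, A x ∧ ∀ z, z ⊆ L.ord.toZFSet → NF.ODp x z))) ∧
      ∀ x, Bds L x → (InjX L x ↔ ∀ z, z ⊆ L.ord.toZFSet → NF.ODp x z) ∧
        (InjX L x ↔ SuX L x)) ∧
  ∀ δ : Cardinal.{u}, Extendible δ.ord → ∀ L : Cardinal.{u}, δ < L → L.IsStrongLimit →
    ℵ₀ < δ ∧
    (∀ M : Cardinal.{u}, M.IsRegular → M < δ → ∀ K : Cardinal.{u}, K.IsRegular → L < K →
      RflN δ δ M.ord K) ∧
    (L.ord.cof < δ →
      (∀ A : ZFSet.{u} → Prop, PCl L A →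
        ((∃ x, A x ∧ InjX L x) ↔ ∃ x, A x ∧ CvN δ δ L x) ∧
        ((∃ x, A x ∧ InjX L x) ↔
          ¬ ∀ K : Cardinal.{u}, K.IsRegular → L < K → ∃ U, NMeas (NC A) K.ord U)) ∧
      (∀ x, (Bds L x → (InjX L x ↔ ∃ G, L ≤ G ∧ SuX G x)) ∧
        (SmX L x → (InjX L x ↔ CaseA δ.ord)) ∧
        (CaseA δ.ord → InjX L x)) ∧
      ∀ n < δ, (∃ x, SmO n x ∧ InjX L x) → ∀ G : Cardinal.{u},
        ∃ x, SmO n x ∧ CvN δ δ G x ∧ (δ ≤ G → G.ord.cof < δ → InjX G x))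

theorem fin10 (h : T_FIN9.{u}) (hSQS : T_SQS.{u}) (hDXD : T_DXD.{u}) (hODY : T_ODY.{u}) :
    T_FIN10.{u} := by
  obtain ⟨a0, a1, a2, a3⟩ := h
  refine ⟨fun L hL hlim => ⟨(a0 L hL hlim).1, (a0 L hL hlim).2, pcl_smO hDXD hODY hL⟩, a1, a2,
    fun δ hδ L hδL hlim => ?_⟩
  obtain ⟨hω, hRf, e3⟩ := a3 δ hδ L hδL hlim
  exact ⟨hω, hRf, fun hc => ⟨(e3 hc).1, (e3 hc).2, hSQS δ hδ L hδL hlim hc⟩⟩

end HD.SD
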