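import Pool.Agent.H98.SD.NuG
import Pool.Agent.H54.SD.NMF

/-!
# MP_e37c09_lc, SecondDichotomy: an injection excludes measures (the proof of helper54's NMF for a
class of parameters)
-/

open Ordinal Cardinal Order Set
open scoped ZFSet

universe u

namespace Pool.Agent.H98.SD.M

open _root_.HD _root_.HD.SD Pool.Agent.H45.NF Pool.Agent.H54.SD.NMX
open _root_.HD.NF (w0)

/-- The proof of NMF (helper54) for an ultrafilter which is definable from `x`. -/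
theorem nmf1 {L : Cardinal.{u}} {κ : Ordinal.{u}} (hLκ : L.ord < κ) {A : ZFSet.{u} → Prop}
    {x : ZFSet.{u}} (hx : A x) {F : ZFSet.{u}} (hF : NF.ODp x F)
    (hFf : ZFSet.IsFunc κ.toZFSet (ZFSet.powerset L.ord.toZFSet) F)
    (hFi : ∀ (a b : Ordinal.{u}) (z : ZFSet.{u}), a < b → b < κ →
      ZFSet.pair a.toZFSet z ∈ F → ZFSet.pair b.toZFSet z ∉ F) :
    ∀ U, CM (NC A) κ U → ¬ NF.ODp x U := by
  intro U hU hUx
  have hord : ∀ a : Ordinal.{u}, NF.ODp x a.toZFSet := fun a =>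
    ODp.of_dz (Q := fun v => v 0 = a.toZFSet) (DZ.eqOrd a 0) fun y => Iff.rfl
  have hncx : ∀ z, NF.ODp x z → z ⊆ κ.toZFSet → NC A z := fun z hz hzs =>
    Pool.Agent.H50.SD.MEC.nc_sub ⟨x, hx, hz⟩ hzs
  have hXs : ∀ a, XX κ F a ⊆ κ.toZFSet := fun a z hz => (ZFSet.mem_sep.1 hz).1
  have hXn : ∀ a ∈ L.ord.toZFSet, NC A (XX κ F a) := fun a ha => by
    obtain ⟨b, hb, rfl⟩ := mem_toZFSet_iff.1 ha
    exact hncx _ (odp_XX κ hF (hord b)) (hXs _)
  -- the function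
  have hfn : ZFSet.IsFunc L.ord.toZFSet U (ff L.ord κ F U) := by
    refine ⟨fun p hp => (ZFSet.mem_sep.1 hp).1, fun a ha => ?_⟩
    have h1 := hU.ultra _ (hXn a ha) (hXs a)
    by_cases h2 : XX κ F a ∈ U
    · refine ⟨XX κ F a, pair_mem_ff.2 ⟨ha, h2, CC_iff.2 (Or.inl rfl)⟩, fun Y hY => ?_⟩
      obtain ⟨-, h3, h4⟩ := pair_mem_ff.1 hY
      rcases CC_iff.1 h4 with h5 | h5
      · exact h5
      · rw [h5] at h3
        exact absurd h3 (h1.1 h2)
    · have h6 : κ.toZFSet \ XX κ F a ∈ U := by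
        by_contra h7
        exact h2 (h1.2 h7)
      refine ⟨_, pair_mem_ff.2 ⟨ha, h6, CC_iff.2 (Or.inr rfl)⟩, fun Y hY => ?_⟩
      obtain ⟨-, h3, h4⟩ := pair_mem_ff.1 hY
      rcases CC_iff.1 h4 with h5 | h5
      · rw [h5] at h3
        exact absurd h3 h2
      · exact h5
  have hfN : NC A (ff L.ord κ F U) := by
    refine nc_of hx (odp_ff L.ord κ hF hUx) fun p hp => ?_
    obtain ⟨a, Y, rfl, ha, hY, h3⟩ := mem_ff.1 hp
    obtain ⟨b, hb, rfl⟩ := mem_toZFSet_iff.1 ha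
    have hYo : NF.ODp x Y := by
      rcases CC_iff.1 h3 with h4 | h4
      · rw [h4]
        exact odp_XX κ hF (hord b)
      · rw [h4]
        exact odp_sd κ (odp_XX κ hF (hord b))
    exact nc_pair hx (hord b) hYo (Pool.Agent.H50.SD.MEC.nc_ord ⟨x, hx⟩ b) (hncx Y hYo (hU.sub Y hY))
  have hX := hU.compl L.ord hLκ _ hfN hfn
  set X := (κ.toZFSet).sep fun b => ∀ a y, ZFSet.pair a y ∈ ff L.ord κ F U → b ∈ y with hXdef
  -- two elements of `X` have the same value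
  have hval : ∀ b ∈ κ.toZFSet, ∃ z, z ⊆ L.ord.toZFSet ∧ ZFSet.pair b z ∈ F ∧
      ∀ z', ZFSet.pair b z' ∈ F → z' = z := fun b hb => by
    obtain ⟨z, hz, hz'⟩ := hFf.2 b hb
    refine ⟨z, ?_, hz, hz'⟩
    have := (ZFSet.pair_mem_prod.1 (hFf.1 hz)).2
    exact ZFSet.mem_powerset.1 this
  have hsame : ∀ b ∈ X, ∀ b' ∈ X, b = b' := by
    intro b hb b' hb'
    obtain ⟨hbk, hb1⟩ := ZFSet.mem_sep.1 hb
    obtain ⟨hbk', hb1'⟩ := ZFSet.mem_sep.1 hb'
    obtain ⟨z, hz1, hz2, hz3⟩ := hval b hbk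
    obtain ⟨z', hz1', hz2', hz3'⟩ := hval b' hbk'
    have h1 : ∀ a ∈ L.ord.toZFSet, (a ∈ z ↔ b ∈ XX κ F a) := fun a _ => by
      rw [XX, ZFSet.mem_sep]
      constructor
      · exact fun h => ⟨hbk, z, hz2, h⟩
      · rintro ⟨-, z0, h2, h3⟩
        rwa [← hz3 z0 h2]
    have h1' : ∀ a ∈ L.ord.toZFSet, (a ∈ z' ↔ b' ∈ XX κ F a) := fun a _ => by
      rw [XX, ZFSet.mem_sep]
      constructor
      · exact fun h => ⟨hbk', z', hz2', h⟩
      · rintro ⟨-, z0, h2, h3⟩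
        rwa [← hz3' z0 h2]
    have h2 : ∀ a ∈ L.ord.toZFSet, (b ∈ XX κ F a ↔ b' ∈ XX κ F a) := fun a ha => by
      obtain ⟨Y, hY, -⟩ := hfn.2 a ha
      have h3 := hb1 a Y hY
      have h3' := hb1' a Y hY
      rcases CC_iff.1 (pair_mem_ff.1 hY).2.2 with h4 | h4
      · rw [h4] at h3 h3'
        exact ⟨fun _ => h3', fun _ => h3⟩
      · rw [h4, ZFSet.mem_sdiff] at h3 h3'
        exact ⟨fun h => absurd h h3.2, fun h => absurd h h3'.2⟩
    have hzz : z = z' := by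
      ext a
      constructor
      · intro h
        exact (h1' a (hz1 h)).2 ((h2 a (hz1 h)).1 ((h1 a (hz1 h)).1 h))
      · intro h
        exact (h1 a (hz1' h)).2 ((h2 a (hz1' h)).2 ((h1' a (hz1' h)).1 h))
    obtain ⟨c, hc, rfl⟩ := mem_toZFSet_iff.1 hbk
    obtain ⟨c', hc', rfl⟩ := mem_toZFSet_iff.1 hbk'
    subst hzz
    rcases lt_trichotomy c c' with h3 | h3 | h3
    · exact absurd hz2' (hFi c c' z h3 hc' hz2)
    · rw [h3]
    · exact absurd hz2 (hFi c' c z h3 hc hz2')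
  -- the empty set is not in `U`
  have hemp : (∅ : ZFSet.{u}) ∉ U := by
    intro h
    have h0 : NC A (∅ : ZFSet.{u}) := (Pool.Agent.H94.SD.nc_def.1 hU.inN).2 _ h
    have h1 : κ.toZFSet ∈ U := hU.up _ h _ (Pool.Agent.H50.SD.MEC.nc_ord ⟨x, hx⟩ κ)
      (ZFSet.empty_subset _) (fun _ h => h)
    have h2 := (hU.ultra ∅ h0 (ZFSet.empty_subset _)).1 h
    refine h2 ?_
    have h3 : κ.toZFSet \ (∅ : ZFSet.{u}) = κ.toZFSet := by
      ext z
      rw [ZFSet.mem_sdiff]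
      exact ⟨fun h => h.1, fun h => ⟨h, ZFSet.notMem_empty z⟩⟩
    rwa [h3]
  by_cases hne : ∃ b, b ∈ X
  · obtain ⟨b, hb⟩ := hne
    have h1 : X = {b} := by
      ext z
      rw [ZFSet.mem_singleton]
      constructor
      · exact fun h => hsame z h b hb
      · rintro rfl
        exact hb
    obtain ⟨c, hc, rfl⟩ := mem_toZFSet_iff.1 (ZFSet.mem_sep.1 hb).1
    rw [h1] at hX
    exact hU.nonpr c hc hX
  · have h1 : X = ∅ := by
      ext z
      constructor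
      · exact fun h => absurd ⟨z, h⟩ hne
      · exact fun h => absurd h (ZFSet.notMem_empty z)
    rw [h1] at hX
    exact hemp hX

end Pool.Agent.H98.SD.M
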