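import Pool.Agent.H98.SD.NuT
import Pool.Agent.H67.HD.XL

/-!
# MP_e37c09_lc, SecondDichotomy: small sets of ordinals and embeddings
-/

open Ordinal Cardinal Order Set
open scoped ZFSet

universe u

namespace Pool.Agent.H98.SD.P

open _root_.HD _root_.HD.SD Pool.Agent.H45.NF
open _root_.HD.NF (w0)

/-- embeddings preserve definability from ordinals and a set (helper99's row SSJ) -/
theorem ssj {p f : ZFSet.{u}} (hf : NF.ODp p f) : ∃ β, ∀ (δ η θ : Ordinal.{u}) j,
    Emb δ η θ j → β < η → p ∈ V_ η ∧ f ∈ V_ η ∧ NF.ODp (j p) (j f) := by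
  obtain ⟨α, φ, q, hq, hp, hf, hdef⟩ := hf
  refine ⟨α, fun δ η θ j h hη => ?_⟩
  have hfη : f ∈ V_ η := ZFSet.vonNeumann_subset_of_le hη.le hf
  have hpη : p ∈ V_ η := ZFSet.vonNeumann_subset_of_le hη.le hp
  refine ⟨hpη, hfη, ?_⟩
  have hv : ∀ n, cons f (cons α.toZFSet (cons p fun n => (q n).toZFSet)) n ∈ V_ η := by
    rintro (_ | _ | _ | n)
    · exact hfη
    · exact Gd.ord.2 hη
    · exact hpη
    · exact Gd.ord.2 ((hq n).trans hη)
  have h1 : DefBy φ (cons f (cons α.toZFSet (cons p fun n => (q n).toZFSet))) := by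
    have e1 : cons f (cons α.toZFSet (cons p fun n => (q n).toZFSet)) 1 = α.toZFSet := rfl
    have e2 : (fun n => cons f (cons α.toZFSet (cons p fun n => (q n).toZFSet)) (n + 2)) =
        cons p fun n => (q n).toZFSet := rfl
    unfold DefBy
    simp only [e1, e2, rank_toZFSet, cons_zero]
    exact ⟨ZFSet.isOrdinal_toZFSet _, hf, hdef⟩
  obtain ⟨h2, h3, h4⟩ := (h.tr (loc_defBy φ) hv).1 h1
  have e : (fun n => (j ∘ cons f (cons α.toZFSet (cons p fun n => (q n).toZFSet))) (n + 2)) =
      cons (j p) fun n => (Jo j (q n)).toZFSet := by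
    funext n
    rcases n with _ | n
    · rfl
    · exact h.ord ((hq n).trans hη)
  refine ⟨Jo j α, φ, fun n => Jo j (q n), fun n => (h.lt_iff ((hq n).trans hη) hη).2 (hq n),
    ?_, h3, fun y hy => ?_⟩
  · have hv' : ∀ n, cons p (cons α.toZFSet fun _ => p) n ∈ V_ η := by
      rintro (_ | _ | n)
      · exact hpη
      · exact Gd.ord.2 hη
      · exact hpη
    have h5 : DefBy (.eq 0 1) (cons p (cons α.toZFSet fun _ => p)) := by
      have e1 : cons p (cons α.toZFSet fun _ => p) 1 = α.toZFSet := rfl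
      unfold DefBy
      simp only [e1, rank_toZFSet, cons_zero]
      exact ⟨ZFSet.isOrdinal_toZFSet _, hp, fun y _ => Iff.rfl⟩
    obtain ⟨-, h6, -⟩ := (h.tr (loc_defBy (.eq 0 1)) hv').1 h5
    exact h6
  · have h5 := h4 y hy
    rw [e] at h5
    exact h5

/-- a definable relation between ordinals, as a set -/
theorem odp_rs {P : ZFSet.{u} → (ℕ → Ordinal.{u}) → Prop} (hP : DX P) (x : ZFSet.{u})
    (α β c : Ordinal.{u}) :
    NF.ODp x (rs α β fun a b => P x (cns a (cns b fun _ => c))) := by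
  obtain ⟨Q, hQ, h⟩ := hP
  have hQ' : ∀ a b : Ordinal.{u}, (Q (fun n => if n = 0 then x else if n = 1 then a.toZFSet else
      if n = 2 then b.toZFSet else c.toZFSet) ↔ P x (cns a (cns b fun _ => c))) := by
    intro a b
    rw [h]
    have : cons x (ov (cns a (cns b fun _ => c))) = fun n => if n = 0 then x else
        if n = 1 then a.toZFSet else if n = 2 then b.toZFSet else c.toZFSet := by
      funext n
      rcases n with _ | _ | _ | n <;> rfl
    rw [this]
  refine ODp.of_dz (Q := fun v => ∀ z, z ∈ v 0 ↔ ∃ a b, z = ZFSet.pair a b ∧ a ∈ α.toZFSet ∧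
    b ∈ β.toZFSet ∧ Q (fun n => if n = 0 then v 1 else if n = 1 then a else
      if n = 2 then b else c.toZFSet)) ?_ fun y => ?_
  · refine DZ.all (R := fun z v => z ∈ v 0 ↔ ∃ a b, z = ZFSet.pair a b ∧ a ∈ α.toZFSet ∧
      b ∈ β.toZFSet ∧ Q (fun n => if n = 0 then v 1 else if n = 1 then a else
        if n = 2 then b else c.toZFSet)) (DZ.iff (DZ.mem 0 1) ?_)
    refine DZ.ex (R := fun a v => ∃ b, v 0 = ZFSet.pair a b ∧ a ∈ α.toZFSet ∧
      b ∈ β.toZFSet ∧ Q (fun n => if n = 0 then v 2 else if n = 1 then a else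
        if n = 2 then b else c.toZFSet)) ?_
    refine DZ.ex (R := fun b v => v 1 = ZFSet.pair (v 0) b ∧ v 0 ∈ α.toZFSet ∧
      b ∈ β.toZFSet ∧ Q (fun n => if n = 0 then v 3 else if n = 1 then v 0 else
        if n = 2 then b else c.toZFSet)) ?_
    refine (loc_pair 2 1 0).dz.and (DZ.and ?_ (DZ.and ?_ ?_))
    · exact DZ.od (R := fun k v => v 1 ∈ k) (OD.ordinal α) (DZ.mem 2 0)
    · exact DZ.od (R := fun k v => v 0 ∈ k) (OD.ordinal β) (DZ.mem 1 0)
    · refine DZ.od (R := fun k v => Q (fun n => if n = 0 then v 4 else if n = 1 then v 1 else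
        if n = 2 then v 0 else k)) (OD.ordinal c) ?_
      refine (hQ.ren fun n => if n = 0 then 5 else if n = 1 then 2 else if n = 2 then 1
        else 0).congr fun v => ?_
      have : (fun n => if n = 0 then v (4 + 1) else if n = 1 then v (1 + 1) else
          if n = 2 then v (0 + 1) else v 0) =
          fun n => v (if n = 0 then 5 else if n = 1 then 2 else if n = 2 then 1 else 0) := by
        funext n
        rcases n with _ | _ | _ | n <;> rfl
      show Q (fun n => if n = 0 then v (4 + 1) else if n = 1 then v (1 + 1) else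
          if n = 2 then v (0 + 1) else v 0) ↔ _
      rw [this]
  · show (∀ z, z ∈ y ↔ ∃ a b, z = ZFSet.pair a b ∧ a ∈ α.toZFSet ∧
      b ∈ β.toZFSet ∧ Q (fun n => if n = 0 then x else if n = 1 then a else
        if n = 2 then b else c.toZFSet)) ↔ y = rs α β fun a b => P x (cns a (cns b fun _ => c))
    have key : ∀ z, (∃ a b, z = ZFSet.pair a b ∧ a ∈ α.toZFSet ∧
        b ∈ β.toZFSet ∧ Q (fun n => if n = 0 then x else if n = 1 then a else
          if n = 2 then b else c.toZFSet)) ↔
        z ∈ rs α β fun a b => P x (cns a (cns b fun _ => c)) := by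
      intro z
      rw [mem_rs]
      constructor
      · rintro ⟨a, b, rfl, ha, hb, h1⟩
        obtain ⟨a, ha', rfl⟩ := mem_toZFSet_iff.1 ha
        obtain ⟨b, hb', rfl⟩ := mem_toZFSet_iff.1 hb
        exact ⟨a, ha', b, hb', (hQ' a b).1 h1, rfl⟩
      · rintro ⟨a, ha, b, hb, h1, rfl⟩
        exact ⟨_, _, rfl, toZFSet_mem_toZFSet_iff.2 ha, toZFSet_mem_toZFSet_iff.2 hb,
          (hQ' a b).2 h1⟩
    constructor
    · intro h1
      ext z
      rw [h1 z, key z]
    · rintro rfl z
      exact (key z).symm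

end Pool.Agent.H98.SD.P
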