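import Pool.Agent.H98.SD.NuP
import Pool.Agent.H7.HD.All
import Pool.Agent.H67.SD.TRM
import Pool.Agent.H70.SD.COM

/-!
# MP_e37c09_lc, SecondDichotomy: small sets of ordinals and embeddings
-/

open Ordinal Cardinal Order Set
open scoped ZFSet

universe u

namespace Pool.Agent.H98.SD.P

open _root_.HD _root_.HD.SD Pool.Agent.H45.NF
open _root_.HD.NF (w0)

/-- `v 0` is a set of at most `v 2` ordinals, as `v 1` shows. -/
def SmL (v : ℕ → ZFSet.{u}) : Prop := (∀ z ∈ v 0, z.IsOrdinal) ∧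
  (∀ i ∈ v 2, ∀ z ∈ v 0, ∀ z' ∈ v 0, ZFSet.pair i z ∈ v 1 → ZFSet.pair i z' ∈ v 1 → z = z') ∧
  ∀ z ∈ v 0, ∃ i ∈ v 2, ZFSet.pair i z ∈ v 1

theorem loc_smL : Loc.{u} SmL := by
  refine Loc.and ?_ (Loc.and ?_ ?_)
  · exact Loc.allMem (R := fun z v => z.IsOrdinal) 0 (loc_ord 0)
  · refine Loc.allMem (R := fun i v => ∀ z ∈ v 0, ∀ z' ∈ v 0, ZFSet.pair i z ∈ v 1 →
      ZFSet.pair i z' ∈ v 1 → z = z') 2 ?_
    refine Loc.allMem (R := fun z v => ∀ z' ∈ v 1, ZFSet.pair (v 0) z ∈ v 2 →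
      ZFSet.pair (v 0) z' ∈ v 2 → z = z') 1 ?_
    refine Loc.allMem (R := fun z' v => ZFSet.pair (v 1) (v 0) ∈ v 3 →
      ZFSet.pair (v 1) z' ∈ v 3 → v 0 = z') 2 ?_
    exact (loc_pmem 2 1 4).imp ((loc_pmem 2 0 4).imp (Loc.eq 1 0))
  · refine Loc.allMem (R := fun z v => ∃ i ∈ v 2, ZFSet.pair i z ∈ v 1) 0 ?_
    refine Loc.exMem (R := fun i v => ZFSet.pair i (v 0) ∈ v 2) 3 ?_
    exact loc_pmem 0 1 3

/-- sets of at most `ν` ordinals are preserved, where `ν` is less than the critical point -/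
theorem smO_j {δ η θ : Ordinal.{u}} {j : ZFSet.{u} → ZFSet.{u}} (h : Emb δ η θ j)
    {ν : Cardinal.{u}} (hν : ν.ord < δ) {y : ZFSet.{u}} (hyη : y ∈ V_ η) (hy : SmO ν y) :
    SmO ν (j y) := by
  classical
  obtain ⟨g, hg⟩ := hy
  let f : ZFSet.{u} := ZFSet.sep (fun p => ∃ i : Ordinal.{u},
    p = ZFSet.pair i.toZFSet (g i).toZFSet) (ZFSet.prod ν.ord.toZFSet y)
  have hνη : ν.ord < η := hν.trans h.dlt
  have hfη : f ∈ V_ η := by
    have h1 := h.gd.prod (Gd.ord.2 hνη) hyη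
    rw [ZFSet.mem_vonNeumann] at h1 ⊢
    exact (ZFSet.rank_mono fun p hp => (ZFSet.mem_sep.1 hp).1).trans_lt h1
  have h1 : SmL (sv [y, f, ν.ord.toZFSet]) := by
    show (∀ z ∈ y, z.IsOrdinal) ∧
      (∀ i ∈ ν.ord.toZFSet, ∀ z ∈ y, ∀ z' ∈ y, ZFSet.pair i z ∈ f → ZFSet.pair i z' ∈ f →
        z = z') ∧ ∀ z ∈ y, ∃ i ∈ ν.ord.toZFSet, ZFSet.pair i z ∈ f
    refine ⟨fun z hz => ?_, fun i _ z _ z' _ h1 h2 => ?_, fun z hz => ?_⟩
    · obtain ⟨i, -, rfl⟩ := hg z hz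
      exact ZFSet.isOrdinal_toZFSet _
    · obtain ⟨-, a, ha⟩ := ZFSet.mem_sep.1 h1
      obtain ⟨-, b, hb⟩ := ZFSet.mem_sep.1 h2
      obtain ⟨e1, e2⟩ := ZFSet.pair_injective ha
      obtain ⟨e3, e4⟩ := ZFSet.pair_injective hb
      have : a = b := toZFSet_injective (e1.symm.trans e3)
      rw [e2, e4, this]
    · obtain ⟨i, hi, rfl⟩ := hg z hz
      refine ⟨i.toZFSet, toZFSet_mem_toZFSet_iff.2 hi, ZFSet.mem_sep.2 ⟨?_, i, rfl⟩⟩
      rw [ZFSet.pair_mem_prod]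
      exact ⟨toZFSet_mem_toZFSet_iff.2 hi, hz⟩
  have h2 := (h.trl loc_smL [y, f, ν.ord.toZFSet] (by
    simp only [List.mem_cons, List.not_mem_nil, or_false, forall_eq_or_imp, forall_eq]
    exact ⟨hyη, hfη, Gd.ord.2 hνη⟩)).1 h1
  have h3 : (∀ z ∈ j y, z.IsOrdinal) ∧
      (∀ i ∈ j ν.ord.toZFSet, ∀ z ∈ j y, ∀ z' ∈ j y, ZFSet.pair i z ∈ j f →
        ZFSet.pair i z' ∈ j f → z = z') ∧
      ∀ z ∈ j y, ∃ i ∈ j ν.ord.toZFSet, ZFSet.pair i z ∈ j f := h2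
  rw [h.fix _ hν] at h3
  obtain ⟨h4, h5, h6⟩ := h3
  refine ⟨fun i => if h : ∃ z, z ∈ j y ∧ ZFSet.pair i.toZFSet z ∈ j f then h.choose.rank else 0,
    fun z hz => ?_⟩
  obtain ⟨i, hi, hp⟩ := h6 z hz
  obtain ⟨a, ha, rfl⟩ := mem_toZFSet_iff.1 hi
  refine ⟨a, ha, ?_⟩
  have h7 : ∃ z, z ∈ j y ∧ ZFSet.pair a.toZFSet z ∈ j f := ⟨z, hz, hp⟩
  show z = (if h : ∃ z, z ∈ j y ∧ ZFSet.pair a.toZFSet z ∈ j f then h.choose.rank
    else 0).toZFSet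
  rw [dif_pos h7, h5 _ hi _ h7.choose_spec.1 _ hz h7.choose_spec.2 hp]
  exact (h4 z hz).toZFSet_rank_eq.symm

theorem pf_EMB : T_EMB.{u} := by
  rintro en hen δ hδ M hM hMδ K hK hδK ν hν y hy ⟨c, hpos, hfun⟩ lam
  have hF : NF.ODp y (rs K.ord δ.ord fun b i => b ∈ Sc2 en y c i) :=
    odp_rs (P := fun x w => w 0 ∈ Sc2 en x (w 2) (w 1))
      ((Pool.Agent.H70.SD.pf_DXS en hen).2.ren fun n => if n = 0 then 0 else if n = 1 then 2
        else 1) y K.ord δ.ord c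
  obtain ⟨β, hβ⟩ := ssj hF
  obtain ⟨η, hη, θ, j, h⟩ := All.xa δ.ord hδ (max (max β K.ord) lam.ord)
  have hβη : β < η := lt_of_le_of_lt ((le_max_left _ _).trans (le_max_left _ _)) hη
  have hKη : K.ord < η := lt_of_le_of_lt ((le_max_right _ _).trans (le_max_left _ _)) hη
  have hlη : lam.ord < η := lt_of_le_of_lt (le_max_right _ _) hη
  obtain ⟨hyη, hfη, hODF⟩ := hβ δ.ord η θ j h hβη
  have hδη : δ.ord < η := h.dlt
  have hMδ' : M.ord < δ.ord := Cardinal.ord_lt_ord.2 hMδ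
  have hMη : M.ord < η := hMδ'.trans hδη
  have hlj : lam.ord < Jo j δ.ord := hlη.trans h.Jo_crit
  obtain ⟨K', hK', hJK⟩ := All.xd δ.ord η θ j h K hK hKη
  have hjK : Jo j δ.ord < K'.ord := by
    rw [← hJK]
    exact (h.lt_iff hδη hKη).2 (Cardinal.ord_lt_ord.2 hδK)
  set F := rs K.ord δ.ord fun b i => b ∈ Sc2 en y c i with hFdef
  -- the image of the sequence is contained in a product
  have hsub : j F ⊆ ZFSet.prod K'.ord.toZFSet (Jo j δ.ord).toZFSet := by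
    have h1 : F ⊆ ZFSet.prod K.ord.toZFSet δ.ord.toZFSet := fun p hp => (ZFSet.mem_sep.1 hp).1
    have h2 : ZFSet.prod K.ord.toZFSet δ.ord.toZFSet ∈ V_ η :=
      h.gd.prod (Gd.ord.2 hKη) (Gd.ord.2 hδη)
    have h3 := (h.sub hfη h2).1 h1
    rw [h.prod (Gd.ord.2 hKη) (Gd.ord.2 hδη), h.ord hKη, h.ord hδη, hJK] at h3
    exact h3
  -- it is functional
  have hfnF : ∀ b i i', ZFSet.pair b i ∈ j F → ZFSet.pair b i' ∈ j F → i = i' := by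
    have h1 := (h.trl Pool.Agent.H67.HD.XL.loc_fn [F, K.ord.toZFSet, δ.ord.toZFSet] (by
      simp only [List.mem_cons, List.not_mem_nil, or_false, forall_eq_or_imp, forall_eq]
      exact ⟨hfη, Gd.ord.2 hKη, Gd.ord.2 hδη⟩)).1 (by
        show ∀ b ∈ K.ord.toZFSet, ∀ i ∈ δ.ord.toZFSet, ∀ i' ∈ δ.ord.toZFSet,
          ZFSet.pair b i ∈ F → ZFSet.pair b i' ∈ F → i = i'
        intro b hb i hi i' hi' h1 h2
        obtain ⟨b, -, rfl⟩ := mem_toZFSet_iff.1 hb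
        obtain ⟨i, -, rfl⟩ := mem_toZFSet_iff.1 hi
        obtain ⟨i', -, rfl⟩ := mem_toZFSet_iff.1 hi'
        rw [hFdef, pair_mem_rs] at h1 h2
        rw [hfun b i i' h1.2.2 h2.2.2])
    have h2 : ∀ b ∈ j K.ord.toZFSet, ∀ i ∈ j δ.ord.toZFSet, ∀ i' ∈ j δ.ord.toZFSet,
        ZFSet.pair b i ∈ j F → ZFSet.pair b i' ∈ j F → i = i' := h1
    rw [h.ord hKη, h.ord hδη, hJK] at h2
    intro b i i' hbi hbi'
    obtain ⟨hb, hi⟩ := ZFSet.pair_mem_prod.1 (hsub hbi)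
    obtain ⟨-, hi'⟩ := ZFSet.pair_mem_prod.1 (hsub hbi')
    exact h2 b hb i hi i' hi' hbi hbi'
  -- all its fibres are positive
  have hposF : ∀ i < Jo j δ.ord, Pos M.ord K'.ord {b | ZFSet.pair b.toZFSet i.toZFSet ∈ j F} := by
    have h1 := (h.trl (Pool.Agent.H67.HD.XL.loc_pos All.lb)
      [F, K.ord.toZFSet, δ.ord.toZFSet, M.ord.toZFSet] (by
      simp only [List.mem_cons, List.not_mem_nil, or_false, forall_eq_or_imp, forall_eq]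
      exact ⟨hfη, Gd.ord.2 hKη, Gd.ord.2 hδη, Gd.ord.2 hMη⟩)).1 (by
        show ∀ i ∈ δ.ord.toZFSet, M.ord.toZFSet.IsOrdinal ∧ K.ord.toZFSet.IsOrdinal ∧
          Pos M.ord.toZFSet.rank K.ord.toZFSet.rank
            {b | ZFSet.pair b.toZFSet i ∈ F}
        intro i hi
        obtain ⟨i, hi2, rfl⟩ := mem_toZFSet_iff.1 hi
        refine ⟨ZFSet.isOrdinal_toZFSet _, ZFSet.isOrdinal_toZFSet _, ?_⟩
        rw [rank_toZFSet, rank_toZFSet]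
        refine (hpos i hi2).mono fun b hb hsb _ => ?_
        exact pair_mem_rs.2 ⟨hb, hi2, hsb⟩)
    have h2 : ∀ i ∈ j δ.ord.toZFSet, (j M.ord.toZFSet).IsOrdinal ∧ (j K.ord.toZFSet).IsOrdinal ∧
          Pos (j M.ord.toZFSet).rank (j K.ord.toZFSet).rank
            {b | ZFSet.pair b.toZFSet i ∈ j F} := h1
    rw [h.fix _ hMδ', h.ord hKη, h.ord hδη, hJK, rank_toZFSet, rank_toZFSet] at h2
    intro i hi
    exact (h2 _ (toZFSet_mem_toZFSet_iff.2 hi)).2.2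
  refine ⟨K', hK', Cardinal.ord_lt_ord.1 (hlj.trans hjK), j y,
    smO_j h (Cardinal.ord_lt_ord.2 hν) hyη hy, ?_⟩
  -- the image of `F` splits strongly
  refine Pool.Agent.H67.SD.pf_TRM en hen (j F) (j y) hODF M.ord K'.ord lam.ord ?_
  have hP : DX.{u} fun x w => ZFSet.pair (w 0).toZFSet (w 1).toZFSet ∈ x :=
    ⟨fun v => ZFSet.pair (v 1) (v 2) ∈ v 0, (loc_pmem 1 2 0).dz, fun x w => Iff.rfl⟩
  obtain ⟨d, hd⟩ := Pool.Agent.H70.SD.pf_CO2 en hen _ hP ((j F).rank + 1) K'.ord lam.ord (fun _ => 0)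
  have hV : j F ∈ V_ ((j F).rank + 1) := by
    rw [ZFSet.mem_vonNeumann]
    exact lt_add_one _
  refine ⟨d, fun i hi => ?_, fun b i i' hb hb' => ?_⟩
  · exact (hposF i (hi.trans hlj)).mono fun b hb hsb _ => (hd _ hV b i).2 ⟨hb, hi, hsb⟩
  · exact toZFSet_injective (hfnF _ _ _ ((hd _ hV b i).1 hb).2.2 ((hd _ hV b i').1 hb').2.2)

end Pool.Agent.H98.SD.P
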