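import Pool.Agent.H98.SD.NuH

/-!
# MP_e37c09_lc, SecondDichotomy: the class of the sets of at most `L` ordinals
-/

open Ordinal Cardinal Order Set
open scoped ZFSet

universe u

namespace HD.SD

open HD.NF (w0)

/-! ## Statement-level definition -/

/-- `x` is a set of at most `L` ordinals. -/
def SmO (L : Cardinal.{u}) (x : ZFSet.{u}) : Prop :=
  ∃ g : Ordinal.{u} → Ordinal.{u}, ∀ z ∈ x, ∃ i < L.ord, z = (g i).toZFSet

theorem smO_iff (L : Cardinal.{u}) (x : ZFSet.{u}) : SmO L x ↔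
    (∀ z, z ∈ x → z.IsOrdinal) ∧ ∃ f : ZFSet.{u},
      (∀ i z z', ZFSet.pair i z ∈ f → ZFSet.pair i z' ∈ f → z = z') ∧
      ∀ z, z ∈ x → ∃ i, i ∈ L.ord.toZFSet ∧ ZFSet.pair i z ∈ f := by
  classical
  constructor
  · rintro ⟨g, hg⟩
    refine ⟨fun z hz => ?_, ZFSet.sep (fun p => ∃ i : Ordinal.{u},
      p = ZFSet.pair i.toZFSet (g i).toZFSet) (ZFSet.prod L.ord.toZFSet x), ?_, fun z hz => ?_⟩
    · obtain ⟨i, -, rfl⟩ := hg z hz
      exact ZFSet.isOrdinal_toZFSet _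
    · intro i z z' h1 h2
      obtain ⟨-, a, ha⟩ := ZFSet.mem_sep.1 h1
      obtain ⟨-, b, hb⟩ := ZFSet.mem_sep.1 h2
      obtain ⟨e1, e2⟩ := ZFSet.pair_injective ha
      obtain ⟨e3, e4⟩ := ZFSet.pair_injective hb
      have : a = b := toZFSet_injective (e1.symm.trans e3)
      rw [e2, e4, this]
    · obtain ⟨i, hi, rfl⟩ := hg z hz
      refine ⟨i.toZFSet, toZFSet_mem_toZFSet_iff.2 hi, ZFSet.mem_sep.2 ⟨?_, i, rfl⟩⟩
      rw [ZFSet.pair_mem_prod]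
      exact ⟨toZFSet_mem_toZFSet_iff.2 hi, hz⟩
  · rintro ⟨h1, f, h2, h3⟩
    refine ⟨fun i => if h : ∃ z, ZFSet.pair i.toZFSet z ∈ f then h.choose.rank else 0,
      fun z hz => ?_⟩
    obtain ⟨i, hi, hp⟩ := h3 z hz
    obtain ⟨a, ha, rfl⟩ := mem_toZFSet_iff.1 hi
    refine ⟨a, ha, ?_⟩
    have h : ∃ z, ZFSet.pair a.toZFSet z ∈ f := ⟨z, hp⟩
    show z = (if h : ∃ z, ZFSet.pair a.toZFSet z ∈ f then h.choose.rank else 0).toZFSet
    rw [dif_pos h, h2 _ _ _ h.choose_spec hp]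
    exact (h1 z hz).toZFSet_rank_eq.symm

theorem gp_smO (L : Cardinal.{u}) : Gp.{u} (SmO L) := by
  refine ⟨fun v => (∀ z, z ∈ v 0 → z.IsOrdinal) ∧ ∃ f : ZFSet.{u},
      (∀ i z z', ZFSet.pair i z ∈ f → ZFSet.pair i z' ∈ f → z = z') ∧
      ∀ z, z ∈ v 0 → ∃ i, i ∈ L.ord.toZFSet ∧ ZFSet.pair i z ∈ f, ?_, fun x _ y => smO_iff L y⟩
  refine DZ.and ?_ ?_
  · exact DZ.all (R := fun z v => z ∈ v 0 → z.IsOrdinal) ((DZ.mem 0 1).imp (dz_isOrd 0))
  · refine DZ.ex (R := fun f v => (∀ i z z', ZFSet.pair i z ∈ f → ZFSet.pair i z' ∈ f → z = z') ∧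
      ∀ z, z ∈ v 0 → ∃ i, i ∈ L.ord.toZFSet ∧ ZFSet.pair i z ∈ f) (DZ.and ?_ ?_)
    · refine DZ.all (R := fun i v => ∀ z z', ZFSet.pair i z ∈ v 0 → ZFSet.pair i z' ∈ v 0 →
        z = z') ?_
      refine DZ.all (R := fun z v => ∀ z', ZFSet.pair (v 0) z ∈ v 1 →
        ZFSet.pair (v 0) z' ∈ v 1 → z = z') ?_
      refine DZ.all (R := fun z' v => ZFSet.pair (v 1) (v 0) ∈ v 2 →
        ZFSet.pair (v 1) z' ∈ v 2 → v 0 = z') ?_
      exact ((loc_pmem 2 1 3).dz).imp (((loc_pmem 2 0 3).dz).imp (DZ.eq 1 0))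
    · refine DZ.all (R := fun z v => z ∈ v 1 → ∃ i, i ∈ L.ord.toZFSet ∧ ZFSet.pair i z ∈ v 0) ?_
      refine (DZ.mem 0 2).imp ?_
      refine DZ.ex (R := fun i v => i ∈ L.ord.toZFSet ∧ ZFSet.pair i (v 0) ∈ v 1) (DZ.and ?_ ?_)
      · exact DZ.od (R := fun k v => v 0 ∈ k) (OD.ordinal L.ord) (DZ.mem 1 0)
      · exact (loc_pmem 0 1 2).dz

/-- the class of the sets of at most `L` ordinals is closed under sequences of length `L` -/
theorem pcl_smO (hDXD : T_DXD.{u}) (hODY : T_ODY.{u}) {L : Cardinal.{u}} (hL : ℵ₀ < L) :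
    PCl L (SmO L) := by
  classical
  obtain ⟨t, p1, p2, p3⟩ := All.pr.{u}
  have ht : PF t := ⟨p1, p2, p3⟩
  refine ⟨⟨∅, fun i => i, fun z hz => absurd hz (ZFSet.notMem_empty z)⟩, gp_smO L,
    fun y hy => ?_⟩
  have hg : ∀ i : Ordinal.{u}, ∃ g : Ordinal.{u} → Ordinal.{u}, i < L.ord →
      ∀ z ∈ y i, ∃ k < L.ord, z = (g k).toZFSet := by
    intro i
    by_cases hi : i < L.ord
    · obtain ⟨g, hg⟩ := hy i hi
      exact ⟨g, fun _ => hg⟩
    · exact ⟨fun i => i, fun h => absurd h hi⟩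
  choose g hg using hg
  -- a bound
  obtain ⟨β, hβ⟩ : ∃ β : Ordinal.{u}, ∀ i < L.ord, (y i).rank < β := by
    refine ⟨blsub L.ord fun i _ => (y i).rank, fun i hi => ?_⟩
    exact lt_blsub (fun i _ => (y i).rank) i hi
  obtain ⟨C, hC0, hCL, hCβ⟩ : ∃ C : Cardinal.{u}, ℵ₀ ≤ C ∧ L.ord < C.ord ∧ β < C.ord := by
    refine ⟨max (succ L) (succ β.card), ?_, ?_, ?_⟩
    · exact (hL.le.trans (le_succ L)).trans (le_max_left _ _)
    · exact Cardinal.ord_lt_ord.2 ((lt_succ L).trans_le (le_max_left _ _))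
    · exact (Cardinal.lt_ord.2 (lt_succ β.card)).trans_le
        (Cardinal.ord_le_ord.2 (le_max_right _ _))
  let x : ZFSet.{u} := os C.ord {c | ∃ i < L.ord, ∃ a : Ordinal.{u}, a.toZFSet ∈ y i ∧ c = t i a}
  have hlt : ∀ i < L.ord, ∀ a : Ordinal.{u}, a.toZFSet ∈ y i → a < β := by
    intro i hi a ha
    have h1 := ZFSet.rank_lt_of_mem ha
    rw [rank_toZFSet] at h1
    exact h1.trans (hβ i hi)
  have hx : ∀ i < L.ord, ∀ a : Ordinal.{u}, (a ∈ dec t x i ↔ a.toZFSet ∈ y i) := by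
    intro i hi a
    show (t i a).toZFSet ∈ x ↔ _
    constructor
    · intro h
      obtain ⟨-, i', hi', a', ha', he⟩ := ord_mem_os.1 h
      obtain ⟨rfl, rfl⟩ := ht.inj _ _ _ _ he
      exact ha'
    · intro h
      refine ord_mem_os.2 ⟨?_, i, hi, a, h, rfl⟩
      exact ht.lt C hC0 i (hi.trans hCL) a ((hlt i hi a h).trans hCβ)
  refine ⟨x, ?_, fun i hi => ?_⟩
  · refine ⟨fun j => if h : ∃ p : Ordinal.{u} × Ordinal.{u}, j = t p.1 p.2 then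
      t h.choose.1 (g h.choose.1 h.choose.2) else 0, fun z hz => ?_⟩
    obtain ⟨c, hc, ⟨i, hi, a, ha, rfl⟩, rfl⟩ := mem_os.1 hz
    obtain ⟨k, hk, he⟩ := hg i hi _ ha
    have he' : a = g i k := toZFSet_injective he
    refine ⟨t i k, ht.lt L hL.le i hi k hk, ?_⟩
    have h : ∃ p : Ordinal.{u} × Ordinal.{u}, t i k = t p.1 p.2 := ⟨(i, k), rfl⟩
    show (t i a).toZFSet = (if h : ∃ p : Ordinal.{u} × Ordinal.{u}, t i k = t p.1 p.2 then
      t h.choose.1 (g h.choose.1 h.choose.2) else 0).toZFSet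
    rw [dif_pos h]
    obtain ⟨h1, h2⟩ := ht.inj _ _ _ _ h.choose_spec
    rw [← h1, ← h2, ← he']
  · have h1 := hODY _ (hDXD t ht) x β (fun _ => i)
    have h2 : y i = os β {b | b ∈ dec t x i} := by
      ext z
      rw [mem_os]
      constructor
      · intro hz
        obtain ⟨k, hk, rfl⟩ := hg i hi z hz
        exact ⟨_, hlt i hi _ hz, (hx i hi _).2 hz, rfl⟩
      · rintro ⟨a, ha, h3, rfl⟩
        exact (hx i hi a).1 h3
    rw [h2]
    exact h1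

end HD.SD
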