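import Pool.Agent.H98.SD.Asm8
import Pool.Agent.H98.SD.Asm10
import Pool.Agent.H45.CF.FO

/-!
# MP_e37c09_lc, SecondDichotomy: if the successor of one cardinal `G ≥ L` is correct in HOD with the
parameter `x`, and all bounded subsets of `L` are in this model, then all subsets of `L` are
-/

open Ordinal Cardinal Order Set
open scoped ZFSet

universe u

namespace HD.SD

open HD.NF (w0)

/-- SUG. For every set `x` such that all bounded subsets of `L` are OD_x. -/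
def T_SUG : Prop := ∀ L : Cardinal.{u}, SLC ω L → ∀ M : Cardinal.{u}, M.IsRegular → M < L →
  ∀ G, L ≤ G → RflK M.ord (succ G) L → ∀ x, (∀ m < L.ord, ∀ z, z ⊆ m.toZFSet → NF.ODp x z) →
    SuX G x → ∀ z, z ⊆ L.ord.toZFSet → NF.ODp x z

theorem sgg (hFWM : T_FWM.{u}) (hDXP : T_DXP.{u}) (hODY : T_ODY.{u}) {L : Cardinal.{u}}
    (h : SLC ω L) {M : Cardinal.{u}} {K : Cardinal.{u}} (hR : RflK M.ord K L)
    {P : ZFSet.{u} → (ℕ → Ordinal.{u}) → Prop} (hP : DX P) {x : ZFSet.{u}} {ξ : Ordinal.{u}}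
    (h1 : ∀ a < L.ord, Pos M.ord K.ord (fam P x (fun _ => ξ) a))
    (h2 : ∀ b i i', b ∈ fam P x (fun _ => ξ) i → b ∈ fam P x (fun _ => ξ) i' → i = i') :
    ∃ D, NF.ODp x D ∧ D ⊆ L.ord.toZFSet ∧
      (∀ m < L.ord, ∃ a : Ordinal.{u}, m < a ∧ a.toZFSet ∈ D) ∧
      ∃ τ < L.ord, ∃ g : Ordinal.{u} → Ordinal.{u}, ∀ a : Ordinal.{u}, a.toZFSet ∈ D →
        ∃ i < τ, g i = a := by
  obtain ⟨y, y1, y2⟩ := Pool.Agent.H45.CF.cof_seq h.cof
  -- the members with index in the range of `y` reflect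
  have hX : ∀ i < w0, Pos M.ord K.ord
      {b | ∀ n : ℕ, (n : Ordinal.{u}) = i → b ∈ fam P x (fun _ => ξ) (y n)} := by
    intro i hi
    have hi' : i < (ω : Ordinal.{u}) := hi.trans_eq Cardinal.ord_aleph0
    obtain ⟨n, rfl⟩ := Ordinal.lt_omega0.1 hi'
    refine Pos.mono' (h1 _ (y1 n)) fun b _ hb n' hn' => ?_
    have : n' = n := by exact_mod_cast hn'
    rw [this]
    exact hb
  obtain ⟨β, hβ, hβ0, hβL, hpos⟩ := hR _ hX
  have hposn : ∀ n : ℕ, Pos M.ord β (fam P x (fun _ => ξ) (y n)) := fun n => by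
    have hn : (n : Ordinal.{u}) < w0 := (Ordinal.natCast_lt_omega0 n).trans_eq
      Cardinal.ord_aleph0.symm
    exact Pos.mono' (hpos _ hn) fun b _ hb => hb n rfl
  -- the set
  have hd : DX.{u} fun x w => Pos M.ord β {b | P x (cns b (cns (w 0) fun _ => ξ))} := by
    have h3 : DX.{u} fun x w => P x (cns (w 0) (cns (w 1) fun _ => ξ)) := by
      refine (DX.sub (S := fun z x w => P x (cns (w 0) (cns (w 1) fun _ => z))) ξ ?_)
      refine (hP.ren fun n => if n = 0 then 1 else if n = 1 then 2 else 0).congr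
        fun x w => ?_
      have : cns (w (0 + 1)) (cns (w (1 + 1)) fun _ => w 0) =
          fun n => w (if n = 0 then 1 else if n = 1 then 2 else 0) := by
        funext n
        rcases n with _ | _ | n <;> rfl
      rw [← this]
    exact dx_pos hDXP h3 M.ord β
  refine ⟨os L.ord {a | Pos M.ord β (fam P x (fun _ => ξ) a)}, ?_, fun z hz => ?_,
    fun m hm => ?_, ?_⟩
  · exact hODY _ hd x L.ord (fun _ => ξ)
  · obtain ⟨a, ha, -, rfl⟩ := mem_os.1 hz
    exact toZFSet_mem_toZFSet_iff.2 ha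
  · obtain ⟨n, hn⟩ := y2 m hm
    exact ⟨y n, hn, ord_mem_os.2 ⟨y1 n, hposn n⟩⟩
  · obtain ⟨τ, hτ, e, he⟩ := hFWM M.ord β hβ0 (fam P x fun _ => ξ) fun i i' b => h2 b i i'
    refine ⟨τ, hτ.trans_le (Cardinal.ord_le_ord.2 (succ_le_of_lt hβL)), e, fun a ha => ?_⟩
    exact he a (ord_mem_os.1 ha).2

theorem sug (r : R5.{u}) (r' : RK.{u}) (hULX : T_ULX.{u}) (hFWM : T_FWM.{u}) (hDXP : T_DXP.{u})
    (hODY : T_ODY.{u}) (hCO2 : T_CO2.{u}) : T_SUG.{u} := by
  intro L h M hMr hML G hLG hR x hx hs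
  obtain ⟨en, hen⟩ := All.en.{u}
  obtain ⟨t, p1, p2, p3⟩ := All.pr.{u}
  have ht : PF t := ⟨p1, p2, p3⟩
  have hL := slc_unc h
  obtain ⟨P, hP, ξ, h1, h2⟩ := hULX en hen G (hL.trans_le hLG) M hMr (hML.trans_le hLG) x hs
  have h1' : ∀ a < L.ord, Pos M.ord (succ G).ord (fam P x (fun _ => ξ) a) := fun a ha =>
    h1 a (ha.trans_le (Cardinal.ord_le_ord.2 hLG))
  have hB : Bde L x := ⟨hx, sgg hFWM hDXP hODY h hR hP h1' h2⟩
  have hspl : ∀ m < L.ord, SplM en M.ord (succ G).ord x m := by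
    intro m hm
    obtain ⟨c, hc⟩ := hCO2 en hen P hP (x.rank + 1) (succ G).ord m (fun _ => ξ)
    have hxV : x ∈ V_ (x.rank + 1) := by
      rw [ZFSet.mem_vonNeumann]
      exact lt_add_one _
    refine ⟨c, fun i hi => ?_, fun b i i' hb hb' => ?_⟩
    · refine Pos.mono' (h1' i (hi.trans hm)) fun b hb hbi => ?_
      exact (hc x hxV b i).2 ⟨hb, hi, hbi⟩
    · exact h2 b i i' ((hc x hxV b i).1 hb).2.2 ((hc x hxV b i').1 hb').2.2
  obtain ⟨⟨D, hD⟩, hc⟩ := r.BDE en t L (stg hen ht h) h.cof x hB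
  obtain ⟨P', hP', hF⟩ := r'.UFK en hen M.ord (succ G) L x hspl
  exact r.CLE en t L (stg hen ht h) h.cof D x hD
    (r'.CVK L h (succ G) M.ord hR x hc P' hP' hF)

end HD.SD
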