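import Pool.Agent.H98.SD.Defs

/-!
# MP_e37c09_lc: subsets of a strong limit cardinal of cofinality ω above an extendible cardinal.
Targets
-/

open Ordinal Cardinal Order Set
open scoped ZFSet

universe u v

namespace HD.SD

open HD.NF (w0)

/-- the standing assumptions on `en`, `t` and `L` -/
structure Stg (en : Ordinal.{u} → ZFSet.{u}) (t : Ordinal.{u} → Ordinal.{u} → Ordinal.{u})
    (L : Cardinal.{u}) : Prop where
  hen : EN en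
  ht : PF t
  unc : ℵ₀ < L
  lim : ∀ c < L, (2 : Cardinal.{u}) ^ c < L

/-- the piece given by `s`: the ordinals which are, for `i < τ`, in `A i` iff `i` is in `s` -/
def pc (A : Ordinal.{u} → Set Ordinal.{u}) (τ : Ordinal.{u}) (s : Set Ordinal.{u}) :
    Set Ordinal.{u} := {b | ∀ i < τ, (b ∈ A i ↔ i ∈ s)}

/-- the family given by `P`, `x` and `w` -/
def fam (P : ZFSet.{u} → (ℕ → Ordinal.{u}) → Prop) (x : ZFSet.{u}) (w : ℕ → Ordinal.{u})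
    (i : Ordinal.{u}) : Set Ordinal.{u} := {b | P x (cns b (cns i w))}

/-! ## Definability -/

/-- DXS. The sections are definable. -/
def T_DXS : Prop := ∀ en : Ordinal.{u} → ZFSet.{u}, EN en →
  (DX fun x w => w 0 ∈ Sc en x (w 1)) ∧ DX fun x w => w 0 ∈ Sc2 en x (w 1) (w 2)

/-- COM. Comprehension. -/
def T_COM : Prop := ∀ en : Ordinal.{u} → ZFSet.{u}, EN en → ∀ P, DX P →
  ∀ (l κ : Ordinal.{u}) (w : ℕ → Ordinal.{u}), ∃ c, ∀ x ∈ V_ l, ∀ b,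
    (b ∈ Sc en x c ↔ b < κ ∧ P x (cns b w))

/-- CO2. Comprehension for families. -/
def T_CO2 : Prop := ∀ en : Ordinal.{u} → ZFSet.{u}, EN en → ∀ P, DX P →
  ∀ (l κ μ : Ordinal.{u}) (w : ℕ → Ordinal.{u}), ∃ c, ∀ x ∈ V_ l, ∀ b i,
    (b ∈ Sc2 en x c i ↔ b < κ ∧ i < μ ∧ P x (cns b (cns i w)))

/-- ODX. Sets which are definable from `x` and ordinals are sections. -/
def T_ODX : Prop := ∀ en : Ordinal.{u} → ZFSet.{u}, EN en → ∀ (x : ZFSet.{u}) (κ : Ordinal.{u}),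
  (∀ c, NF.ODp x (os κ (Sc en x c))) ∧
  (∀ A, NF.ODp x A → ∃ c, ∀ b < κ, (b ∈ Sc en x c ↔ b.toZFSet ∈ A)) ∧
  (∀ F, NF.ODp x F → ∃ c, ∀ b < κ, ∀ a < κ,
    (b ∈ Sc2 en x c a ↔ ZFSet.pair a.toZFSet b.toZFSet ∈ F)) ∧
  ∀ F, NF.ODp x F → ∃ c, ∀ b < κ, ∀ a < κ,
    (b ∈ Sc2 en x c a ↔ ∃ z, ZFSet.pair a.toZFSet z ∈ F ∧ b.toZFSet ∈ z)

/-- ODY. Definable predicates give sets which are definable from `x` and ordinals. -/
def T_ODY : Prop := ∀ P : ZFSet.{u} → (ℕ → Ordinal.{u}) → Prop, DX P →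
  ∀ (x : ZFSet.{u}) (κ : Ordinal.{u}) (w : ℕ → Ordinal.{u}), NF.ODp x (os κ {b | P x (cns b w)})

/-- TRN. Change of the parameter. -/
def T_TRN : Prop := ∀ en : Ordinal.{u} → ZFSet.{u}, EN en → ∀ x x' : ZFSet.{u}, NF.ODp x' x →
  (∀ z, NF.ODp x z → NF.ODp x' z) ∧
  (∀ κ c, ∃ c', ∀ b, (b ∈ Sc en x' c' ↔ b < κ ∧ b ∈ Sc en x c)) ∧
  ∀ κ m, Spl en κ x m → Spl en κ x' m

/-- DXP. Positivity. -/
def T_DXP : Prop := ∀ P : ZFSet.{u} → (ℕ → Ordinal.{u}) → Prop, DX P → ∀ i j : ℕ,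
  DX fun x w => Pos (w i) (w j) {b | P x (cns b w)}

/-- DXN. Order types. -/
def T_DXN : Prop := ∀ P : ZFSet.{u} → (ℕ → Ordinal.{u}) → Prop, DX P →
  DX fun x w => nth {b | P x (cns b fun n => w (n + 2))} (w 0) (w 1)

/-- DXD. Decoding. -/
def T_DXD : Prop := ∀ t : Ordinal.{u} → Ordinal.{u} → Ordinal.{u}, PF t →
  DX fun x w => w 0 ∈ dec t x (w 1)

/-! ## Coding -/

/-- COD. A sequence of subsets of `L` is coded by one subset of `L`. -/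
def T_COD : Prop := ∀ t : Ordinal.{u} → Ordinal.{u} → Ordinal.{u}, PF t → ∀ L : Cardinal.{u},
  ℵ₀ ≤ L → ∀ z : Ordinal.{u} → Set Ordinal.{u}, ∃ x, x ⊆ L.ord.toZFSet ∧
    ∀ ξ < L.ord, ∀ a < L.ord, (a ∈ dec t x ξ ↔ a ∈ z ξ)

/-- CDB. The number of the bounded subsets. -/
def T_CDB : Prop := ∀ L : Cardinal.{u}, ℵ₀ < L → (∀ c < L, (2 : Cardinal.{u}) ^ c < L) →
  ∃ z : Ordinal.{u} → Set Ordinal.{u}, ∀ m < L.ord, ∀ s : Set Ordinal.{u},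
    ∃ ξ < L.ord, ∀ a < m, (a ∈ z ξ ↔ a ∈ s)

/-- CDX. A good code for a sequence of subsets of `L`. -/
def T_CDX : Prop := ∀ en t L, Stg.{u} en t L → ∀ y : Ordinal.{u} → ZFSet.{u},
  (∀ i < L.ord, y i ⊆ L.ord.toZFSet) → ∃ x, Cdd t L x ∧ ∀ i < L.ord, NF.ODp x (y i)

/-! ## Second case -/

/-- FEW. Disjoint positive sets. -/
def T_FEW : Prop := ∀ en : Ordinal.{u} → ZFSet.{u}, EN en → ∀ (κ : Ordinal.{u}) (x : ZFSet.{u})
  (m : Ordinal.{u}), ¬ Spl en κ x m → ∀ P S, DX P → DX S → ∀ w : ℕ → Ordinal.{u},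
    (∀ ξ, S x (cns ξ w) → Pos w0 κ (fam P x w ξ)) →
    (∀ ξ ξ' b, S x (cns ξ w) → S x (cns ξ' w) → b ∈ fam P x w ξ → b ∈ fam P x w ξ' → ξ = ξ') →
      Few m {ξ | S x (cns ξ w)}

/-- TYP. The positive types of a short sequence. -/
def T_TYP : Prop := ∀ en t L, Stg.{u} en t L → ∀ x, Cdd t L x → ∀ M : Cardinal.{u}, ℵ₀ ≤ M →
  M < L → ¬ Spl en (succ L).ord x M.ord → ∀ P, DX P → ∀ w : ℕ → Ordinal.{u}, ∀ τ < L.ord,
    ∃ S, DX S ∧ ∃ w' : ℕ → Ordinal.{u}, Few M.ord {ξ | S x (cns ξ w')} ∧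
      (∀ ξ, S x (cns ξ w') → ξ < L.ord ∧ Pos w0 (succ L).ord (pc (fam P x w) τ (dec t x ξ))) ∧
      (∀ ξ ξ' b, S x (cns ξ w') → S x (cns ξ' w') → b ∈ pc (fam P x w) τ (dec t x ξ) →
        b ∈ pc (fam P x w) τ (dec t x ξ') → ξ = ξ') ∧
      ¬ Pos w0 (succ L).ord {b | ∀ ξ, S x (cns ξ w') → b ∉ pc (fam P x w) τ (dec t x ξ)}

/-- EQV. Equality up to a null set is an equivalence. -/
def T_EQV : Prop := ∀ κ : Ordinal.{u}, ℵ₀ < κ.cof → (∀ X, Eqv κ X X) ∧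
  (∀ X Y, Eqv κ X Y → Eqv κ Y X) ∧ (∀ X Y Z, Eqv κ X Y → Eqv κ Y Z → Eqv κ X Z) ∧
  ∀ X Y, (∀ b < κ, (b ∈ X ↔ b ∈ Y)) → Eqv κ X Y

/-- CNT. The number of the classes for one parameter. -/
def T_CNT : Prop := ∀ en t L, Stg.{u} en t L → ∀ x, Cdd t L x → ∀ M : Cardinal.{u}, ℵ₀ ≤ M →
  M < L → ¬ Spl en (succ L).ord x M.ord →
    Few (succ ((2 : Cardinal.{u}) ^ M)).ord
      {c | ∀ c' < c, ¬ Eqv (succ L).ord (Sc en x c) (Sc en x c')}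

/-- MAX. Maximal families of inequivalent objects. -/
def T_MAX : Prop := ∀ (α : Type (u + 1)) [Nonempty α] (r : α → α → Prop) (ν : Ordinal.{u}),
  (∃ f : Ordinal.{u} → α, ∀ i < ν, ∀ k < i, ¬ r (f i) (f k)) ∨
    ∃ τ < ν, ∃ f : Ordinal.{u} → α, ∀ a, ∃ i < τ, r a (f i)

/-- ALL. All classes occur for one parameter. -/
def T_ALL : Prop := ∀ en t L, Stg.{u} en t L → ∀ M : Cardinal.{u}, ℵ₀ ≤ M → M < L →
  (∀ x, x ⊆ L.ord.toZFSet → ¬ Spl en (succ L).ord x M.ord) →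
    ∃ x, Cdd t L x ∧ ∀ y, y ⊆ L.ord.toZFSet → ∀ c, ∃ c',
      Eqv (succ L).ord (Sc en y c) (Sc en x c')

/-- the set `X` is not split by a set which is definable from ordinals and a subset of `L` -/
def Ind (en : Ordinal.{u} → ZFSet.{u}) (L : Cardinal.{u}) (X : Set Ordinal.{u}) : Prop :=
  ∀ y, y ⊆ L.ord.toZFSet → ∀ c, ¬ Pos w0 (succ L).ord {b | b ∈ X ∧ b ∈ Sc en y c} ∨
    ¬ Pos w0 (succ L).ord {b | b ∈ X ∧ b ∉ Sc en y c}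

/-- ATM. The atoms. -/
def T_ATM : Prop := ∀ en t L, Stg.{u} en t L → ∀ M : Cardinal.{u}, ℵ₀ ≤ M → M < L →
  ∀ x, Cdd t L x → ¬ Spl en (succ L).ord x M.ord →
    (∀ y, y ⊆ L.ord.toZFSet → ∀ c, ∃ c', Eqv (succ L).ord (Sc en y c) (Sc en x c')) →
    ∃ τ < L.ord, ∃ T : Ordinal.{u} → Set Ordinal.{u},
      (∀ i < τ, Pos w0 (succ L).ord (T i)) ∧
      (∀ i < τ, ∀ k < τ, ∀ b, b ∈ T i → b ∈ T k → i = k) ∧
      ¬ Pos w0 (succ L).ord {b | ∀ i < τ, b ∉ T i} ∧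
      (∀ i < τ, NF.ODp x (os (succ L).ord (T i))) ∧ ∀ i < τ, Ind en L (T i)

/-- SET. -/
def T_SET : Prop := ∀ en : Ordinal.{u} → ZFSet.{u}, EN en → ∀ L : Cardinal.{u}, ℵ₀ < L →
  ∀ X, Ind en L X → ∀ y A : ZFSet.{u}, y ⊆ L.ord.toZFSet → NF.ODp y A →
    ¬ Pos w0 (succ L).ord {b | b ∈ X ∧ b.toZFSet ∈ A} ∨
      ¬ Pos w0 (succ L).ord {b | b ∈ X ∧ b.toZFSet ∉ A}

/-- PFC. Functions with values in the power set of `L`. -/
def T_PFC : Prop := ∀ en : Ordinal.{u} → ZFSet.{u}, EN en → ∀ L : Cardinal.{u}, ℵ₀ < L →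
  ∀ X, Ind en L X → ∀ y F : ZFSet.{u}, y ⊆ L.ord.toZFSet → NF.ODp y F →
    ZFSet.IsFunc (succ L).ord.toZFSet (ZFSet.powerset L.ord.toZFSet) F →
      ∃ z, ¬ Pos w0 (succ L).ord {b | b ∈ X ∧ ZFSet.pair b.toZFSet z ∉ F}

/-- REG. Regressive functions. -/
def T_REG : Prop := ∀ en : Ordinal.{u} → ZFSet.{u}, EN en → ∀ L : Cardinal.{u}, ℵ₀ < L →
  ∀ X, Pos w0 (succ L).ord X → Ind en L X → ∀ y F : ZFSet.{u}, y ⊆ L.ord.toZFSet →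
    NF.ODp y F → ZFSet.IsFunc (succ L).ord.toZFSet (succ L).ord.toZFSet F →
      (∀ a b : Ordinal.{u}, ZFSet.pair a.toZFSet b.toZFSet ∈ F → 0 < a → b < a) →
        ∃ c : Ordinal.{u}, ¬ Pos w0 (succ L).ord {b | b ∈ X ∧
          ZFSet.pair b.toZFSet c.toZFSet ∉ F}

/-- NIJ. The measures exclude injections. -/
def T_NIJ : Prop := ∀ L : Cardinal.{u}, ℵ₀ < L → ∀ τ T, Msr L τ T → NoInj L

/-- WIJ. In the first case there is an injection. -/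
def T_WIJ : Prop := ∀ L : Cardinal.{u}, ℵ₀ < L → WOP L → ¬ NoInj L

/-- UNM. One `M` for all parameters. -/
def T_UNM : Prop := ∀ en t L, Stg.{u} en t L → L.ord.cof = ℵ₀ →
  (∀ x, Cdd t L x → ∃ m < L.ord, ¬ Spl en (succ L).ord x m) →
    ∃ M : Cardinal.{u}, ℵ₀ ≤ M ∧ M < L ∧
      ∀ x, x ⊆ L.ord.toZFSet → ¬ Spl en (succ L).ord x M.ord

/-! ## First case -/

/-- `P` and `x` give for each `m < L` a family of `m` disjoint positive sets. -/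
def Fms (L : Cardinal.{u}) (P : ZFSet.{u} → (ℕ → Ordinal.{u}) → Prop) (x : ZFSet.{u}) : Prop :=
  ∀ m < L.ord, (∀ i < m, Pos w0 (succ L).ord (fam P x (fun _ => m) i)) ∧
    ∀ b i i', b ∈ fam P x (fun _ => m) i → b ∈ fam P x (fun _ => m) i' → i = i'

/-- UNF. The least codes. -/
def T_UNF : Prop := ∀ en : Ordinal.{u} → ZFSet.{u}, EN en → ∀ (L : Cardinal.{u}) (x : ZFSet.{u}),
  (∀ m < L.ord, Spl en (succ L).ord x m) → ∃ P, DX P ∧ Fms L P x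

/-- BCK. Sets which are positive stay positive at the supremum of the image. -/
def T_BCK : Prop := ∀ (δ η θ : Ordinal.{u}) (j : ZFSet.{u} → ZFSet.{u}) (K : Cardinal.{u})
  (γ ρ : Ordinal.{u}) (f : ZFSet.{u}), Emb δ η θ j → ω < δ → K.IsRegular → δ < K.ord →
  K.ord < η → γ < η → f ∈ V_ η → (∀ i < γ, Pos w0 K.ord (fib f i)) →
  (∀ x < K.ord, Jo j x < ρ) → (∀ y < ρ, ∃ x < K.ord, y < Jo j x) →
    ∀ i < γ, Pos w0 ρ (fib (j f) (Jo j i))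

/-- REF. Simultaneous reflection. -/
def T_REF : Prop := ∀ δ : Ordinal.{u}, Extendible δ → ∀ K : Cardinal.{u}, K.IsRegular →
  δ < K.ord → ∀ τ < δ, ∀ X : Ordinal.{u} → Set Ordinal.{u}, (∀ i < τ, Pos w0 K.ord (X i)) →
    ∃ β < K.ord, ℵ₀ < β.cof ∧ β.cof.ord < δ ∧ ∀ i < τ, Pos w0 β (X i)

/-- FWB. The number of disjoint positive sets. -/
def T_FWB : Prop := ∀ β : Ordinal.{u}, ℵ₀ < β.cof → ∀ X : Ordinal.{u} → Set Ordinal.{u},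
  (∀ i i' b, b ∈ X i → b ∈ X i' → i = i') → Few (succ β.cof).ord {i | Pos w0 β (X i)}

/-- Each countable subset of `L` is contained in a set with fewer than `δ` elements which is
definable from `x` and ordinals. -/
def Cvr (δ : Ordinal.{u}) (L : Cardinal.{u}) (x : ZFSet.{u}) : Prop :=
  ∀ y : Set Ordinal.{u}, (∀ a ∈ y, a < L.ord) →
    (∃ g : Ordinal.{u} → Ordinal.{u}, ∀ a ∈ y, ∃ i < w0, g i = a) →
      ∃ S, DX S ∧ ∃ w : ℕ → Ordinal.{u}, Few δ {a | S x (cns a w)} ∧ ∀ a ∈ y, S x (cns a w)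

/-- A countable cofinal subset of `L` is definable from `x` and ordinals. -/
def Cof (L : Cardinal.{u}) (x : ZFSet.{u}) : Prop := ∃ S, DX S ∧ ∃ w : ℕ → Ordinal.{u},
  (∀ a, S x (cns a w) → a < L.ord) ∧ (∀ m < L.ord, ∃ a, S x (cns a w) ∧ m < a) ∧
  ∃ g : Ordinal.{u} → Ordinal.{u}, ∀ a, S x (cns a w) → ∃ i < w0, g i = a

/-- CDC. A good code, also for a cofinal sequence. -/
def T_CDC : Prop := ∀ en t L, Stg.{u} en t L → L.ord.cof = ℵ₀ → ∀ y, y ⊆ L.ord.toZFSet →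
  ∃ x, Cdd t L x ∧ Cof L x ∧ NF.ODp x y

/-- CVR. Covering. -/
def T_CVR : Prop := ∀ δ : Ordinal.{u}, Extendible δ → ∀ L : Cardinal.{u}, SLC δ L → ∀ x,
  Cof L x → ∀ P, DX P → Fms L P x → Cvr δ L x

/-- CL1. Conclusion of the first case. -/
def T_CL1 : Prop := ∀ en t L, Stg.{u} en t L → L.ord.cof = ℵ₀ → ∀ δ < L.ord, ω < δ → ∀ x,
  Cdd t L x → Cvr δ L x → ∀ z, z ⊆ L.ord.toZFSet → NF.ODp x z

/-- ULM. In the first case of the dichotomy of Woodin there are partitions. -/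
def T_ULM : Prop := ∀ δ : Ordinal.{u}, CaseA δ → ∀ L : Cardinal.{u}, ℵ₀ ≤ L → ¬ L.IsRegular →
  δ < L.ord → ∀ D < L, ¬ NS D.ord w0 (succ L).ord

/-- CAS. The first case of the dichotomy of Woodin. -/
def T_CAS : Prop := ∀ δ : Ordinal.{u}, Extendible δ → CaseA δ → ∀ L : Cardinal.{u}, SLC δ L →
  ∀ en : Ordinal.{u} → ZFSet.{u}, EN en → ∀ (x : ZFSet.{u}), ∀ m < L.ord,
    Spl en (succ L).ord x m

/-- The theorem. -/
def T_MAIN : Prop := ∀ δ : Ordinal.{u}, Extendible δ → ∀ L : Cardinal.{u}, SLC δ L →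
  (WOP L ∨ ∃ τ T, Msr L τ T) ∧ (WOP L ↔ ¬ NoInj L) ∧ (CaseA δ → WOP L)

end HD.SD
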