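import Pool.Agent.H98.SD.Targets

/-!
# MP_e37c09_lc: subsets of a strong limit cardinal of cofinality ω. Targets with the principle of
simultaneous reflection in place of an extendible cardinal
-/

open Ordinal Cardinal Order Set
open scoped ZFSet

universe u

namespace HD.SD

open HD.NF (w0)

/-- Simultaneous reflection at the successor of `L`: for each countable family of sets which are
stationary in the points of cofinality `ω` there is an ordinal of uncountable cofinality below the
successor of `L` at which all sets of the family are stationary. -/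
def Rfl (L : Cardinal.{u}) : Prop := ∀ X : Ordinal.{u} → Set Ordinal.{u},
  (∀ i < w0, Pos w0 (succ L).ord (X i)) →
    ∃ β < (succ L).ord, ℵ₀ < β.cof ∧ ∀ i < w0, Pos w0 β (X i)

/-- CV2. Covering. -/
def T_CV2 : Prop := ∀ L : Cardinal.{u}, SLC ω L → Rfl L → ∀ x, Cof L x → ∀ P, DX P →
  Fms L P x → Cvr L.ord L x

/-- CL2. Conclusion of the first case. -/
def T_CL2 : Prop := ∀ en t L, Stg.{u} en t L → L.ord.cof = ℵ₀ → ∀ x, Cdd t L x →
  Cvr L.ord L x → ∀ z, z ⊆ L.ord.toZFSet → NF.ODp x z

/-- RE2. Extendible cardinals give simultaneous reflection. -/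
def T_RE2 : Prop := ∀ δ : Ordinal.{u}, Extendible δ → ∀ L : Cardinal.{u}, SLC δ L → Rfl L

/-- The theorem. -/
def T_MAIN2 : Prop :=
  (∀ L : Cardinal.{u}, SLC ω L → Rfl L →
    (WOP L ∨ ∃ τ T, Msr L τ T) ∧ (WOP L ↔ ¬ NoInj L)) ∧
  ∀ δ : Ordinal.{u}, Extendible δ → ∀ L : Cardinal.{u}, SLC δ L →
    SLC ω L ∧ Rfl L ∧ (CaseA δ → WOP L)

end HD.SD
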